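import Pool.Agent.H951R3.PB.Defs

/-! Task B1 (helper265): algebra of fibre data. -/

set_option autoImplicit false

namespace Pool.Agent.TH450.PC

open Pool.Agent.H951R3.PB

open Real Filter Topology

universe u

section B1

variable {L : Type u} [Field L]

theorem B1_nrm_smul (w : AbsoluteValue L ℝ) (a : L) (x : Fin 2 → L) :
    nrm w (a • x) = w a * nrm w x := by
  unfold nrm
  simp only [Pi.smul_apply, smul_eq_mul, map_mul]
  rw [mul_max_of_nonneg _ _ (w.nonneg a)]

theorem B1_nrm_pos (w : AbsoluteValue L ℝ) {x : Fin 2 → L} (hx : x ≠ 0) : 0 < nrm w x := by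
  unfold nrm
  by_contra hcon
  push Not at hcon
  apply hx
  funext i
  have h0 : w (x 0) ≤ 0 := (le_max_left _ _).trans hcon
  have h1 : w (x 1) ≤ 0 := (le_max_right _ _).trans hcon
  have e0 : x 0 = 0 := (w.eq_zero).1 (le_antisymm h0 (w.nonneg _))
  have e1 : x 1 = 0 := (w.eq_zero).1 (le_antisymm h1 (w.nonneg _))
  fin_cases i
  · exact e0
  · exact e1

theorem B1_ne_zero {w : AbsoluteValue L ℝ} {x : Fin 2 → L} (hx : nrm w x = 1) : x ≠ 0 := by
  rintro rfl
  unfold nrm at hx
  simp at hx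

theorem B1_wd_smul_right (u x : Fin 2 → L) (a : L) : wd u (a • x) = a * wd u x := by
  unfold wd
  simp only [Pi.smul_apply, smul_eq_mul]
  ring

theorem B1_wd_smul_left (u x : Fin 2 → L) (a : L) : wd (a • u) x = a * wd u x := by
  unfold wd
  simp only [Pi.smul_apply, smul_eq_mul]
  ring

theorem B1_wd_swap (u x : Fin 2 → L) : wd u x = -wd x u := by
  unfold wd
  ring

theorem B1_ext {v v' : Fin 2 → L} (w : AbsoluteValue L ℝ)
    (h : ∀ u, nrm w u = 1 → wd u v = wd u v') : v = v' := by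
  have h0 := h ![1, 0] (by unfold nrm; simp)
  have h1 := h ![0, 1] (by unfold nrm; simp)
  unfold wd at h0 h1
  simp at h0 h1
  funext i
  fin_cases i
  · exact h1
  · exact h0

theorem B1_parallel {x z : Fin 2 → L} (hz : z ≠ 0) (h : wd x z = 0) : ∃ a : L, x = a • z := by
  unfold wd at h
  by_cases h0 : z 0 = 0
  · have h1 : z 1 ≠ 0 := by
      intro h1
      apply hz
      funext i
      fin_cases i
      · exact h0
      · exact h1
    refine ⟨x 1 / z 1, ?_⟩
    funext i
    fin_cases i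
    · simp only [Fin.zero_eta, Pi.smul_apply, smul_eq_mul, h0, mul_zero]
      rw [h0, mul_zero, sub_zero] at h
      exact (mul_eq_zero.1 h).resolve_right h1
    · simp only [Fin.mk_one, Pi.smul_apply, smul_eq_mul]
      field_simp
  · refine ⟨x 0 / z 0, ?_⟩
    funext i
    fin_cases i
    · simp only [Fin.zero_eta, Pi.smul_apply, smul_eq_mul]
      field_simp
    · simp only [Fin.mk_one, Pi.smul_apply, smul_eq_mul]
      field_simp
      linear_combination -h

/-- B1 -/
theorem fib_homog {L : Type u} [Field L] {w : AbsoluteValue L ℝ} {F : (Fin 2 → L) → Fin 2 → L}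
    {D : ℕ} {r : ℝ} (h : Fib w F D r) (a : L) (x : Fin 2 → L) : F (a • x) = a ^ D • F x := by
  apply B1_ext w
  intro u hu
  obtain ⟨C, z, hf⟩ := h u hu
  rw [B1_wd_smul_right, hf.fac, hf.fac]
  simp only [B1_wd_smul_left]
  rw [Finset.prod_mul_distrib, Finset.prod_const, Finset.card_univ, Fintype.card_fin]
  ring

/-- B1 -/
theorem fib_ne_zero {L : Type u} [Field L] {w : AbsoluteValue L ℝ}
    {F : (Fin 2 → L) → Fin 2 → L} {D : ℕ} {r : ℝ} (h : Fib w F D r) {x : Fin 2 → L}
    (hx : x ≠ 0) : F x ≠ 0 := by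
  intro hF
  have hu : nrm w (![1, 0] : Fin 2 → L) = 1 := by unfold nrm; simp
  obtain ⟨C, z, hf⟩ := h _ hu
  have h1 := hf.fac x
  rw [hF] at h1
  have h2 : wd (![1, 0] : Fin 2 → L) 0 = 0 := by unfold wd; simp
  rw [h2] at h1
  have h3 := (mul_eq_zero.1 h1.symm).resolve_left hf.C_ne
  rw [Finset.prod_eq_zero_iff] at h3
  obtain ⟨j, -, hj⟩ := h3
  have hzj : z j ≠ 0 := B1_ne_zero (hf.unit j)
  obtain ⟨a, ha⟩ := B1_parallel hzj hj
  have ha0 : a ≠ 0 := by
    rintro rfl
    rw [zero_smul] at ha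
    exact hx ha
  obtain ⟨c, hc, hFz⟩ := hf.img j
  rw [ha, fib_homog h, hFz] at hF
  have h4 := congrFun hF 0
  simp only [Pi.smul_apply, smul_eq_mul, Matrix.cons_val_zero, mul_one, Pi.zero_apply] at h4
  exact (mul_ne_zero (pow_ne_zero _ ha0) hc) h4

/-- B1 -/
theorem fib_comp {L : Type u} [Field L] {w : AbsoluteValue L ℝ}
    {F H : (Fin 2 → L) → Fin 2 → L} {D D' : ℕ} {r r' : ℝ} (hF : Fib w F D r)
    (hH : Fib w H D' r') : Fib w (F ∘ H) (D * D') (D' * r + (D : ℝ) ^ 2 * r') := by
  intro u hu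
  obtain ⟨C, z, hf⟩ := hF u hu
  have hz : ∀ i, ∃ (C' : L) (z' : Fin D' → Fin 2 → L), FibAt w H D' r' (z i) C' z' :=
    fun i => hH (z i) (hf.unit i)
  choose C' z' hh using hz
  choose c hc hcF using hf.img
  have him : ∀ i j, ∃ c : L, c ≠ 0 ∧ H (z' i j) = c • z i := fun i j => (hh i).img j
  choose c' hc' hcH using him
  have himg : ∀ i j, (F ∘ H) (z' i j) = (c' i j ^ D * c i) • u := by
    intro i j
    show F (H (z' i j)) = _
    rw [hcH, fib_homog hF, hcF, smul_smul]
  have hnF : ∀ i, nrm w (F (z i)) = w (c i) := by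
    intro i
    rw [hcF, B1_nrm_smul, hu, mul_one]
  have hnH : ∀ i j, nrm w (H (z' i j)) = w (c' i j) := by
    intro i j
    rw [hcH, B1_nrm_smul, hf.unit, mul_one]
  have hnFH : ∀ i j, nrm w ((F ∘ H) (z' i j)) = w (c' i j) ^ D * w (c i) := by
    intro i j
    rw [himg, B1_nrm_smul, hu, mul_one, map_mul, map_pow]
  refine ⟨C * ((-1) ^ D * ∏ i, C' i),
    fun k => z' (finProdFinEquiv.symm k).1 (finProdFinEquiv.symm k).2, ?_, ?_, ?_, ?_, ?_⟩
  · refine mul_ne_zero hf.C_ne (mul_ne_zero (pow_ne_zero _ (neg_ne_zero.2 one_ne_zero)) ?_)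
    exact Finset.prod_ne_zero_iff.2 fun i _ => (hh i).C_ne
  · intro k
    exact (hh _).unit _
  · intro x
    have e1 : ∏ k : Fin (D * D'), wd x (z' (finProdFinEquiv.symm k).1 (finProdFinEquiv.symm k).2) =
        ∏ i, ∏ j, wd x (z' i j) := by
      rw [← Fintype.prod_prod_type' (f := fun i j => wd x (z' i j))]
      exact Equiv.prod_comp (finProdFinEquiv (m := D) (n := D')).symm
        (fun p => wd x (z' p.1 p.2))
    rw [e1]
    show wd u (F (H x)) = _
    rw [hf.fac]
    have e2 : ∀ i, wd (H x) (z i) = -(C' i) * ∏ j, wd x (z' i j) := by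
      intro i
      rw [B1_wd_swap, (hh i).fac]
      ring
    simp only [e2]
    rw [Finset.prod_mul_distrib]
    have e3 : ∏ i : Fin D, -(C' i) = (-1) ^ D * ∏ i, C' i := by
      have : ∀ i : Fin D, -(C' i) = (-1) * C' i := fun i => by ring
      simp only [this]
      rw [Finset.prod_mul_distrib, Finset.prod_const, Finset.card_univ, Fintype.card_fin]
    rw [e3]
    ring
  · intro k
    exact ⟨_, mul_ne_zero (pow_ne_zero _ (hc' _ _)) (hc _), himg _ _⟩
  · have e1 : ∑ k : Fin (D * D'), log (nrm w ((F ∘ H)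
        (z' (finProdFinEquiv.symm k).1 (finProdFinEquiv.symm k).2))) =
        ∑ i, ∑ j, log (nrm w ((F ∘ H) (z' i j))) := by
      rw [← Fintype.sum_prod_type' (f := fun i j => log (nrm w ((F ∘ H) (z' i j))))]
      exact Equiv.sum_comp (finProdFinEquiv (m := D) (n := D')).symm
        (fun p => log (nrm w ((F ∘ H) (z' p.1 p.2))))
    rw [e1]
    have hwpos : ∀ {a : L}, a ≠ 0 → w a ≠ 0 := fun {a} ha => (w.ne_zero_iff).2 ha
    have e2 : log (w (C * ((-1) ^ D * ∏ i, C' i))) = log (w C) + ∑ i, log (w (C' i)) := by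
      rw [map_mul, map_mul, map_pow]
      have : w (-1) = 1 := by rw [map_neg_eq_map, map_one]
      rw [this, one_pow, one_mul, map_prod]
      rw [Real.log_mul (hwpos hf.C_ne) (Finset.prod_ne_zero_iff.2 fun i _ => hwpos (hh i).C_ne)]
      rw [Real.log_prod fun i _ => hwpos (hh i).C_ne]
    rw [e2]
    have e3 : ∀ i j, log (nrm w ((F ∘ H) (z' i j))) = D * log (w (c' i j)) + log (w (c i)) := by
      intro i j
      rw [hnFH, Real.log_mul (pow_ne_zero _ (hwpos (hc' i j))) (hwpos (hc i)), Real.log_pow]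
    simp only [e3]
    have r1 := hf.res
    simp only [hnF] at r1
    have r2 : ∀ i, (D' : ℝ) * log (w (C' i)) + ∑ j, log (w (c' i j)) = r' := by
      intro i
      have := (hh i).res
      simp only [hnH] at this
      exact this
    have e4 : ∑ i : Fin D, ∑ j : Fin D', ((D : ℝ) * log (w (c' i j)) + log (w (c i))) =
        D * ∑ i, ∑ j, log (w (c' i j)) + D' * ∑ i, log (w (c i)) := by
      simp only [Finset.sum_add_distrib, Finset.mul_sum, Finset.sum_const, Finset.card_univ,
        Fintype.card_fin, nsmul_eq_mul]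
    rw [e4]
    have e5 : ∑ i : Fin D, ((D' : ℝ) * log (w (C' i)) + ∑ j, log (w (c' i j))) = D * r' := by
      simp only [r2, Finset.sum_const, Finset.card_univ, Fintype.card_fin, nsmul_eq_mul]
    rw [Finset.sum_add_distrib, ← Finset.mul_sum] at e5
    push_cast
    linear_combination (D' : ℝ) * r1 + (D : ℝ) * e5

/-- B1 -/
theorem fib_iter {L : Type u} [Field L] {w : AbsoluteValue L ℝ}
    {F : (Fin 2 → L) → Fin 2 → L} {d : ℕ} {r : ℝ} (hF : Fib w F d r) (k : ℕ) :
    Fib w (F^[k]) (d ^ k) (kap d k * r) := by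
  induction k with
  | zero =>
    have h0 : Fib w (id : (Fin 2 → L) → Fin 2 → L) 1 0 := by
      intro u hu
      refine ⟨-1, fun _ => u, neg_ne_zero.2 one_ne_zero, fun _ => hu, ?_, ?_, ?_⟩
      · intro x
        simp only [id, Finset.univ_unique, Finset.prod_const, Finset.card_singleton, pow_one]
        rw [B1_wd_swap]
        ring
      · intro j
        exact ⟨1, one_ne_zero, by simp⟩
      · have : w (-1) = 1 := by rw [map_neg_eq_map, map_one]
        simp [this, hu]
    simpa [kap] using h0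
  | succ k ih =>
    have h1 := fib_comp hF ih
    have e1 : d ^ (k + 1) = d * d ^ k := pow_succ' d k
    have e2 : ((kap d (k + 1) : ℕ) : ℝ) * r =
        ((d ^ k : ℕ) : ℝ) * r + (d : ℝ) ^ 2 * ((kap d k : ℕ) * r) := by
      simp only [kap]
      push_cast
      ring
    rw [e1, e2, Function.iterate_succ']
    exact h1

end B1

end Pool.Agent.TH450.PC
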