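import Pool.Agent.H951R3.PB.Defs

/-! A2: a grid point away from given vectors (helper49) -/

set_option autoImplicit false

namespace Pool.Agent.TH450.PC

open Pool.Agent.H951R3.PB

open Real Filter Topology

universe u

theorem A2_le_nrm {L : Type u} [Field L] (w : AbsoluteValue L ℝ) (x : Fin 2 → L) (k : Fin 2) :
    w (x k) ≤ nrm w x := by
  fin_cases k
  · exact le_max_left _ _
  · exact le_max_right _ _

theorem A2_exists_nrm {L : Type u} [Field L] (w : AbsoluteValue L ℝ) (x : Fin 2 → L) :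
    ∃ k, w (x k) = nrm w x := by
  rcases le_total (w (x 0)) (w (x 1)) with h | h
  · exact ⟨1, (max_eq_right h).symm⟩
  · exact ⟨0, (max_eq_left h).symm⟩

/-- Pluecker identity -/
theorem A2_pluecker {L : Type u} [Field L] (s s' z : Fin 2 → L) (k : Fin 2) :
    wd s s' * z k = wd z s' * s k + wd s z * s' k := by
  fin_cases k
  · simp only [wd, Fin.zero_eta]; ring
  · simp only [wd, Fin.mk_one]; ring

theorem A2_wd_comm {L : Type u} [Field L] (w : AbsoluteValue L ℝ) (x y : Fin 2 → L) :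
    w (wd x y) = w (wd y x) := by
  rw [← w.map_neg]
  congr 1
  simp only [wd]
  ring

theorem A2_tri {L : Type u} [Field L] (w : AbsoluteValue L ℝ) {s s' z : Fin 2 → L}
    (hs : nrm w s = 1) (hs' : nrm w s' = 1) (hz : nrm w z = 1) :
    w (wd s s') ≤ w (wd s z) + w (wd s' z) := by
  obtain ⟨k, hk⟩ := A2_exists_nrm w z
  have h1 : w (wd s s') = w (wd s s' * z k) := by rw [w.map_mul, hk, hz, mul_one]
  rw [h1, A2_pluecker]
  calc w (wd z s' * s k + wd s z * s' k) ≤ w (wd z s' * s k) + w (wd s z * s' k) := w.add_le _ _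
    _ = w (wd z s') * w (s k) + w (wd s z) * w (s' k) := by rw [w.map_mul, w.map_mul]
    _ ≤ w (wd z s') * 1 + w (wd s z) * 1 := by
        gcongr
        · rw [← hs]; exact A2_le_nrm w s k
        · rw [← hs']; exact A2_le_nrm w s' k
    _ = w (wd s z) + w (wd s' z) := by rw [A2_wd_comm w z s']; ring

theorem A2_tri_na {L : Type u} [Field L] (w : AbsoluteValue L ℝ) (hw : IsNonarchimedean w)
    {s s' z : Fin 2 → L}
    (hs : nrm w s = 1) (hs' : nrm w s' = 1) (hz : nrm w z = 1) :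
    w (wd s s') ≤ max (w (wd s z)) (w (wd s' z)) := by
  obtain ⟨k, hk⟩ := A2_exists_nrm w z
  have h1 : w (wd s s') = w (wd s s' * z k) := by rw [w.map_mul, hk, hz, mul_one]
  rw [h1, A2_pluecker]
  calc w (wd z s' * s k + wd s z * s' k) ≤ max (w (wd z s' * s k)) (w (wd s z * s' k)) := hw _ _
    _ = max (w (wd z s') * w (s k)) (w (wd s z) * w (s' k)) := by rw [w.map_mul, w.map_mul]
    _ ≤ max (w (wd z s') * 1) (w (wd s z) * 1) := by
        gcongr
        · rw [← hs]; exact A2_le_nrm w s k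
        · rw [← hs']; exact A2_le_nrm w s' k
    _ = max (w (wd s z)) (w (wd s' z)) := by rw [A2_wd_comm w z s', max_comm, mul_one, mul_one]

theorem A2_wd_le_na {L : Type u} [Field L] (w : AbsoluteValue L ℝ) (hw : IsNonarchimedean w)
    (x y : Fin 2 → L) : w (wd x y) ≤ nrm w x * nrm w y := by
  have h0 : 0 ≤ nrm w x := le_trans (w.nonneg _) (A2_le_nrm w x 0)
  unfold wd
  calc w (x 0 * y 1 - x 1 * y 0) = w (x 0 * y 1 + -(x 1 * y 0)) := by rw [sub_eq_add_neg]
    _ ≤ max (w (x 0 * y 1)) (w (-(x 1 * y 0))) := hw _ _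
    _ ≤ nrm w x * nrm w y := by
      rw [w.map_neg, w.map_mul, w.map_mul]
      exact max_le (mul_le_mul (A2_le_nrm w x 0) (A2_le_nrm w y 1) (w.nonneg _) h0)
        (mul_le_mul (A2_le_nrm w x 1) (A2_le_nrm w y 0) (w.nonneg _) h0)

theorem A2_wd_le {L : Type u} [Field L] (w : AbsoluteValue L ℝ)
    (x y : Fin 2 → L) : w (wd x y) ≤ 2 * (nrm w x * nrm w y) := by
  have h0 : 0 ≤ nrm w x := le_trans (w.nonneg _) (A2_le_nrm w x 0)
  unfold wd
  calc w (x 0 * y 1 - x 1 * y 0) ≤ w (x 0 * y 1) + w (x 1 * y 0) := w.sub_le_add _ _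
    _ = w (x 0) * w (y 1) + w (x 1) * w (y 0) := by rw [w.map_mul, w.map_mul]
    _ ≤ nrm w x * nrm w y + nrm w x * nrm w y :=
      add_le_add (mul_le_mul (A2_le_nrm w x 0) (A2_le_nrm w y 1) (w.nonneg _) h0)
        (mul_le_mul (A2_le_nrm w x 1) (A2_le_nrm w y 0) (w.nonneg _) h0)
    _ = 2 * (nrm w x * nrm w y) := by ring

/-- A2 -/
theorem avoid {L : Type u} [Field L] (w : AbsoluteValue L ℝ) {M : ℕ} {δ : ℝ}
    (s : Fin M → Fin 2 → L) (hs : ∀ i, nrm w (s i) = 1)
    (hsep : ∀ i j, i ≠ j → δ ≤ w (wd (s i) (s j))) (hδ : 0 < δ) {ι : Type*} [Fintype ι]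
    (z : ι → Fin 2 → L) (hz : ∀ j, nrm w (z j) = 1) (hc : Fintype.card ι < M) :
    ∃ i, ∀ j, δ / 2 ≤ w (wd (s i) (z j)) := by
  by_contra hcon
  push Not at hcon
  choose f hf using hcon
  obtain ⟨i, i', hii, hff⟩ := Fintype.exists_ne_map_eq_of_card_lt f (by simpa using hc)
  have h1 := hf i
  have h2 := hf i'
  rw [← hff] at h2
  have h3 := A2_tri w (hs i) (hs i') (hz (f i))
  have h4 := hsep i i' hii
  linarith

/-- A2 -/
theorem avoid_na {L : Type u} [Field L] (w : AbsoluteValue L ℝ) (hw : IsNonarchimedean w)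
    {M : ℕ} (s : Fin M → Fin 2 → L) (hs : ∀ i, nrm w (s i) = 1)
    (hsep : ∀ i j, i ≠ j → w (wd (s i) (s j)) = 1) {ι : Type*} [Fintype ι]
    (z : ι → Fin 2 → L) (hz : ∀ j, nrm w (z j) = 1) (hc : Fintype.card ι < M) :
    ∃ i, ∀ j, w (wd (s i) (z j)) = 1 := by
  by_contra hcon
  push Not at hcon
  choose f hf using hcon
  have hle : ∀ i j, w (wd (s i) (z j)) ≤ 1 := by
    intro i j
    have := A2_wd_le_na w hw (s i) (z j)
    rwa [hs, hz, one_mul] at this
  obtain ⟨i, i', hii, hff⟩ := Fintype.exists_ne_map_eq_of_card_lt f (by simpa using hc)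
  have h1 := lt_of_le_of_ne (hle i (f i)) (hf i)
  have h2 := lt_of_le_of_ne (hle i' (f i')) (hf i')
  rw [← hff] at h2
  have h3 := A2_tri_na w hw (hs i) (hs i') (hz (f i))
  rw [hsep i i' hii] at h3
  exact absurd h3 (not_le.2 (max_lt h1 h2))

end Pool.Agent.TH450.PC
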