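import Pool.Agent.TH450.PC.A1
import Pool.Agent.TH450.PC.A2
import Pool.Agent.TH450.PC.B1

/-! B2: bounds for `S`, the leading coefficient and `‖F x‖` (helper49) -/

set_option autoImplicit false

namespace Pool.Agent.TH450.PC

open Pool.Agent.H951R3.PB

open Real Filter Topology

universe u

variable {L : Type u} [Field L]

theorem B2_nrm_e0 (w : AbsoluteValue L ℝ) : nrm w (![1, 0] : Fin 2 → L) = 1 := by
  simp [nrm]

theorem B2_nrm_e1 (w : AbsoluteValue L ℝ) : nrm w (![0, 1] : Fin 2 → L) = 1 := by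
  simp [nrm]

theorem B2_prod_le (w : AbsoluteValue L ℝ) {D : ℕ} {x : Fin 2 → L} (hx : nrm w x = 1)
    {z : Fin D → Fin 2 → L} (hz : ∀ j, nrm w (z j) = 1) : ∏ j, w (wd x (z j)) ≤ 2 ^ D := by
  calc ∏ j, w (wd x (z j)) ≤ ∏ _j : Fin D, (2 : ℝ) := by
        apply Finset.prod_le_prod (fun _ _ => w.nonneg _)
        intro j _
        have := A2_wd_le w x (z j)
        rwa [hx, hz, one_mul, mul_one] at this
    _ = 2 ^ D := by simp

theorem B2_bdd {w : AbsoluteValue L ℝ} {F : (Fin 2 → L) → Fin 2 → L} {D : ℕ} {r : ℝ}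
    (h : Fib w F D r) :
    BddAbove (Set.range fun x : {x : Fin 2 → L // nrm w x = 1} => log (nrm w (F x.1))) := by
  obtain ⟨C0, z0, h0⟩ := h _ (B2_nrm_e0 w)
  obtain ⟨C1, z1, h1⟩ := h _ (B2_nrm_e1 w)
  refine ⟨log (max (w C0 * 2 ^ D) (w C1 * 2 ^ D)), ?_⟩
  rintro _ ⟨⟨x, hx⟩, rfl⟩
  have hx0 : x ≠ 0 := B1_ne_zero hx
  have hF : 0 < nrm w (F x) := B1_nrm_pos w (fib_ne_zero h hx0)
  apply log_le_log hF
  have e0 := h0.fac x
  have e1 := h1.fac x
  have f0 : wd ![1, 0] (F x) = F x 1 := by simp [wd]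
  have f1 : wd ![0, 1] (F x) = -F x 0 := by simp [wd]
  rw [f0] at e0
  rw [f1] at e1
  have g0 : w (F x 1) ≤ w C0 * 2 ^ D := by
    rw [e0, w.map_mul, map_prod]
    exact mul_le_mul_of_nonneg_left (B2_prod_le w hx h0.unit) (w.nonneg _)
  have g1 : w (F x 0) ≤ w C1 * 2 ^ D := by
    rw [← w.map_neg, e1, w.map_mul, map_prod]
    exact mul_le_mul_of_nonneg_left (B2_prod_le w hx h1.unit) (w.nonneg _)
  exact max_le (g1.trans (le_max_right _ _)) (g0.trans (le_max_left _ _))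

theorem B2_le {w : AbsoluteValue L ℝ} {F : (Fin 2 → L) → Fin 2 → L} {D : ℕ} {r : ℝ}
    (h : Fib w F D r) {x : Fin 2 → L} (hx : nrm w x = 1) : log (nrm w (F x)) ≤ Ssup w F :=
  le_ciSup (B2_bdd h) ⟨x, hx⟩

theorem B2_exists {w : AbsoluteValue L ℝ} {F : (Fin 2 → L) → Fin 2 → L} :
    ∃ x, nrm w x = 1 ∧ Ssup w F - 1 ≤ log (nrm w (F x)) := by
  have hne : Nonempty {x : Fin 2 → L // nrm w x = 1} := ⟨⟨_, B2_nrm_e0 w⟩⟩
  have h1 : Ssup w F - 1 < Ssup w F := by linarith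
  obtain ⟨⟨x, hx⟩, h2⟩ := exists_lt_of_lt_ciSup h1
  exact ⟨x, hx, h2.le⟩

theorem B2_lower {w : AbsoluteValue L ℝ} {F : (Fin 2 → L) → Fin 2 → L} {D : ℕ} {r : ℝ}
    (h : Fib w F D r) {B0 : ℝ}
    (h3 : ∀ u C z, nrm w u = 1 → FibAt w F D r u C z → log (w C) ≤ Ssup w F + B0)
    {x : Fin 2 → L} (hx : nrm w x = 1) :
    Ssup w F - tt w F D r - D * B0 ≤ log (nrm w (F x)) := by
  have hx0 : x ≠ 0 := B1_ne_zero hx
  have hFx : F x ≠ 0 := fib_ne_zero h hx0
  obtain ⟨k, hk⟩ := A2_exists_nrm w (F x)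
  have hpos : 0 < nrm w (F x) := B1_nrm_pos w hFx
  have hk0 : F x k ≠ 0 := by
    intro h0
    rw [h0, w.map_zero] at hk
    linarith
  have hu : nrm w ((F x k)⁻¹ • F x) = 1 := by
    rw [B1_nrm_smul, map_inv₀, hk]
    exact inv_mul_cancel₀ hpos.ne'
  obtain ⟨C, z, hf⟩ := h _ hu
  have hzero : C * ∏ j, wd x (z j) = 0 := by
    rw [← hf.fac x, B1_wd_smul_left]
    have : wd (F x) (F x) = 0 := by simp only [wd]; ring
    rw [this, mul_zero]
  have hprod : ∏ j, wd x (z j) = 0 := by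
    rcases mul_eq_zero.1 hzero with h0 | h0
    · exact absurd h0 hf.C_ne
    · exact h0
  obtain ⟨j, -, hj⟩ := Finset.prod_eq_zero_iff.1 hprod
  obtain ⟨a, ha⟩ := B1_parallel (B1_ne_zero (hf.unit j)) hj
  have hwa : w a = 1 := by
    have := hx
    rw [ha, B1_nrm_smul, hf.unit j, mul_one] at this
    exact this
  have hFz : nrm w (F x) = nrm w (F (z j)) := by
    rw [ha, fib_homog h, B1_nrm_smul, w.map_pow, hwa, one_pow, one_mul]
  have hres := hf.res
  rw [← Finset.add_sum_erase _ _ (Finset.mem_univ j)] at hres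
  have hsum : ∑ i ∈ Finset.univ.erase j, log (nrm w (F (z i))) ≤ ((D : ℝ) - 1) * Ssup w F := by
    calc ∑ i ∈ Finset.univ.erase j, log (nrm w (F (z i)))
        ≤ ∑ _i ∈ Finset.univ.erase j, Ssup w F :=
          Finset.sum_le_sum fun i _ => B2_le h (hf.unit i)
      _ = ((D : ℝ) - 1) * Ssup w F := by
          rw [Finset.sum_const, Finset.card_erase_of_mem (Finset.mem_univ j), nsmul_eq_mul,
            Finset.card_univ, Fintype.card_fin, Nat.cast_sub (by have := j.2; omega)]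
          simp
  have hC := h3 _ _ _ hu hf
  have hD0 : (0 : ℝ) ≤ D := Nat.cast_nonneg _
  have hCD : (D : ℝ) * log (w C) ≤ D * (Ssup w F + B0) := mul_le_mul_of_nonneg_left hC hD0
  rw [hFz]
  unfold tt
  nlinarith

/-- B2 -/
theorem fib_bounds (D : ℕ) (hD : 1 ≤ D) : ∃ B : ℝ, 0 ≤ B ∧ ∀ (L : Type u) [Field L]
    [IsAlgClosed L] (w : AbsoluteValue L ℝ) (F : (Fin 2 → L) → Fin 2 → L) (r : ℝ),
    Fib w F D r →
      (∀ x, nrm w x = 1 → log (nrm w (F x)) ≤ Ssup w F) ∧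
      (∃ x, nrm w x = 1 ∧ Ssup w F - 1 ≤ log (nrm w (F x))) ∧
      (∀ u C z, nrm w u = 1 → FibAt w F D r u C z → log (w C) ≤ Ssup w F + B) ∧
      (∀ x, nrm w x = 1 → Ssup w F - tt w F D r - B ≤ log (nrm w (F x))) := by
  obtain ⟨δ, hδ0, hδ1, hgrid⟩ := grid.{u} (D + 1)
  have hlog2 : 0 ≤ log 2 := log_nonneg (by norm_num)
  have hlogδ : log (δ / 2) ≤ 0 := log_nonpos (by linarith) (by linarith)
  set B0 : ℝ := log 2 - D * log (δ / 2) with hB0
  have hD0 : (1 : ℝ) ≤ D := by exact_mod_cast hD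
  have hB00 : 0 ≤ B0 := by nlinarith
  have hB1 : B0 ≤ D * B0 := by nlinarith
  refine ⟨D * B0, by positivity, ?_⟩
  intro L _ _ w F r h
  have h3 : ∀ u C z, nrm w u = 1 → FibAt w F D r u C z → log (w C) ≤ Ssup w F + B0 := by
    intro u C z hu hf
    obtain ⟨s, hs1, hs2⟩ := hgrid L w
    obtain ⟨i, hi⟩ := avoid w s hs1 hs2 hδ0 z hf.unit (by simp)
    have hC0 : 0 < w C := w.pos hf.C_ne
    have h4 : w C * (δ / 2) ^ D ≤ 2 * nrm w (F (s i)) := by
      calc w C * (δ / 2) ^ D = w C * ∏ _j : Fin D, (δ / 2) := by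
            rw [Finset.prod_const, Finset.card_univ, Fintype.card_fin]
        _ ≤ w C * ∏ j, w (wd (s i) (z j)) := by
            refine mul_le_mul_of_nonneg_left ?_ hC0.le
            exact Finset.prod_le_prod (fun _ _ => by positivity) (fun j _ => hi j)
        _ = w (wd u (F (s i))) := by rw [hf.fac, w.map_mul, map_prod]
        _ ≤ 2 * (nrm w u * nrm w (F (s i))) := A2_wd_le w _ _
        _ = 2 * nrm w (F (s i)) := by rw [hu, one_mul]
    have hFs : 0 < nrm w (F (s i)) :=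
      B1_nrm_pos w (fib_ne_zero h (B1_ne_zero (hs1 i)))
    have h5 := log_le_log (by positivity) h4
    rw [log_mul hC0.ne' (by positivity), log_pow, log_mul (by norm_num) hFs.ne'] at h5
    have h6 := B2_le h (hs1 i)
    rw [hB0]
    linarith
  refine ⟨fun x hx => B2_le h hx, B2_exists, ?_, ?_⟩
  · intro u C z hu hf
    exact (h3 u C z hu hf).trans (by linarith)
  · intro x hx
    exact B2_lower h h3 hx

/-- B2: exact version at nonarchimedean absolute values -/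
theorem fib_bounds_na {L : Type u} [Field L] [IsAlgClosed L]
    (w : AbsoluteValue L ℝ) (hw : IsNonarchimedean w) {F : (Fin 2 → L) → Fin 2 → L} {D : ℕ}
    (hD : 1 ≤ D) {r : ℝ} (h : Fib w F D r) :
    (∀ u C z, nrm w u = 1 → FibAt w F D r u C z → log (w C) ≤ Ssup w F) ∧
      (∀ x, nrm w x = 1 → Ssup w F - tt w F D r ≤ log (nrm w (F x))) := by
  have h3 : ∀ u C z, nrm w u = 1 → FibAt w F D r u C z → log (w C) ≤ Ssup w F := by
    intro u C z hu hf
    obtain ⟨s, hs1, hs2⟩ := grid_na (D + 1) w hw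
    obtain ⟨i, hi⟩ := avoid_na w hw s hs1 hs2 z hf.unit (by simp)
    have h4 : w C ≤ nrm w (F (s i)) := by
      calc w C = w C * ∏ j, w (wd (s i) (z j)) := by
            rw [Finset.prod_eq_one (fun j _ => hi j), mul_one]
        _ = w (wd u (F (s i))) := by rw [hf.fac, w.map_mul, map_prod]
        _ ≤ nrm w u * nrm w (F (s i)) := A2_wd_le_na w hw _ _
        _ = nrm w (F (s i)) := by rw [hu, one_mul]
    exact (log_le_log (w.pos hf.C_ne) h4).trans (B2_le h (hs1 i))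
  refine ⟨h3, fun x hx => ?_⟩
  have := B2_lower h (B0 := 0) (fun u C z hu hf => by simpa using h3 u C z hu hf) hx
  simpa using this

end Pool.Agent.TH450.PC
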