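import Pool.Agent.H951R3.PB.Defs
import Pool.Agent.TH450.PC.A1
import Pool.Agent.TH450.PC.A2
import Pool.Agent.TH450.PC.B2
import Pool.Agent.TH450.PC.B1

/-!
# B4: points in general position
-/

set_option autoImplicit false

namespace Pool.Agent.TH450.PC

open Pool.Agent.H951R3.PB

open Real Filter Topology

universe u

section aux

variable {L : Type u} [Field L] {w : AbsoluteValue L ℝ}

theorem B4_wd_le (x y : Fin 2 → L) : w (wd x y) ≤ 2 * (nrm w x * nrm w y) := by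
  have h0 : w (x 0) ≤ nrm w x := le_max_left _ _
  have h1 : w (x 1) ≤ nrm w x := le_max_right _ _
  have h2 : w (y 0) ≤ nrm w y := le_max_left _ _
  have h3 : w (y 1) ≤ nrm w y := le_max_right _ _
  have hx : 0 ≤ nrm w x := (w.nonneg _).trans h0
  have hy : 0 ≤ nrm w y := (w.nonneg _).trans h2
  calc w (wd x y) ≤ w (x 0 * y 1) + w (x 1 * y 0) := by
        rw [wd, sub_eq_add_neg]
        refine (w.add_le _ _).trans (le_of_eq ?_)
        rw [w.map_neg]
    _ = w (x 0) * w (y 1) + w (x 1) * w (y 0) := by rw [w.map_mul, w.map_mul]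
    _ ≤ nrm w x * nrm w y + nrm w x * nrm w y :=
        add_le_add (mul_le_mul h0 h3 (w.nonneg _) hx) (mul_le_mul h1 h2 (w.nonneg _) hx)
    _ = _ := by ring

theorem B4_nrm_pos {y : Fin 2 → L} (hy : y ≠ 0) : 0 < nrm w y := by
  by_contra hc
  rw [not_lt] at hc
  apply hy
  have h0 : w (y 0) ≤ 0 := (le_max_left _ _).trans hc
  have h1 : w (y 1) ≤ 0 := (le_max_right _ _).trans hc
  ext i
  fin_cases i
  · exact w.eq_zero.1 (le_antisymm h0 (w.nonneg _))
  · exact w.eq_zero.1 (le_antisymm h1 (w.nonneg _))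

theorem B4_nrm_smul (a : L) (y : Fin 2 → L) : nrm w (a • y) = w a * nrm w y := by
  simp only [nrm, Pi.smul_apply, smul_eq_mul, w.map_mul]
  rw [mul_max_of_nonneg _ _ (w.nonneg a)]

theorem B4_wd_smul (a : L) (x y : Fin 2 → L) : wd x (a • y) = a * wd x y := by
  simp only [wd, Pi.smul_apply, smul_eq_mul]
  ring

/-- the direction of a vector -/
theorem B4_dir {y : Fin 2 → L} (hy : y ≠ 0) : ∃ (κ : L) (v : Fin 2 → L), y = κ • v ∧
    nrm w v = 1 ∧ w κ = nrm w y := by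
  have hpos := B4_nrm_pos (w := w) hy
  have key : ∀ κ : L, w κ = nrm w y → ∃ (κ : L) (v : Fin 2 → L), y = κ • v ∧
      nrm w v = 1 ∧ w κ = nrm w y := by
    intro κ hκ
    have hκ0 : κ ≠ 0 := by
      rintro rfl
      rw [w.map_zero] at hκ
      linarith
    refine ⟨κ, κ⁻¹ • y, ?_, ?_, hκ⟩
    · rw [smul_smul, mul_inv_cancel₀ hκ0, one_smul]
    · rw [B4_nrm_smul, map_inv₀, hκ, inv_mul_cancel₀ hpos.ne']
  rcases le_total (w (y 0)) (w (y 1)) with h | h
  · exact key (y 1) (by rw [nrm, max_eq_right h])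
  · exact key (y 0) (by rw [nrm, max_eq_left h])

/-- `e₀`, `e₁` detect the norm -/
theorem B4_detect (y : Fin 2 → L) : ∃ e : Fin 2 → L, nrm w e = 1 ∧ w (wd e y) = nrm w y ∧
    ∀ x, w (wd e x) ≤ nrm w x := by
  rcases le_total (w (y 0)) (w (y 1)) with h | h
  · refine ⟨![1, 0], by simp [nrm], ?_, fun x => ?_⟩
    · simp [wd, nrm, max_eq_right h]
    · simp [wd, nrm]
  · refine ⟨![0, 1], by simp [nrm], ?_, fun x => ?_⟩
    · simp [wd, nrm, max_eq_left h]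
    · simp [wd, nrm]

theorem B4_prod_ge {D : ℕ} {δ : ℝ} (hδ : 0 ≤ δ) (f : Fin D → ℝ) (hf : ∀ j, δ ≤ f j) :
    δ ^ D ≤ ∏ j, f j := by
  calc δ ^ D = ∏ _j : Fin D, δ := by simp
    _ ≤ ∏ j, f j := Finset.prod_le_prod (fun _ _ => hδ) fun j _ => hf j

theorem B4_prod_le {D : ℕ} {b : ℝ} (f : Fin D → ℝ) (h0 : ∀ j, 0 ≤ f j) (hf : ∀ j, f j ≤ b) :
    ∏ j, f j ≤ b ^ D := by
  calc ∏ j, f j ≤ ∏ _j : Fin D, b := Finset.prod_le_prod (fun j _ => h0 j) fun j _ => hf j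
    _ = b ^ D := by simp

end aux

/-- the induction hypothesis -/
def B4_IH (d k P : ℕ) (c : ℝ) : Prop := ∀ (L : Type u) [Field L]
    [IsAlgClosed L] (w : AbsoluteValue L ℝ) (F : (Fin 2 → L) → Fin 2 → L) (r : ℝ),
    Fib w F d r → ∃ u : Fin P → Fin 2 → L, (∀ a, nrm w (u a) = 1) ∧
      (∀ a, ∀ i ≤ k, c * exp (Ssup w (F^[i])) ≤ nrm w (F^[i] (u a))) ∧
      (∀ a, ∀ i ≤ k, ∃ C z, FibAt w (F^[i]) (d ^ i) (kap d i * r) (u a) C z ∧
        c * exp (Ssup w (F^[i])) ≤ w C) ∧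
      ∀ a b, a ≠ b → Gen w F k c (u a) (u b)

theorem B4_step (d : ℕ) (hd : 2 ≤ d) (k P : ℕ) (c : ℝ) (hc : 0 < c)
    (ih : B4_IH.{u} d k P c) : ∃ c' : ℝ, 0 < c' ∧ B4_IH.{u} d k (P + 1) c' := by
  set ι := Σ i : Fin (k + 1), Option (Fin P) × Option (Fin (d ^ (i : ℕ))) with hι
  obtain ⟨δ, hδ, hδ1, hgrid⟩ := grid.{u} (Fintype.card ι + 1)
  set q : ℝ := exp (-1) * (δ / 4) ^ (d ^ k + 1) with hq
  have hq0 : 0 < q := by positivity
  have hδ4 : δ / 4 ≤ 1 := by linarith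
  have hpow : ∀ i ≤ k, (δ / 4) ^ (d ^ k + 1) ≤ (δ / 4) ^ (d ^ i) * (δ / 4) := by
    intro i hi
    rw [← pow_succ]
    refine pow_le_pow_of_le_one (by positivity) hδ4 ?_
    have : d ^ i ≤ d ^ k := Nat.pow_le_pow_right (by omega) hi
    omega
  have he1 : exp (-1) ≤ 1 := exp_le_one_iff.2 (by norm_num)
  have hq1 : q ≤ 1 := by
    calc q ≤ 1 * 1 := mul_le_mul he1 (pow_le_one₀ (by positivity) hδ4) (by positivity) zero_le_one
      _ = 1 := one_mul 1
  refine ⟨min c 1 * q, by positivity, ?_⟩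
  intro L _ _ w F r hF
  have hcq1 : min c 1 * q ≤ c := by
    calc min c 1 * q ≤ c * 1 := mul_le_mul (min_le_left _ _) hq1 hq0.le hc.le
      _ = c := mul_one c
  have hcq2 : min c 1 * q ≤ q := by
    calc min c 1 * q ≤ 1 * q := mul_le_mul_of_nonneg_right (min_le_right _ _) hq0.le
      _ = q := one_mul q
  have hcq3 : min c 1 * q ≤ c * q := mul_le_mul_of_nonneg_right (min_le_left _ _) hq0.le
  obtain ⟨u, hu1, hu2, hu3, hu4⟩ := ih L w F r hF
  obtain ⟨s, hs1, hs2⟩ := hgrid L w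
  have hit : ∀ i, Fib w (F^[i]) (d ^ i) (kap d i * r) := fun i => fib_iter hF i
  have hne : ∀ i (x : Fin 2 → L), nrm w x = 1 → F^[i] x ≠ 0 := by
    intro i x hx
    refine fib_ne_zero (hit i) ?_
    rintro rfl
    simp [nrm] at hx
  -- the almost maximal vectors
  have hstar : ∀ i : ℕ, ∃ x, nrm w x = 1 ∧ exp (Ssup w (F^[i]) - 1) ≤ nrm w (F^[i] x) := by
    intro i
    obtain ⟨B, -, hB⟩ := fib_bounds.{u} (d ^ i) (Nat.one_le_pow _ _ (by omega))
    obtain ⟨-, ⟨x, hx1, hx2⟩, -, -⟩ := hB L w (F^[i]) _ (hit i)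
    refine ⟨x, hx1, ?_⟩
    rw [← Real.le_log_iff_exp_le (B4_nrm_pos (hne i x hx1))]
    exact hx2
  choose xs hxs1 hxs2 using hstar
  -- the unit vectors detecting them
  have hdet : ∀ i : ℕ, ∃ e : Fin 2 → L, nrm w e = 1 ∧ w (wd e (F^[i] (xs i))) =
      nrm w (F^[i] (xs i)) ∧ ∀ x, w (wd e x) ≤ nrm w x := fun i => B4_detect _
  choose es hes1 hes2 hes3 using hdet
  have hfe : ∀ i : ℕ, ∃ (C : L) (z : Fin (d ^ i) → Fin 2 → L),
      FibAt w (F^[i]) (d ^ i) (kap d i * r) (es i) C z := fun i => hit i _ (hes1 i)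
  choose Ce ze hze using hfe
  have hdir : ∀ (i : ℕ) (x : Fin 2 → L), nrm w x = 1 → ∃ (κ : L) (v : Fin 2 → L),
      F^[i] x = κ • v ∧ nrm w v = 1 ∧ w κ = nrm w (F^[i] x) := fun i x hx => B4_dir (hne i x hx)
  have hdx : ∀ i : ℕ, ∃ (v : Fin 2 → L), nrm w v = 1 ∧ ∃ κ : L, F^[i] (xs i) = κ • v ∧
      w κ = nrm w (F^[i] (xs i)) := by
    intro i
    obtain ⟨κ, v, h1, h2, h3⟩ := hdir i (xs i) (hxs1 i)
    exact ⟨v, h2, κ, h1, h3⟩
  choose vx hvx1 hvx2 using hdx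
  have hdu : ∀ (i : ℕ) (a : Fin P), ∃ (v : Fin 2 → L), nrm w v = 1 ∧ ∃ κ : L,
      F^[i] (u a) = κ • v ∧ w κ = nrm w (F^[i] (u a)) := by
    intro i a
    obtain ⟨κ, v, h1, h2, h3⟩ := hdir i (u a) (hu1 a)
    exact ⟨v, h2, κ, h1, h3⟩
  choose vu hvu1 hvu2 using hdu
  have hfu : ∀ (a : Fin P) (i : Fin (k + 1)), ∃ (z : Fin (d ^ (i : ℕ)) → Fin 2 → L) (C : L),
      FibAt w (F^[(i : ℕ)]) (d ^ (i : ℕ)) (kap d i * r) (u a) C z ∧
        c * exp (Ssup w (F^[(i : ℕ)])) ≤ w C := by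
    intro a i
    obtain ⟨C, z, h1, h2⟩ := hu3 a i (by omega)
    exact ⟨z, C, h1, h2⟩
  choose zu hzu using hfu
  -- the vectors to be avoided
  let Z : ι → Fin 2 → L := fun t => match t with
    | ⟨i, (none, none)⟩ => vx i
    | ⟨i, (none, some j)⟩ => ze i j
    | ⟨i, (some a, none)⟩ => vu i a
    | ⟨i, (some a, some j)⟩ => zu a i j
  have hZ : ∀ t, nrm w (Z t) = 1 := by
    rintro ⟨i, (_ | a), (_ | j)⟩
    · exact hvx1 i
    · exact (hze i).unit j
    · exact hvu1 i a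
    · exact (hzu a i).choose_spec.1.unit j
  obtain ⟨m, hm⟩ := avoid w s hs1 hs2 hδ Z hZ (by omega)
  set v := s m with hv
  have hv1 : nrm w v = 1 := hs1 m
  have hvx : ∀ i : Fin (k + 1), δ / 2 ≤ w (wd v (vx i)) := fun i => hm ⟨i, (none, none)⟩
  have hvz : ∀ (i : Fin (k + 1)) j, δ / 2 ≤ w (wd v (ze i j)) := fun i j => hm ⟨i, (none, some j)⟩
  have hvu : ∀ (i : Fin (k + 1)) a, δ / 2 ≤ w (wd v (vu i a)) := fun i a => hm ⟨i, (some a, none)⟩
  have hvzu : ∀ (i : Fin (k + 1)) a j, δ / 2 ≤ w (wd v (zu a i j)) :=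
    fun i a j => hm ⟨i, (some a, some j)⟩
  -- numerical facts
  have hnum : ∀ i ≤ k, q ≤ exp (-1) * ((1 / 2) ^ (d ^ i) * (δ / 2) ^ (d ^ i)) := by
    intro i hi
    rw [hq]
    refine mul_le_mul_of_nonneg_left ((hpow i hi).trans ?_) (exp_pos _).le
    rw [← mul_pow]
    calc (δ / 4) ^ (d ^ i) * (δ / 4) ≤ (δ / 4) ^ (d ^ i) * 1 :=
          mul_le_mul_of_nonneg_left hδ4 (by positivity)
      _ = (1 / 2 * (δ / 2)) ^ (d ^ i) := by rw [mul_one]; congr 1; ring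
  have hnum2 : ∀ i ≤ k, q ≤ exp (-1) * ((1 / 2) ^ (d ^ i) * (δ / 2)) := by
    intro i hi
    rw [hq]
    refine mul_le_mul_of_nonneg_left ((hpow i hi).trans ?_) (exp_pos _).le
    refine mul_le_mul (pow_le_pow_left₀ (by positivity) (by linarith) _) (by linarith)
      (by positivity) (by positivity)
  have hnum3 : ∀ i ≤ k, q ≤ (δ / 2) ^ (d ^ i) := by
    intro i hi
    refine (hnum i hi).trans ?_
    calc exp (-1) * ((1 / 2) ^ (d ^ i) * (δ / 2) ^ (d ^ i))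
        ≤ 1 * (1 * (δ / 2) ^ (d ^ i)) := by
          refine mul_le_mul he1 (mul_le_mul_of_nonneg_right
            (pow_le_one₀ (by norm_num) (by norm_num)) (by positivity)) (by positivity) zero_le_one
      _ = _ := by ring
  have hnum4 : q ≤ δ / 2 := by
    refine (hnum2 0 (Nat.zero_le _)).trans ?_
    calc exp (-1) * ((1 / 2) ^ (d ^ 0) * (δ / 2)) ≤ 1 * (1 * (δ / 2)) := by
          refine mul_le_mul he1 (mul_le_mul_of_nonneg_right
            (pow_le_one₀ (by norm_num) (by norm_num)) (by positivity)) (by positivity) zero_le_one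
      _ = _ := by ring
  have hexp : ∀ i : ℕ, exp (Ssup w (F^[i]) - 1) = exp (-1) * exp (Ssup w (F^[i])) := by
    intro i
    rw [← exp_add]; congr 1; ring
  -- (1) the norm of the images of `v`
  have g1 : ∀ i ≤ k, q * exp (Ssup w (F^[i])) ≤ nrm w (F^[i] v) := by
    intro i hi
    have hC : (1 / 2) ^ (d ^ i) * exp (Ssup w (F^[i]) - 1) ≤ w (Ce i) := by
      have h1 := (hze i).fac (xs i)
      have h2 : w (wd (es i) (F^[i] (xs i))) = w (Ce i) * ∏ j, w (wd (xs i) (ze i j)) := by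
        rw [h1, w.map_mul, map_prod]
      have h3 : ∏ j, w (wd (xs i) (ze i j)) ≤ 2 ^ (d ^ i) := by
        refine B4_prod_le _ (fun j => w.nonneg _) fun j => ?_
        have := B4_wd_le (w := w) (xs i) (ze i j)
        rw [hxs1 i, (hze i).unit j] at this
        linarith
      have h4 : exp (Ssup w (F^[i]) - 1) ≤ w (Ce i) * 2 ^ (d ^ i) := by
        calc exp (Ssup w (F^[i]) - 1) ≤ nrm w (F^[i] (xs i)) := hxs2 i
          _ = w (Ce i) * ∏ j, w (wd (xs i) (ze i j)) := by rw [← hes2 i, h2]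
          _ ≤ w (Ce i) * 2 ^ (d ^ i) := mul_le_mul_of_nonneg_left h3 (w.nonneg _)
      rw [one_div, inv_pow, inv_mul_le_iff₀ (by positivity), mul_comm]
      exact h4
    have h5 := (hze i).fac v
    have h6 : w (wd (es i) (F^[i] v)) = w (Ce i) * ∏ j, w (wd v (ze i j)) := by
      rw [h5, w.map_mul, map_prod]
    have h7 : (δ / 2) ^ (d ^ i) ≤ ∏ j, w (wd v (ze i j)) :=
      B4_prod_ge (by positivity) _ fun j => hvz ⟨i, by omega⟩ j
    calc q * exp (Ssup w (F^[i]))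
        ≤ (exp (-1) * ((1 / 2) ^ (d ^ i) * (δ / 2) ^ (d ^ i))) * exp (Ssup w (F^[i])) :=
          mul_le_mul_of_nonneg_right (hnum i hi) (exp_pos _).le
      _ = ((1 / 2) ^ (d ^ i) * exp (Ssup w (F^[i]) - 1)) * (δ / 2) ^ (d ^ i) := by
          rw [hexp]; ring
      _ ≤ w (Ce i) * ∏ j, w (wd v (ze i j)) :=
          mul_le_mul hC h7 (by positivity) (w.nonneg _)
      _ = w (wd (es i) (F^[i] v)) := h6.symm
      _ ≤ nrm w (F^[i] v) := hes3 i _
  -- (2) the fibre data over `v`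
  have g2 : ∀ i ≤ k, ∃ C z, FibAt w (F^[i]) (d ^ i) (kap d i * r) v C z ∧
      q * exp (Ssup w (F^[i])) ≤ w C := by
    intro i hi
    obtain ⟨C, z, hz⟩ := hit i v hv1
    refine ⟨C, z, hz, ?_⟩
    obtain ⟨κ, h1, h2⟩ := hvx2 i
    have h3 : w (wd v (F^[i] (xs i))) = w C * ∏ j, w (wd (xs i) (z j)) := by
      rw [hz.fac (xs i), w.map_mul, map_prod]
    have h4 : ∏ j, w (wd (xs i) (z j)) ≤ 2 ^ (d ^ i) := by
      refine B4_prod_le _ (fun j => w.nonneg _) fun j => ?_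
      have := B4_wd_le (w := w) (xs i) (z j)
      rw [hxs1 i, hz.unit j] at this
      linarith
    have h5 : nrm w (F^[i] (xs i)) * (δ / 2) ≤ w (wd v (F^[i] (xs i))) := by
      have : wd v (F^[i] (xs i)) = κ * wd v (vx i) := by rw [h1, B4_wd_smul]
      rw [this, w.map_mul, h2]
      exact mul_le_mul_of_nonneg_left (hvx ⟨i, by omega⟩) (by rw [← h2]; exact w.nonneg _)
    have h6 : exp (Ssup w (F^[i]) - 1) * (δ / 2) ≤ w C * 2 ^ (d ^ i) := by
      calc exp (Ssup w (F^[i]) - 1) * (δ / 2) ≤ nrm w (F^[i] (xs i)) * (δ / 2) :=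
            mul_le_mul_of_nonneg_right (hxs2 i) (by positivity)
        _ ≤ w (wd v (F^[i] (xs i))) := h5
        _ = w C * ∏ j, w (wd (xs i) (z j)) := h3
        _ ≤ _ := mul_le_mul_of_nonneg_left h4 (w.nonneg _)
    calc q * exp (Ssup w (F^[i]))
        ≤ (exp (-1) * ((1 / 2) ^ (d ^ i) * (δ / 2))) * exp (Ssup w (F^[i])) :=
          mul_le_mul_of_nonneg_right (hnum2 i hi) (exp_pos _).le
      _ = (1 / 2) ^ (d ^ i) * (exp (Ssup w (F^[i]) - 1) * (δ / 2)) := by rw [hexp]; ring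
      _ ≤ (1 / 2) ^ (d ^ i) * (w C * 2 ^ (d ^ i)) :=
          mul_le_mul_of_nonneg_left h6 (by positivity)
      _ = w C := by
          rw [mul_left_comm, ← mul_pow]; norm_num
  -- (3), (4)
  have g3 : ∀ a, ∀ i ≤ k, c * q * exp (Ssup w (F^[i])) ≤ w (wd (u a) (F^[i] v)) := by
    intro a i hi
    obtain ⟨C, hz, hC⟩ := hzu a ⟨i, by omega⟩
    have h3 : w (wd (u a) (F^[i] v)) = w C * ∏ j, w (wd v (zu a ⟨i, by omega⟩ j)) := by
      rw [hz.fac v, w.map_mul, map_prod]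
    have h4 : (δ / 2) ^ (d ^ i) ≤ ∏ j, w (wd v (zu a ⟨i, by omega⟩ j)) :=
      B4_prod_ge (by positivity) _ fun j => hvzu ⟨i, by omega⟩ a j
    have h5 := mul_le_mul hC ((hnum3 i hi).trans h4) hq0.le (w.nonneg C)
    have h6 : c * q * exp (Ssup w (F^[i])) = (c * exp (Ssup w (F^[i]))) * q := by ring
    rw [h3, h6]
    exact h5
  have g4 : ∀ a, ∀ i ≤ k, c * q * exp (Ssup w (F^[i])) ≤ w (wd v (F^[i] (u a))) := by
    intro a i hi
    obtain ⟨κ, h1, h2⟩ := hvu2 i a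
    have h3 : wd v (F^[i] (u a)) = κ * wd v (vu i a) := by rw [h1, B4_wd_smul]
    rw [h3, w.map_mul, h2]
    calc c * q * exp (Ssup w (F^[i])) = (c * exp (Ssup w (F^[i]))) * q := by ring
      _ ≤ nrm w (F^[i] (u a)) * w (wd v (vu i a)) :=
        mul_le_mul (hu2 a i hi) (hnum4.trans (hvu ⟨i, by omega⟩ a)) hq0.le
          (by rw [← h2]; exact w.nonneg _)
  have hmono : ∀ {a b : ℝ} (i : ℕ), a ≤ b → a * exp (Ssup w (F^[i])) ≤ b * exp (Ssup w (F^[i])) :=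
    fun i hab => mul_le_mul_of_nonneg_right hab (exp_pos _).le
  refine ⟨Fin.cons v u, ?_, ?_, ?_, ?_⟩
  · intro a
    refine Fin.cases ?_ (fun a => ?_) a
    · simpa using hv1
    · simpa using hu1 a
  · intro a
    refine Fin.cases ?_ (fun a => ?_) a
    · intro i hi
      simpa using (hmono i hcq2).trans (g1 i hi)
    · intro i hi
      simpa using (hmono i hcq1).trans (hu2 a i hi)
  · intro a
    refine Fin.cases ?_ (fun a => ?_) a
    · intro i hi
      obtain ⟨C, z, h1, h2⟩ := g2 i hi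
      exact ⟨C, z, by simpa using h1, (hmono i hcq2).trans h2⟩
    · intro i hi
      obtain ⟨C, z, h1, h2⟩ := hu3 a i hi
      exact ⟨C, z, by simpa using h1, (hmono i hcq1).trans h2⟩
  · intro a b
    refine Fin.cases ?_ (fun a => ?_) a <;> refine Fin.cases ?_ (fun b => ?_) b
    · intro h; exact absurd rfl h
    · intro _ i hi
      simp only [Fin.cons_zero, Fin.cons_succ]
      exact ⟨(hmono i hcq3).trans (g4 b i hi), (hmono i hcq3).trans (g3 b i hi)⟩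
    · intro _ i hi
      simp only [Fin.cons_zero, Fin.cons_succ]
      exact ⟨(hmono i hcq3).trans (g3 a i hi), (hmono i hcq3).trans (g4 a i hi)⟩
    · intro hab i hi
      simp only [Fin.cons_succ]
      have hab' : a ≠ b := fun h => hab (by rw [h])
      obtain ⟨h1, h2⟩ := hu4 a b hab' i hi
      exact ⟨(hmono i hcq1).trans h1, (hmono i hcq1).trans h2⟩

/-- B4: points in general position -/
theorem generic (d : ℕ) (hd : 2 ≤ d) (k P : ℕ) : ∃ c : ℝ, 0 < c ∧ ∀ (L : Type u) [Field L]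
    [IsAlgClosed L] (w : AbsoluteValue L ℝ) (F : (Fin 2 → L) → Fin 2 → L) (r : ℝ),
    Fib w F d r → ∃ u : Fin P → Fin 2 → L, (∀ a, nrm w (u a) = 1) ∧
      ∀ a b, a ≠ b → Gen w F k c (u a) (u b) := by
  have key : ∃ c : ℝ, 0 < c ∧ B4_IH.{u} d k P c := by
    induction P with
    | zero =>
      refine ⟨1, one_pos, fun L _ _ w F r hF => ⟨fun a => a.elim0, ?_, ?_, ?_, ?_⟩⟩
      · exact fun a => a.elim0
      · exact fun a => a.elim0
      · exact fun a => a.elim0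
      · exact fun a => a.elim0
    | succ P ih =>
      obtain ⟨c, hc, h⟩ := ih
      exact B4_step d hd k P c hc h
  obtain ⟨c, hc, h⟩ := key
  refine ⟨c, hc, fun L _ _ w F r hF => ?_⟩
  obtain ⟨u, h1, -, -, h4⟩ := h L w F r hF
  exact ⟨u, h1, h4⟩

end Pool.Agent.TH450.PC
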