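import Pool.Agent.H951R3.PB.Defs
import Pool.Agent.TH450.PC.B1
import Pool.Agent.TH450.PC.B4
import Pool.Agent.TH450.PC.C1
import Pool.Agent.TH450.PC.C2

/-!
# C3: almost positivity of the energies (helper686)
-/

set_option autoImplicit false

namespace Pool.Agent.TH450.PC

open Pool.Agent.H951R3.PB

open Real Filter Topology

universe u

/-- the average of a function of two coordinates over all functions -/
theorem C3_avg {A : Type*} [Fintype A] [DecidableEq A] {n : ℕ} (hn : 0 < n) (a b : A)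
    (hab : a ≠ b) (g : Fin n → Fin n → ℝ) :
    ∑ ω : A → Fin n, g (ω a) (ω b) =
      (n : ℝ) ^ (Fintype.card A) * ((∑ x, ∑ y, g x y) / ((n : ℝ) * n)) := by
  classical
  have hn0 : (n : ℝ) ≠ 0 := by exact_mod_cast hn.ne'
  have key : ∀ x0 y0 : Fin n, ∑ ω : A → Fin n,
      ((if ω a = x0 then (1 : ℝ) else 0) * (if ω b = y0 then (1 : ℝ) else 0)) =
        (n : ℝ) ^ (Fintype.card A) / ((n : ℝ) * n) := by
    intro x0 y0
    let f : A → Fin n → ℝ := fun c t =>
      (if c = a then (if t = x0 then (1 : ℝ) else 0) else 1) *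
        (if c = b then (if t = y0 then (1 : ℝ) else 0) else 1)
    have h1 : ∀ ω : A → Fin n, ∏ c, f c (ω c) =
        (if ω a = x0 then (1 : ℝ) else 0) * (if ω b = y0 then (1 : ℝ) else 0) := by
      intro ω
      simp only [f]
      rw [Finset.prod_mul_distrib]
      congr 1
      · rw [Finset.prod_ite_eq' Finset.univ a (fun c => if ω c = x0 then (1 : ℝ) else 0)]
        simp
      · rw [Finset.prod_ite_eq' Finset.univ b (fun c => if ω c = y0 then (1 : ℝ) else 0)]
        simp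
    have h2 : ∏ c, ∑ t, f c t = (n : ℝ) ^ (Fintype.card A) / ((n : ℝ) * n) := by
      have h3 : ∀ c, ∑ t, f c t = (n : ℝ) * ((if c = a then (n : ℝ)⁻¹ else 1) *
          (if c = b then (n : ℝ)⁻¹ else 1)) := by
        intro c
        simp only [f]
        by_cases h1 : c = a
        · have h2 : c ≠ b := fun h => hab (h1.symm.trans h)
          simp [h1, hab, hn0]
        · by_cases h2 : c = b
          · simp [h2, hab.symm, hn0]
          · simp [h1, h2]
      rw [Finset.prod_congr rfl (fun c _ => h3 c), Finset.prod_mul_distrib,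
        Finset.prod_mul_distrib]
      rw [Finset.prod_ite_eq' Finset.univ a (fun _ => (n : ℝ)⁻¹),
        Finset.prod_ite_eq' Finset.univ b (fun _ => (n : ℝ)⁻¹)]
      simp only [Finset.mem_univ, if_true, Finset.prod_const, Finset.card_univ]
      field_simp
    rw [← h2, Finset.prod_univ_sum]
    simp only [Fintype.piFinset_univ]
    exact Finset.sum_congr rfl (fun ω _ => (h1 ω).symm)
  have hexp : ∀ ω : A → Fin n, g (ω a) (ω b) = ∑ x0, ∑ y0, g x0 y0 *
      ((if ω a = x0 then (1 : ℝ) else 0) * (if ω b = y0 then (1 : ℝ) else 0)) := by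
    intro ω
    rw [Finset.sum_eq_single (ω a)]
    · rw [Finset.sum_eq_single (ω b)]
      · simp
      · intro y _ hy
        simp [hy.symm]
      · simp
    · intro x _ hx
      apply Finset.sum_eq_zero
      intro y _
      simp [hx.symm]
    · simp
  calc ∑ ω : A → Fin n, g (ω a) (ω b)
      = ∑ ω : A → Fin n, ∑ x0, ∑ y0, g x0 y0 *
        ((if ω a = x0 then (1 : ℝ) else 0) * (if ω b = y0 then (1 : ℝ) else 0)) :=
        Finset.sum_congr rfl (fun ω _ => hexp ω)
    _ = ∑ x0, ∑ y0, ∑ ω : A → Fin n, g x0 y0 *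
        ((if ω a = x0 then (1 : ℝ) else 0) * (if ω b = y0 then (1 : ℝ) else 0)) := by
        rw [Finset.sum_comm]
        refine Finset.sum_congr rfl (fun x0 _ => ?_)
        rw [Finset.sum_comm]
    _ = ∑ x0, ∑ y0, g x0 y0 * ((n : ℝ) ^ (Fintype.card A) / ((n : ℝ) * n)) := by
        refine Finset.sum_congr rfl (fun x0 _ => Finset.sum_congr rfl (fun y0 _ => ?_))
        rw [← Finset.mul_sum, key]
    _ = _ := by
        simp_rw [← Finset.sum_mul]
        ring

/-- reduction of the fibres -/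
def C3_red {d k i : ℕ} (h : i ≤ k) (x : Fin (d ^ k)) : Fin (d ^ i) :=
  (finProdFinEquiv.symm (Fin.cast (by rw [← pow_add, Nat.sub_add_cancel h] :
    d ^ k = d ^ (k - i) * d ^ i) x)).2

theorem C3_red_sum {d k i : ℕ} (hd : 0 < d) (h : i ≤ k) (f : Fin (d ^ i) → ℝ) :
    (∑ x : Fin (d ^ k), f (C3_red h x)) / (d : ℝ) ^ k = (∑ y, f y) / (d : ℝ) ^ i := by
  have hd0 : (d : ℝ) ≠ 0 := by exact_mod_cast hd.ne'
  have e : d ^ k = d ^ (k - i) * d ^ i := by rw [← pow_add, Nat.sub_add_cancel h]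
  have h1 : ∑ x : Fin (d ^ k), f (C3_red h x) = (d : ℝ) ^ (k - i) * ∑ y, f y := by
    have h2 : ∑ x : Fin (d ^ k), f (C3_red h x) =
        ∑ x : Fin (d ^ (k - i) * d ^ i), f (finProdFinEquiv.symm x).2 := by
      exact Fintype.sum_equiv (finCongr e) _ _ (fun x => rfl)
    rw [h2, ← finProdFinEquiv.sum_comp]
    simp only [Equiv.symm_apply_apply]
    rw [Fintype.sum_prod_type]
    simp
  rw [h1]
  have e2 : (d : ℝ) ^ k = (d : ℝ) ^ (k - i) * (d : ℝ) ^ i := by
    rw [← pow_add, Nat.sub_add_cancel h]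
  rw [e2]
  field_simp

theorem C3_sym {L : Type u} [Field L] (w : AbsoluteValue L ℝ) (F : (Fin 2 → L) → Fin 2 → L)
    (d : ℕ) (r : ℝ) (i j : ℕ) : EE w F d r i j = EE w F d r j i := by
  unfold EE
  rw [min_comm, max_comm]
  ring

theorem C3_lam_ge {L : Type u} [Field L] {w : AbsoluteValue L ℝ} {x y : Fin 2 → L}
    (hx : nrm w x = 1) (hy : nrm w y = 1) (h : wd x y ≠ 0) : -log 2 ≤ lam w x y := by
  unfold lam
  rw [hx, hy, log_one]
  have hx0 : w (x 0) ≤ 1 := hx ▸ le_max_left _ _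
  have hx1 : w (x 1) ≤ 1 := hx ▸ le_max_right _ _
  have hy0 : w (y 0) ≤ 1 := hy ▸ le_max_left _ _
  have hy1 : w (y 1) ≤ 1 := hy ▸ le_max_right _ _
  have h1 : w (wd x y) ≤ 2 := by
    unfold wd
    calc w (x 0 * y 1 - x 1 * y 0) ≤ w (x 0 * y 1) + w (x 1 * y 0) := by
          rw [sub_eq_add_neg]
          refine (w.add_le _ _).trans ?_
          rw [w.map_neg]
      _ = w (x 0) * w (y 1) + w (x 1) * w (y 0) := by rw [map_mul, map_mul]
      _ ≤ 1 * 1 + 1 * 1 := by
          gcongr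
      _ = 2 := by norm_num
  have h2 : 0 < w (wd x y) := w.pos h
  have h3 := Real.log_le_log h2 h1
  linarith

/-- half sums of a symmetric kernel -/
theorem C3_half {n : ℕ} (e : Fin n → Fin n → ℝ) (he : ∀ i j, e i j = e j i) :
    ∑ i, ∑ j ∈ Finset.Ioi i, e i j = (∑ i, ∑ j, e i j - ∑ i, e i i) / 2 := by
  have h1 : ∀ i : Fin n, ∑ j, e i j =
      ∑ j ∈ Finset.Ioi i, e i j + ∑ j ∈ Finset.Iio i, e i j + e i i := by
    intro i
    have : (Finset.univ : Finset (Fin n)) = (Finset.Ioi i ∪ Finset.Iio i) ∪ {i} := by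
      ext j
      simp only [Finset.mem_univ, Finset.mem_union, Finset.mem_Ioi, Finset.mem_Iio,
        Finset.mem_singleton, true_iff]
      rcases lt_trichotomy i j with h | h | h
      · exact Or.inl (Or.inl h)
      · exact Or.inr h.symm
      · exact Or.inl (Or.inr h)
    rw [this, Finset.sum_union, Finset.sum_union, Finset.sum_singleton]
    · rw [Finset.disjoint_left]
      intro j hj hj'
      rw [Finset.mem_Ioi] at hj
      rw [Finset.mem_Iio] at hj'
      exact absurd (hj.trans hj') (lt_irrefl _)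
    · rw [Finset.disjoint_left]
      intro j hj hj'
      rw [Finset.mem_singleton] at hj'
      subst hj'
      simp at hj
  have h2 : ∑ i, ∑ j ∈ Finset.Iio i, e i j = ∑ i, ∑ j ∈ Finset.Ioi i, e i j := by
    have : ∑ i : Fin n, ∑ j ∈ Finset.Iio i, e i j = ∑ j : Fin n, ∑ i ∈ Finset.Ioi j, e i j := by
      apply Finset.sum_comm'
      intro i j
      simp
    rw [this]
    exact Finset.sum_congr rfl (fun i _ => Finset.sum_congr rfl (fun j _ => he j i))
  have h3 : ∑ i, ∑ j, e i j = 2 * ∑ i, ∑ j ∈ Finset.Ioi i, e i j + ∑ i, e i i := by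
    rw [Finset.sum_congr rfl (fun i _ => h1 i), Finset.sum_add_distrib, Finset.sum_add_distrib,
      h2]
    ring
  linarith

/-- sums over the two halves of `Fin (2 * N)` -/
theorem C3_two {N : ℕ} (f : ℕ → ℝ) (p q : ℕ) :
    ∑ i : Fin (N + N), f (if i.val < N then p else q) = N * f p + N * f q := by
  rw [Fin.sum_univ_add]
  simp

/-- the diagonal energies are bounded below -/
theorem C3_diag {d : ℕ} (hd : 2 ≤ d) {L : Type u} [Field L]
    {w : AbsoluteValue L ℝ} {F : (Fin 2 → L) → Fin 2 → L} {r B : ℝ} {i : ℕ}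
    {C : L} {z : Fin (d ^ i) → Fin 2 → L} {C' : L} {z' : Fin (d ^ i) → Fin 2 → L} {u u' : Fin 2 → L}
    (h : FibAt w (F^[i]) (d ^ i) (kap d i * r) u C z)
    (h' : FibAt w (F^[i]) (d ^ i) (kap d i * r) u' C' z')
    (hne : ∀ p q, wd (z p) (z' q) ≠ 0)
    (hE : |(∑ p, ∑ q, lam w (z p) (z' q)) / ((d : ℝ) ^ i * (d : ℝ) ^ i) - EE w F d r i i| ≤ B) :
    -(B + log 2) ≤ EE w F d r i i := by
  have hd0 : (0 : ℝ) < (d : ℝ) ^ i := by
    have : 0 < d := by omega
    positivity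
  have h1 : ∑ p : Fin (d ^ i), ∑ q : Fin (d ^ i), (-log 2) ≤ ∑ p, ∑ q, lam w (z p) (z' q) :=
    Finset.sum_le_sum (fun p _ => Finset.sum_le_sum (fun q _ =>
      C3_lam_ge (h.unit p) (h'.unit q) (hne p q)))
  have h2 : ∑ p : Fin (d ^ i), ∑ q : Fin (d ^ i), (-log 2) =
      ((d : ℝ) ^ i * (d : ℝ) ^ i) * (-log 2) := by
    simp [Finset.sum_const, Finset.card_univ]
    ring
  rw [h2] at h1
  have h3 : -log 2 ≤ (∑ p, ∑ q, lam w (z p) (z' q)) / ((d : ℝ) ^ i * (d : ℝ) ^ i) := by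
    rw [le_div_iff₀ (by positivity)]
    linarith
  have h4 := (abs_le.mp hE).2
  linarith

/-- C3: the energy of `δ_p + δ_q - δ_{p'} - δ_{q'}` is almost nonnegative -/
theorem QQ_ge (d : ℕ) (hd : 2 ≤ d) (k N : ℕ) (hN : 1 ≤ N) : ∃ B : ℝ, 0 ≤ B ∧
    ∀ (L : Type u) [Field L] [IsAlgClosed L] (w : AbsoluteValue L ℝ)
      (F : (Fin 2 → L) → Fin 2 → L) (r : ℝ), Fib w F d r →
    ∀ p q p' q', p ≤ k → q ≤ k → p' ≤ k → q' ≤ k →
      -B - 4 * kap d k * max (tt w F d r) 0 / N ≤ QQ (EE w F d r) p q p' q' := by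
  obtain ⟨c, hc, hgen⟩ := generic.{u} d hd k ((N + N) + (N + N))
  obtain ⟨B0, hB0, hE0⟩ := E_est.{u} d hd k c hc
  have hN0 : (0 : ℝ) < N := by exact_mod_cast hN
  have hlog2 : 0 < log 2 := Real.log_pos (by norm_num)
  have hlogf : 0 ≤ log (((N + N).factorial : ℕ) : ℝ) :=
    Real.log_nonneg (by exact_mod_cast Nat.factorial_pos _)
  refine ⟨2 / (N : ℝ) ^ 2 * (log (((N + N).factorial : ℕ) : ℝ) + 2 * N * B0 + 12 * (N : ℝ) ^ 2 * B0 +
    2 * N * (B0 + log 2)), by positivity, ?_⟩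
  intro L _ _ w F r hF p q p' q' hp hq hp' hq'
  obtain ⟨u, hu, hgu⟩ := hgen L w F r hF
  have hE := hE0 L w F r hF
  have hd1 : 0 < d := by omega
  have hdk : 0 < d ^ k := pow_pos hd1 k
  set m : ℝ := max (tt w F d r) 0 with hm
  set T : ℝ := kap d k * m + B0 with hT
  let U : Fin (N + N) ⊕ Fin (N + N) → Fin 2 → L := fun a => u (finSumFinEquiv a)
  have hU : ∀ a, nrm w (U a) = 1 := fun a => hu _
  have hGU : ∀ a b, a ≠ b → Gen w F k c (U a) (U b) := fun a b hab =>
    hgu _ _ (fun h => hab (finSumFinEquiv.injective h))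
  let t1 : Fin (N + N) → ℕ := fun i => if i.val < N then p else q
  let t2 : Fin (N + N) → ℕ := fun i => if i.val < N then p' else q'
  let typ : Fin (N + N) ⊕ Fin (N + N) → ℕ := Sum.elim t1 t2
  have ht1 : ∀ i, t1 i ≤ k := by
    intro i; simp only [t1]; split_ifs <;> assumption
  have ht2 : ∀ i, t2 i ≤ k := by
    intro i; simp only [t2]; split_ifs <;> assumption
  have htyp : ∀ a, typ a ≤ k := by
    rintro (i | i)
    · exact ht1 i
    · exact ht2 i
  have hfib : ∀ a, ∃ (C : L) (z : Fin (d ^ typ a) → Fin 2 → L),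
      FibAt w (F^[typ a]) (d ^ typ a) (kap d (typ a) * r) (U a) C z :=
    fun a => fib_iter hF (typ a) (U a) (hU a)
  choose C z hz using hfib
  let Z : ∀ a : Fin (N + N) ⊕ Fin (N + N), Fin (d ^ k) → Fin 2 → L :=
    fun a x => z a (C3_red (htyp a) x)
  have hest := fun a b (hab : a ≠ b) =>
    hE (U a) (U b) (hU a) (hU b) (hGU a b hab) (typ a) (htyp a) (typ b) (htyp b)
      (C a) (z a) (C b) (z b) (hz a) (hz b)
  have hZu : ∀ a x, nrm w (Z a x) = 1 := fun a x => (hz a).unit _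
  have hZne : ∀ a b, a ≠ b → ∀ x y, wd (Z a x) (Z b y) ≠ 0 :=
    fun a b hab x y => (hest a b hab).1 _ _
  have hZT : ∀ a b, a ≠ b → ∀ x y, lam w (Z a x) (Z b y) ≤ T :=
    fun a b hab x y => (hest a b hab).2.1 _ _
  let e : Fin (N + N) ⊕ Fin (N + N) → Fin (N + N) ⊕ Fin (N + N) → ℝ := fun a b =>
    (∑ x, ∑ y, lam w (Z a x) (Z b y)) / (((d ^ k : ℕ) : ℝ) * ((d ^ k : ℕ) : ℝ))
  have he : ∀ a b, a ≠ b → |e a b - EE w F d r (typ a) (typ b)| ≤ B0 := by
    intro a b hab
    have h1 : e a b = (∑ p, ∑ q, lam w (z a p) (z b q)) /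
        ((d : ℝ) ^ typ a * (d : ℝ) ^ typ b) := by
      simp only [e, Z]
      push_cast
      have h2 : ∀ x : Fin (d ^ k), (∑ y, lam w (z a (C3_red (htyp a) x))
          (z b (C3_red (htyp b) y))) =
          (d : ℝ) ^ k * ((∑ y, lam w (z a (C3_red (htyp a) x)) (z b y)) / (d : ℝ) ^ typ b) := by
        intro x
        have := C3_red_sum hd1 (htyp b) (fun y => lam w (z a (C3_red (htyp a) x)) (z b y))
        rw [← this]
        field_simp
      rw [Finset.sum_congr rfl (fun x _ => h2 x), ← Finset.mul_sum]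
      have h3 := C3_red_sum hd1 (htyp a) (fun x => (∑ y, lam w (z a x) (z b y)) /
        (d : ℝ) ^ typ b)
      have hdr : (d : ℝ) ≠ 0 := by exact_mod_cast hd1.ne'
      rw [mul_div_mul_left _ _ (pow_ne_zero k hdr), h3, ← Finset.sum_div, div_div, mul_comm
        ((d : ℝ) ^ typ b)]
    rw [h1]
    exact (hest a b hab).2.2
  -- the inequality for every choice
  have hcau : ∀ ω : Fin (N + N) ⊕ Fin (N + N) → Fin (d ^ k),
      -log (((N + N).factorial : ℕ) : ℝ) - ((N + N : ℕ) : ℝ) * T ≤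
      ∑ i, ∑ j ∈ Finset.Ioi i,
        (lam w (Z (Sum.inl i) (ω (Sum.inl i))) (Z (Sum.inl j) (ω (Sum.inl j))) +
          lam w (Z (Sum.inr i) (ω (Sum.inr i))) (Z (Sum.inr j) (ω (Sum.inr j)))) -
        ∑ i, ∑ j, lam w (Z (Sum.inl i) (ω (Sum.inl i))) (Z (Sum.inr j) (ω (Sum.inr j))) := by
    intro ω
    exact cauchy_ineq w (fun i => Z (Sum.inl i) (ω (Sum.inl i)))
      (fun i => Z (Sum.inr i) (ω (Sum.inr i))) (fun i => hZu _ _) (fun i => hZu _ _)
      (fun i j hij => hZne _ _ (fun h => hij (Sum.inl_injective h)) _ _)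
      (fun i j hij => hZne _ _ (fun h => hij (Sum.inr_injective h)) _ _)
      (fun i j => hZne _ _ (by simp) _ _) T (fun i j => hZT _ _ (by simp) _ _)
  -- averages
  have hav : ∀ a b, a ≠ b → ∑ ω : Fin (N + N) ⊕ Fin (N + N) → Fin (d ^ k),
      lam w (Z a (ω a)) (Z b (ω b)) =
        ((d ^ k : ℕ) : ℝ) ^ (Fintype.card (Fin (N + N) ⊕ Fin (N + N))) * e a b :=
    fun a b hab => C3_avg hdk a b hab (fun x y => lam w (Z a x) (Z b y))
  set W : ℝ := ((d ^ k : ℕ) : ℝ) ^ (Fintype.card (Fin (N + N) ⊕ Fin (N + N))) with hW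
  have hW0 : 0 < W := by
    have : (0 : ℝ) < ((d ^ k : ℕ) : ℝ) := by exact_mod_cast hdk
    positivity
  have hcard : ∑ ω : Fin (N + N) ⊕ Fin (N + N) → Fin (d ^ k), (1 : ℝ) = W := by
    rw [hW]
    simp
  have hsum : -log (((N + N).factorial : ℕ) : ℝ) - ((N + N : ℕ) : ℝ) * T ≤
      ∑ i : Fin (N + N), ∑ j ∈ Finset.Ioi i, (e (Sum.inl i) (Sum.inl j) +
        e (Sum.inr i) (Sum.inr j)) - ∑ i : Fin (N + N), ∑ j : Fin (N + N),
        e (Sum.inl i) (Sum.inr j) := by
    have h1 := Finset.sum_le_sum (fun ω (_ : ω ∈ Finset.univ) => hcau ω)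
    have h2 : ∑ ω : Fin (N + N) ⊕ Fin (N + N) → Fin (d ^ k),
        (-log (((N + N).factorial : ℕ) : ℝ) - ((N + N : ℕ) : ℝ) * T) =
        W * (-log (((N + N).factorial : ℕ) : ℝ) - ((N + N : ℕ) : ℝ) * T) := by
      rw [← hcard, Finset.sum_mul]
      simp
    rw [h2, Finset.sum_sub_distrib, Finset.sum_comm] at h1
    have h3 : ∀ i : Fin (N + N), ∑ ω : Fin (N + N) ⊕ Fin (N + N) → Fin (d ^ k),
        ∑ j ∈ Finset.Ioi i,
        (lam w (Z (Sum.inl i) (ω (Sum.inl i))) (Z (Sum.inl j) (ω (Sum.inl j))) +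
          lam w (Z (Sum.inr i) (ω (Sum.inr i))) (Z (Sum.inr j) (ω (Sum.inr j)))) =
        W * ∑ j ∈ Finset.Ioi i, (e (Sum.inl i) (Sum.inl j) + e (Sum.inr i) (Sum.inr j)) := by
      intro i
      rw [Finset.sum_comm, Finset.mul_sum]
      refine Finset.sum_congr rfl (fun j hj => ?_)
      have hij : i ≠ j := (Finset.mem_Ioi.mp hj).ne
      rw [Finset.sum_add_distrib, hav _ _ (fun h => hij (Sum.inl_injective h)),
        hav _ _ (fun h => hij (Sum.inr_injective h))]
      ring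
    have h4 : ∑ ω : Fin (N + N) ⊕ Fin (N + N) → Fin (d ^ k), ∑ i : Fin (N + N),
        ∑ j : Fin (N + N), lam w (Z (Sum.inl i) (ω (Sum.inl i)))
          (Z (Sum.inr j) (ω (Sum.inr j))) =
        W * ∑ i : Fin (N + N), ∑ j : Fin (N + N), e (Sum.inl i) (Sum.inr j) := by
      rw [Finset.sum_comm, Finset.mul_sum]
      refine Finset.sum_congr rfl (fun i _ => ?_)
      rw [Finset.sum_comm, Finset.mul_sum]
      exact Finset.sum_congr rfl (fun j _ => hav _ _ (by simp))
    rw [Finset.sum_congr rfl (fun i _ => h3 i), h4, ← Finset.mul_sum, ← mul_sub] at h1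
    exact le_of_mul_le_mul_left h1 hW0
  -- replace `e` by the energies
  have hE1 : ∑ i : Fin (N + N), ∑ j ∈ Finset.Ioi i, (e (Sum.inl i) (Sum.inl j) +
        e (Sum.inr i) (Sum.inr j)) ≤ ∑ i : Fin (N + N), ∑ j ∈ Finset.Ioi i,
        (EE w F d r (t1 i) (t1 j) + EE w F d r (t2 i) (t2 j)) + 8 * (N : ℝ) ^ 2 * B0 := by
    have h1 : ∀ i : Fin (N + N), ∑ j ∈ Finset.Ioi i, (e (Sum.inl i) (Sum.inl j) +
        e (Sum.inr i) (Sum.inr j)) ≤ ∑ j ∈ Finset.Ioi i,
        (EE w F d r (t1 i) (t1 j) + EE w F d r (t2 i) (t2 j)) + (N + N) * (2 * B0) := by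
      intro i
      have h2 : ∀ j ∈ Finset.Ioi i, e (Sum.inl i) (Sum.inl j) + e (Sum.inr i) (Sum.inr j) ≤
          (EE w F d r (t1 i) (t1 j) + EE w F d r (t2 i) (t2 j)) + 2 * B0 := by
        intro j hj
        have hij : i ≠ j := (Finset.mem_Ioi.mp hj).ne
        have h3 := (abs_le.mp (he (Sum.inl i) (Sum.inl j)
          (fun h => hij (Sum.inl_injective h)))).2
        have h4 := (abs_le.mp (he (Sum.inr i) (Sum.inr j)
          (fun h => hij (Sum.inr_injective h)))).2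
        simp only [typ, Sum.elim_inl, Sum.elim_inr] at h3 h4
        linarith
      refine (Finset.sum_le_sum h2).trans ?_
      rw [Finset.sum_add_distrib]
      have h5 : ∑ j ∈ Finset.Ioi i, 2 * B0 ≤ (N + N) * (2 * B0) := by
        rw [Finset.sum_const, nsmul_eq_mul]
        have h6 : (Finset.Ioi i).card ≤ N + N := by
          refine (Finset.card_le_univ _).trans ?_
          simp
        have h7 : ((Finset.Ioi i).card : ℝ) ≤ N + N := by exact_mod_cast h6
        exact mul_le_mul_of_nonneg_right h7 (by positivity)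
      linarith
    refine (Finset.sum_le_sum (fun i _ => h1 i)).trans ?_
    rw [Finset.sum_add_distrib, Finset.sum_const, Finset.card_univ, Fintype.card_fin,
      nsmul_eq_mul]
    push_cast
    have : ((N : ℝ) + N) * ((N + N) * (2 * B0)) = 8 * (N : ℝ) ^ 2 * B0 := by ring
    linarith
  have hE2 : ∑ i : Fin (N + N), ∑ j : Fin (N + N), EE w F d r (t1 i) (t2 j) -
      4 * (N : ℝ) ^ 2 * B0 ≤ ∑ i : Fin (N + N), ∑ j : Fin (N + N),
        e (Sum.inl i) (Sum.inr j) := by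
    have h1 : ∑ i : Fin (N + N), ∑ j : Fin (N + N), (EE w F d r (t1 i) (t2 j) - B0) ≤
        ∑ i : Fin (N + N), ∑ j : Fin (N + N), e (Sum.inl i) (Sum.inr j) := by
      refine Finset.sum_le_sum (fun i _ => Finset.sum_le_sum (fun j _ => ?_))
      have h3 := (abs_le.mp (he (Sum.inl i) (Sum.inr j) (by simp))).1
      simp only [typ, Sum.elim_inl, Sum.elim_inr] at h3
      linarith
    have h2 : ∑ i : Fin (N + N), ∑ j : Fin (N + N), (EE w F d r (t1 i) (t2 j) - B0) =
        ∑ i : Fin (N + N), ∑ j : Fin (N + N), EE w F d r (t1 i) (t2 j) -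
          4 * (N : ℝ) ^ 2 * B0 := by
      simp only [Finset.sum_sub_distrib, Finset.sum_const, Finset.card_univ, Fintype.card_fin,
        nsmul_eq_mul]
      push_cast
      ring
    linarith
  set E := EE w F d r with hEdef
  have hsymm : ∀ i j, E i j = E j i := fun i j => C3_sym w F d r i j
  have hA : ∑ i : Fin (N + N), ∑ j ∈ Finset.Ioi i, (E (t1 i) (t1 j) + E (t2 i) (t2 j)) =
      (N : ℝ) ^ 2 / 2 * (E p p + 2 * E p q + E q q) - N / 2 * (E p p + E q q) +
      ((N : ℝ) ^ 2 / 2 * (E p' p' + 2 * E p' q' + E q' q') - N / 2 * (E p' p' + E q' q')) := by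
    have h1 : ∀ (a b : ℕ), ∑ i : Fin (N + N), ∑ j ∈ Finset.Ioi i,
        E (if i.val < N then a else b) (if j.val < N then a else b) =
        (N : ℝ) ^ 2 / 2 * (E a a + 2 * E a b + E b b) - N / 2 * (E a a + E b b) := by
      intro a b
      rw [C3_half (fun i j : Fin (N + N) => E (if i.val < N then a else b)
        (if j.val < N then a else b)) (fun i j => hsymm _ _)]
      have h2 : ∀ i : Fin (N + N), ∑ j : Fin (N + N), E (if i.val < N then a else b)
          (if j.val < N then a else b) = N * E (if i.val < N then a else b) a +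
          N * E (if i.val < N then a else b) b := fun i => C3_two _ a b
      rw [Finset.sum_congr rfl (fun i _ => h2 i),
        C3_two (fun t => (N : ℝ) * E t a + N * E t b) a b, C3_two (fun t => E t t) a b,
        hsymm b a]
      ring
    have h3 : ∑ i : Fin (N + N), ∑ j ∈ Finset.Ioi i, (E (t1 i) (t1 j) + E (t2 i) (t2 j)) =
        ∑ i : Fin (N + N), ∑ j ∈ Finset.Ioi i, E (t1 i) (t1 j) +
        ∑ i : Fin (N + N), ∑ j ∈ Finset.Ioi i, E (t2 i) (t2 j) := by
      simp only [Finset.sum_add_distrib]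
    rw [h3, h1 p q, h1 p' q']
  have hB : ∑ i : Fin (N + N), ∑ j : Fin (N + N), E (t1 i) (t2 j) =
      (N : ℝ) ^ 2 * (E p p' + E p q' + E q p' + E q q') := by
    have h2 : ∀ i : Fin (N + N), ∑ j : Fin (N + N), E (t1 i) (t2 j) =
        N * E (t1 i) p' + N * E (t1 i) q' := fun i => C3_two _ p' q'
    rw [Finset.sum_congr rfl (fun i _ => h2 i)]
    have h3 := C3_two (N := N) (fun t => (N : ℝ) * E t p' + N * E t q') p q
    simp only [t1]
    rw [h3]
    ring
  -- diagonal terms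
  have hdiag : ∀ i, i ≤ k → -(B0 + log 2) ≤ E i i := by
    intro i hi
    have hpos : 0 < N + N := by omega
    obtain ⟨C1, z1, h1⟩ := fib_iter hF i (U (Sum.inl ⟨0, hpos⟩)) (hU _)
    obtain ⟨C2, z2, h2⟩ := fib_iter hF i (U (Sum.inr ⟨0, hpos⟩)) (hU _)
    have h3 := hE (U (Sum.inl ⟨0, hpos⟩)) (U (Sum.inr ⟨0, hpos⟩)) (hU _) (hU _)
      (hGU _ _ (by simp)) i hi i hi C1 z1 C2 z2 h1 h2
    exact C3_diag hd h1 h2 h3.1 h3.2.2
  have d1 := hdiag p hp
  have d2 := hdiag q hq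
  have d3 := hdiag p' hp'
  have d4 := hdiag q' hq'
  rw [hA] at hE1
  rw [hB] at hE2
  have hd : (N : ℝ) / 2 * (-(4 * (B0 + log 2))) ≤ N / 2 * (E p p + E q q + E p' p' + E q' q') :=
    mul_le_mul_of_nonneg_left (by linarith) (by positivity)
  have hfin : -(log (((N + N).factorial : ℕ) : ℝ) + 2 * N * B0 + 12 * (N : ℝ) ^ 2 * B0 +
      2 * N * (B0 + log 2)) - 2 * N * (kap d k * m) ≤ (N : ℝ) ^ 2 / 2 * QQ E p q p' q' := by
    unfold QQ
    have e1 : ((N + N : ℕ) : ℝ) * T = 2 * N * (kap d k * m) + 2 * N * B0 := by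
      rw [hT]; push_cast; ring
    rw [e1] at hsum
    nlinarith [hsum, hE1, hE2, hd]
  have hfin2 : 2 / (N : ℝ) ^ 2 * (-(log (((N + N).factorial : ℕ) : ℝ) + 2 * N * B0 +
      12 * (N : ℝ) ^ 2 * B0 + 2 * N * (B0 + log 2)) - 2 * N * (kap d k * m)) ≤
      2 / (N : ℝ) ^ 2 * ((N : ℝ) ^ 2 / 2 * QQ E p q p' q') :=
    mul_le_mul_of_nonneg_left hfin (by positivity)
  have e3 : 2 / (N : ℝ) ^ 2 * ((N : ℝ) ^ 2 / 2 * QQ E p q p' q') = QQ E p q p' q' := by
    field_simp
  have e4 : 2 / (N : ℝ) ^ 2 * (2 * N * (kap d k * m)) = 4 * kap d k * m / N := by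
    field_simp
    ring
  rw [e3, mul_sub, e4] at hfin2
  linarith

end Pool.Agent.TH450.PC
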