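import Pool.Agent.H951R3.PB.Defs
import Pool.Agent.TH450.PC.B1
import Pool.Agent.TH450.PC.B2

/-!
# The Green function (D1)
-/

set_option autoImplicit false

namespace Pool.Agent.TH450.PC

open Pool.Agent.H951R3.PB

open Real Filter Topology

universe u

namespace D1

section basic

variable {L : Type u} [Field L] {w : AbsoluteValue L ℝ}

theorem nrm_nonneg (x : Fin 2 → L) : 0 ≤ nrm w x := le_max_of_le_left (w.nonneg _)

theorem nrm_smul (a : L) (x : Fin 2 → L) : nrm w (a • x) = w a * nrm w x := by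
  unfold nrm
  rw [Pi.smul_apply, Pi.smul_apply, smul_eq_mul, smul_eq_mul, w.map_mul, w.map_mul,
    mul_max_of_nonneg _ _ (w.nonneg a)]

theorem nrm_pos {x : Fin 2 → L} (hx : x ≠ 0) : 0 < nrm w x := by
  unfold nrm
  rw [lt_max_iff]
  by_contra hcon
  push Not at hcon
  apply hx
  have h0 : w (x 0) = 0 := le_antisymm hcon.1 (w.nonneg _)
  have h1 : w (x 1) = 0 := le_antisymm hcon.2 (w.nonneg _)
  rw [AbsoluteValue.eq_zero] at h0 h1
  funext i
  fin_cases i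
  · exact h0
  · exact h1

theorem exists_scale {x : Fin 2 → L} (hx : x ≠ 0) : ∃ k : L, k ≠ 0 ∧ w k = nrm w x ∧
    nrm w (k⁻¹ • x) = 1 ∧ x = k • (k⁻¹ • x) := by
  have hpos := nrm_pos (w := w) hx
  obtain ⟨k, hk⟩ : ∃ k : L, w k = nrm w x := by
    rcases max_choice (w (x 0)) (w (x 1)) with h | h
    · exact ⟨x 0, h.symm⟩
    · exact ⟨x 1, h.symm⟩
  have hk0 : k ≠ 0 := by
    rintro rfl
    rw [w.map_zero] at hk
    linarith
  refine ⟨k, hk0, hk, ?_, ?_⟩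
  · rw [nrm_smul, map_inv₀, hk, inv_mul_cancel₀ hpos.ne']
  · rw [smul_smul, mul_inv_cancel₀ hk0, one_smul]

end basic

/-- `F` never vanishes, scales with degree `d`, and `‖F x‖` is controlled on unit vectors -/
structure Ok {L : Type u} [Field L] (w : AbsoluteValue L ℝ) (F : (Fin 2 → L) → Fin 2 → L)
    (d : ℕ) (S T : ℝ) : Prop where
  homog : ∀ (a : L) (x : Fin 2 → L), F (a • x) = a ^ d • F x
  ne : ∀ {x : Fin 2 → L}, x ≠ 0 → F x ≠ 0
  up : ∀ x, nrm w x = 1 → log (nrm w (F x)) ≤ S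
  lo : ∀ x, nrm w x = 1 → -T ≤ log (nrm w (F x))

section ok

variable {L : Type u} [Field L] {w : AbsoluteValue L ℝ} {F : (Fin 2 → L) → Fin 2 → L}
  {d : ℕ} {S T : ℝ}

theorem Ok.iter_ne (h : Ok w F d S T) {x : Fin 2 → L} (hx : x ≠ 0) (n : ℕ) : F^[n] x ≠ 0 := by
  induction n with
  | zero => exact hx
  | succ n ih => rw [Function.iterate_succ_apply']; exact h.ne ih

theorem Ok.iter_smul (h : Ok w F d S T) (a : L) (x : Fin 2 → L) (n : ℕ) :
    F^[n] (a • x) = a ^ (d ^ n) • F^[n] x := by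
  induction n with
  | zero => simp
  | succ n ih =>
    rw [Function.iterate_succ_apply', Function.iterate_succ_apply', ih, h.homog, ← pow_mul,
      ← pow_succ]

theorem Ok.step (h : Ok w F d S T) {x : Fin 2 → L} (hx : x ≠ 0) :
    d * log (nrm w x) - T ≤ log (nrm w (F x)) ∧ log (nrm w (F x)) ≤ d * log (nrm w x) + S := by
  obtain ⟨k, hk0, hk, hu, hx'⟩ := exists_scale (w := w) hx
  have h1 : F x = k ^ d • F (k⁻¹ • x) := by
    rw [← h.homog, ← hx']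
  have hne : k⁻¹ • x ≠ 0 := smul_ne_zero (inv_ne_zero hk0) hx
  have h2 : log (nrm w (F x)) = d * log (nrm w x) + log (nrm w (F (k⁻¹ • x))) := by
    rw [h1, nrm_smul, w.map_pow, log_mul (pow_ne_zero _ (by rw [hk]; exact (nrm_pos hx).ne'))
      (nrm_pos (h.ne hne)).ne', log_pow, hk]
  have h3 := h.up _ hu
  have h4 := h.lo _ hu
  rw [h2]
  constructor <;> linarith

/-- the sequence defining the Green function -/
noncomputable def an (w : AbsoluteValue L ℝ) (F : (Fin 2 → L) → Fin 2 → L) (d : ℕ)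
    (x : Fin 2 → L) (n : ℕ) : ℝ := log (nrm w (F^[n] x)) / (d : ℝ) ^ n

theorem Ok.an_step (h : Ok w F d S T) (hd : 2 ≤ d) {x : Fin 2 → L} (hx : x ≠ 0) (n : ℕ) :
    an w F d x n - T / (d : ℝ) ^ (n + 1) ≤ an w F d x (n + 1) ∧
      an w F d x (n + 1) ≤ an w F d x n + S / (d : ℝ) ^ (n + 1) := by
  have hd0 : (0:ℝ) < d := by
    have : (2:ℝ) ≤ d := by exact_mod_cast hd
    linarith
  have h1 := h.step (h.iter_ne hx n)
  unfold an
  rw [Function.iterate_succ_apply']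
  have e1 : log (nrm w (F^[n] x)) / (d : ℝ) ^ n = d * log (nrm w (F^[n] x)) / (d : ℝ) ^ (n + 1) := by
    rw [pow_succ]
    field_simp
  rw [e1, ← sub_div, ← add_div]
  have hp : (0:ℝ) < (d:ℝ) ^ (n + 1) := pow_pos hd0 _
  exact ⟨div_le_div_of_nonneg_right h1.1 hp.le, div_le_div_of_nonneg_right h1.2 hp.le⟩

theorem geo_step (hd : 2 ≤ d) (A : ℝ) (n : ℕ) :
    A / (d : ℝ) ^ (n + 1) + A / ((d : ℝ) ^ (n + 1) * (d - 1)) = A / ((d : ℝ) ^ n * (d - 1)) := by
  have h2 : (2:ℝ) ≤ d := by exact_mod_cast hd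
  have hd0 : (d:ℝ) ≠ 0 := by linarith
  have hd1 : (d:ℝ) - 1 ≠ 0 := by linarith
  have hp : (d:ℝ) ^ n ≠ 0 := pow_ne_zero _ hd0
  rw [pow_succ]
  field_simp
  ring

theorem geo_tendsto (hd : 2 ≤ d) (A : ℝ) :
    Tendsto (fun n : ℕ => A / ((d : ℝ) ^ n * (d - 1))) atTop (𝓝 0) := by
  have h2 : (2:ℝ) ≤ d := by exact_mod_cast hd
  have h3 : Tendsto (fun n : ℕ => (d:ℝ) ^ n * ((d:ℝ) - 1)) atTop atTop :=
    (tendsto_pow_atTop_atTop_of_one_lt (by linarith)).atTop_mul_const (by linarith)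
  exact h3.const_div_atTop A

theorem Ok.anti (h : Ok w F d S T) (hd : 2 ≤ d) {x : Fin 2 → L} (hx : x ≠ 0) :
    Antitone (fun n => an w F d x n + S / ((d : ℝ) ^ n * (d - 1))) := by
  apply antitone_nat_of_succ_le
  intro n
  have h1 := (h.an_step hd hx n).2
  have h2 := geo_step hd S n
  linarith

theorem Ok.mono (h : Ok w F d S T) (hd : 2 ≤ d) {x : Fin 2 → L} (hx : x ≠ 0) :
    Monotone (fun n => an w F d x n - T / ((d : ℝ) ^ n * (d - 1))) := by
  apply monotone_nat_of_le_succ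
  intro n
  have h1 := (h.an_step hd hx n).1
  have h2 := geo_step hd T n
  linarith

theorem unit_vec : nrm w (![1, 0] : Fin 2 → L) = 1 := by
  unfold nrm
  simp

theorem Ok.nonneg (h : Ok w F d S T) : 0 ≤ S + T := by
  have h1 := h.up _ (unit_vec (w := w))
  have h2 := h.lo _ (unit_vec (w := w))
  linarith

theorem Ok.tendsto (h : Ok w F d S T) (hd : 2 ≤ d) {x : Fin 2 → L} (hx : x ≠ 0) :
    Tendsto (an w F d x) atTop (𝓝 (Gr w F d x)) := by
  have h2 : (2:ℝ) ≤ d := by exact_mod_cast hd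
  have hm := h.mono hd hx
  have ha := h.anti hd hx
  have hbdd : BddAbove (Set.range (fun n => an w F d x n - T / ((d : ℝ) ^ n * (d - 1)))) := by
    refine ⟨an w F d x 0 + S / ((d : ℝ) ^ 0 * (d - 1)), ?_⟩
    rintro _ ⟨n, rfl⟩
    have h3 := ha (Nat.zero_le n)
    have h4 : 0 ≤ (S + T) / ((d : ℝ) ^ n * (d - 1)) :=
      div_nonneg h.nonneg (mul_nonneg (pow_nonneg (by linarith) _) (by linarith))
    rw [add_div] at h4
    simp only at h3 ⊢
    linarith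
  have h5 := tendsto_atTop_ciSup hm hbdd
  have h6 : Tendsto (an w F d x) atTop
      (𝓝 ((⨆ n, (an w F d x n - T / ((d : ℝ) ^ n * (d - 1)))) + 0)) := by
    refine (h5.add (geo_tendsto hd T)).congr ?_
    intro n
    ring
  have h7 : Gr w F d x = (⨆ n, (an w F d x n - T / ((d : ℝ) ^ n * (d - 1)))) + 0 :=
    h6.limUnder_eq
  rw [h7]
  exact h6

theorem Ok.upper (h : Ok w F d S T) (hd : 2 ≤ d) {x : Fin 2 → L} (hx : x ≠ 0) (n : ℕ) :
    Gr w F d x ≤ an w F d x n + S / ((d : ℝ) ^ n * (d - 1)) := by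
  have h1 : Tendsto (fun n => an w F d x n + S / ((d : ℝ) ^ n * (d - 1))) atTop
      (𝓝 (Gr w F d x)) := by
    have := (h.tendsto hd hx).add (geo_tendsto hd S)
    rwa [add_zero] at this
  exact (h.anti hd hx).le_of_tendsto h1 n

theorem Ok.lower (h : Ok w F d S T) (hd : 2 ≤ d) {x : Fin 2 → L} (hx : x ≠ 0) (n : ℕ) :
    an w F d x n - T / ((d : ℝ) ^ n * (d - 1)) ≤ Gr w F d x := by
  have h1 : Tendsto (fun n => an w F d x n - T / ((d : ℝ) ^ n * (d - 1))) atTop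
      (𝓝 (Gr w F d x)) := by
    have := (h.tendsto hd hx).sub (geo_tendsto hd T)
    rwa [sub_zero] at this
  exact (h.mono hd hx).ge_of_tendsto h1 n

end ok

theorem ok_of_fib {L : Type u} [Field L] [IsAlgClosed L] {w : AbsoluteValue L ℝ}
    {F : (Fin 2 → L) → Fin 2 → L} {d : ℕ} (hd : 2 ≤ d) {r : ℝ} (h : Fib w F d r) :
    ∃ T, Ok w F d (Ssup w F) T := by
  obtain ⟨B, _, hB⟩ := fib_bounds.{u} d (by omega)
  obtain ⟨h1, _, _, h4⟩ := hB L w F r h
  refine ⟨tt w F d r - Ssup w F + B, fun a x => fib_homog h a x,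
    fun hx => fib_ne_zero h hx, h1, ?_⟩
  intro x hx
  have := h4 x hx
  linarith

end D1

open D1

/-- D1 -/
theorem gr_tendsto {L : Type u} [Field L] [IsAlgClosed L] {w : AbsoluteValue L ℝ}
    {F : (Fin 2 → L) → Fin 2 → L} {d : ℕ} (hd : 2 ≤ d) {r : ℝ} (h : Fib w F d r)
    {x : Fin 2 → L} (hx : x ≠ 0) :
    Tendsto (fun n : ℕ => log (nrm w (F^[n] x)) / (d : ℝ) ^ n) atTop (𝓝 (Gr w F d x)) := by
  obtain ⟨T, hT⟩ := ok_of_fib hd h
  exact hT.tendsto hd hx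

/-- D1 -/
theorem gr_map {L : Type u} [Field L] [IsAlgClosed L] {w : AbsoluteValue L ℝ}
    {F : (Fin 2 → L) → Fin 2 → L} {d : ℕ} (hd : 2 ≤ d) {r : ℝ} (h : Fib w F d r)
    {x : Fin 2 → L} (hx : x ≠ 0) : Gr w F d (F x) = d * Gr w F d x := by
  have h2 : (2:ℝ) ≤ d := by exact_mod_cast hd
  have hd0 : (d:ℝ) ≠ 0 := by linarith
  have h1 := gr_tendsto hd h (fib_ne_zero h hx)
  have h3 := ((tendsto_add_atTop_iff_nat 1).mpr (gr_tendsto hd h hx)).const_mul (d:ℝ)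
  refine tendsto_nhds_unique h1 (h3.congr ?_)
  intro n
  rw [Function.iterate_succ_apply, pow_succ]
  field_simp

/-- D1 -/
theorem gr_smul {L : Type u} [Field L] [IsAlgClosed L] {w : AbsoluteValue L ℝ}
    {F : (Fin 2 → L) → Fin 2 → L} {d : ℕ} (hd : 2 ≤ d) {r : ℝ} (h : Fib w F d r)
    {x : Fin 2 → L} (hx : x ≠ 0) {a : L} (ha : a ≠ 0) :
    Gr w F d (a • x) = log (w a) + Gr w F d x := by
  have h2 : (2:ℝ) ≤ d := by exact_mod_cast hd
  have hd0 : (d:ℝ) ≠ 0 := by linarith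
  obtain ⟨T, hT⟩ := ok_of_fib hd h
  have h1 := gr_tendsto hd h (smul_ne_zero ha hx)
  have h3 := (gr_tendsto hd h hx).const_add (log (w a))
  refine tendsto_nhds_unique h1 (h3.congr ?_)
  intro n
  rw [hT.iter_smul, nrm_smul, w.map_pow,
    log_mul (pow_ne_zero _ (w.ne_zero ha)) (nrm_pos (hT.iter_ne hx n)).ne', log_pow, add_div]
  congr 1
  push_cast
  rw [mul_div_assoc, mul_comm, div_mul_cancel₀ _ (pow_ne_zero _ hd0)]

/-- D1 -/
theorem gr_upper {L : Type u} [Field L] [IsAlgClosed L] {w : AbsoluteValue L ℝ}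
    {F : (Fin 2 → L) → Fin 2 → L} {d : ℕ} (hd : 2 ≤ d) {r : ℝ} (h : Fib w F d r)
    {x : Fin 2 → L} (hx : x ≠ 0) (n : ℕ) :
    Gr w F d x ≤ log (nrm w (F^[n] x)) / (d : ℝ) ^ n + Ssup w F / ((d : ℝ) ^ n * (d - 1)) := by
  obtain ⟨T, hT⟩ := ok_of_fib hd h
  exact hT.upper hd hx n

/-- D1 -/
theorem gr_lower (d : ℕ) (hd : 2 ≤ d) : ∃ B : ℝ, 0 ≤ B ∧ ∀ (L : Type u) [Field L]
    [IsAlgClosed L] (w : AbsoluteValue L ℝ) (F : (Fin 2 → L) → Fin 2 → L) (r : ℝ),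
    Fib w F d r → ∀ x, x ≠ 0 → ∀ n : ℕ,
      log (nrm w (F^[n] x)) / (d : ℝ) ^ n -
        (tt w F d r - Ssup w F + B) / ((d : ℝ) ^ n * (d - 1)) ≤ Gr w F d x := by
  obtain ⟨B, hB0, hB⟩ := fib_bounds.{u} d (by omega)
  refine ⟨B, hB0, ?_⟩
  intro L _ _ w F r h x hx n
  obtain ⟨h1, _, _, h4⟩ := hB L w F r h
  have hT : Ok w F d (Ssup w F) (tt w F d r - Ssup w F + B) := by
    refine ⟨fun a x => fib_homog h a x, fun hx => fib_ne_zero h hx, h1, ?_⟩
    intro x hx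
    have := h4 x hx
    linarith
  exact hT.lower hd hx n

end Pool.Agent.TH450.PC
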