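import Pool.Agent.H951R3.PB.Defs
import Pool.Agent.TH450.PC.B1
import Pool.Agent.TH450.PC.B2
import Pool.Agent.TH450.PC.C3
import Pool.Agent.TH450.PC.D1

/-!
# Task C4: the capacity inequality
-/

set_option autoImplicit false

namespace Pool.Agent.TH450.PC

open Pool.Agent.H951R3.PB

open Real Filter Topology NumberField

universe u

section

variable {L : Type u} [Field L]

lemma C4_symm (w : AbsoluteValue L ℝ) (F : (Fin 2 → L) → Fin 2 → L) (d : ℕ) (r : ℝ) (i j : ℕ) :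
    EE w F d r i j = EE w F d r j i := by
  unfold EE
  rw [min_comm i j, max_comm i j]
  ring

lemma C4_Ssup0 (w : AbsoluteValue L ℝ) (F : (Fin 2 → L) → Fin 2 → L) : Ssup w (F^[0]) = 0 := by
  unfold Ssup
  have h : ∀ x : {x : Fin 2 → L // nrm w x = 1}, log (nrm w (F^[0] x.1)) = 0 := fun x => by
    rw [Function.iterate_zero, id, x.2, log_one]
  simp_rw [h]
  exact Real.iSup_const_zero

lemma C4_sg0 (w : AbsoluteValue L ℝ) (F : (Fin 2 → L) → Fin 2 → L) (d : ℕ) : sg w F d 0 = 0 := by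
  unfold sg
  rw [C4_Ssup0, zero_div]

lemma C4_le (w : AbsoluteValue L ℝ) (F : (Fin 2 → L) → Fin 2 → L) (d : ℕ) (r : ℝ) {i j : ℕ}
    (h : i ≤ j) : EE w F d r i j = ta d r * (1 - 1 / (d : ℝ) ^ i) + sg w F d i + sg w F d j -
      sg w F d (j - i) / (d : ℝ) ^ i := by
  unfold EE
  rw [min_eq_left h, max_eq_right h]

lemma C4_zero (w : AbsoluteValue L ℝ) (F : (Fin 2 → L) → Fin 2 → L) (d : ℕ) (r : ℝ) (j : ℕ) :
    EE w F d r 0 j = 0 := by
  rw [C4_le w F d r (Nat.zero_le j), C4_sg0]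
  simp

/-- the identity between the energies -/
lemma C4_ident (w : AbsoluteValue L ℝ) (F : (Fin 2 → L) → Fin 2 → L) {d : ℕ} (hd : 2 ≤ d) (r : ℝ)
    (k : ℕ) :
    tt w F d r / (d : ℝ) ^ 2 + QQ (EE w F d r) 1 k (k + 1) (k + 1) +
      QQ (EE w F d r) (k + 1) 0 k k + QQ (EE w F d r) 1 0 (k + 1) k =
    3 * (EE w F d r k k / d + tt w F d r / (d : ℝ) ^ 2 / (d : ℝ) ^ k + EE w F d r k k) := by
  have hD : (2 : ℝ) ≤ d := by exact_mod_cast hd
  have hD0 : (d : ℝ) ≠ 0 := by positivity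
  have hD1 : (d : ℝ) - 1 ≠ 0 := by
    have : (0 : ℝ) < (d : ℝ) - 1 := by linarith
    exact this.ne'
  have hp : (d : ℝ) ^ k ≠ 0 := pow_ne_zero _ hD0
  have h11 : EE w F d r 1 1 = tt w F d r / (d : ℝ) ^ 2 := by
    rw [C4_le w F d r le_rfl, Nat.sub_self, C4_sg0]
    unfold ta tt sg
    rw [Function.iterate_one]
    field_simp
    ring
  have hkk : EE w F d r k k = ta d r * (1 - 1 / (d : ℝ) ^ k) + 2 * sg w F d k := by
    rw [C4_le w F d r le_rfl, Nat.sub_self, C4_sg0]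
    ring
  have hk1 : EE w F d r (k + 1) (k + 1) =
      ta d r * (1 - 1 / (d : ℝ) ^ (k + 1)) + 2 * sg w F d (k + 1) := by
    rw [C4_le w F d r le_rfl, Nat.sub_self, C4_sg0]
    ring
  have h1k : EE w F d r 1 (k + 1) =
      ta d r * (1 - 1 / (d : ℝ)) + sg w F d 1 + sg w F d (k + 1) - sg w F d k / d := by
    rw [C4_le w F d r (by omega), Nat.add_sub_cancel, pow_one]
  have hk2 : EE w F d r k (k + 1) =
      ta d r * (1 - 1 / (d : ℝ) ^ k) + sg w F d k + sg w F d (k + 1) - sg w F d 1 / (d : ℝ) ^ k := by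
    rw [C4_le w F d r (by omega), Nat.add_sub_cancel_left]
  have ea : EE w F d r (k + 1) (k + 1) + EE w F d r 1 1 - 2 * EE w F d r 1 (k + 1) =
      EE w F d r k k / d := by
    rw [C4_le w F d r (le_refl 1), Nat.sub_self, C4_sg0, hk1, h1k, hkk, pow_succ, pow_one]
    field_simp
    ring
  have eb : EE w F d r (k + 1) (k + 1) + EE w F d r k k - 2 * EE w F d r k (k + 1) =
      EE w F d r 1 1 / (d : ℝ) ^ k := by
    rw [C4_le w F d r (le_refl 1), Nat.sub_self, C4_sg0, hk1, hk2, hkk, pow_succ, pow_one]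
    field_simp
    ring
  have h0 : ∀ j, EE w F d r 0 j = 0 := C4_zero w F d r
  have h0' : ∀ j, EE w F d r j 0 = 0 := fun j => by rw [C4_symm, h0]
  have s1 : EE w F d r (k + 1) k = EE w F d r k (k + 1) := C4_symm _ _ _ _ _ _
  rw [← h11, ← ea, ← eb]
  simp only [QQ, h0, h0', s1]
  ring

end

lemma C4_kap_pos (d k : ℕ) (hd : 2 ≤ d) : 1 ≤ kap d (k + 1) := by
  have : 1 ≤ d ^ k := Nat.one_le_pow _ _ (by omega)
  rw [kap]
  omega

attribute [local irreducible] kap in
/-- C4: the capacity inequality -/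
theorem capacity (d : ℕ) (hd : 2 ≤ d) : ∃ c B : ℝ, 0 < c ∧ 0 ≤ B ∧ ∀ (L : Type u) [Field L]
    [IsAlgClosed L] (w : AbsoluteValue L ℝ) (F : (Fin 2 → L) → Fin 2 → L) (r : ℝ),
    Fib w F d r → ∃ u, nrm w u = 1 ∧ c * tt w F d r - B ≤ 2 * Gr w F d u + ta d r := by
  have hD : (2 : ℝ) ≤ d := by exact_mod_cast hd
  have hD0 : (0 : ℝ) < d := by linarith
  have hD1 : (0 : ℝ) < (d : ℝ) - 1 := by linarith
  obtain ⟨K, hK⟩ : ∃ K : ℕ, K = kap d 9 := ⟨_, rfl⟩
  have hKpos : 1 ≤ K := by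
    rw [hK]
    exact C4_kap_pos d 8 hd
  have hKR : (1 : ℝ) ≤ K := by exact_mod_cast hKpos
  have hN : 1 ≤ 144 * d ^ 2 * K := Nat.mul_pos (by positivity) hKpos
  obtain ⟨B1, hB1, hQ⟩ := QQ_ge.{u} d hd 9 (144 * d ^ 2 * K) hN
  obtain ⟨B2, hB2, hG⟩ := gr_lower.{u} d hd
  obtain ⟨B3, hB3, hS⟩ := fib_bounds.{u} (d ^ 8) (Nat.one_le_pow _ _ (by omega))
  refine ⟨1 / (24 * (d : ℝ) ^ 2), B1 + 2 + 2 * B2, by positivity, by positivity, ?_⟩
  intro L _ _ w F r hF
  set t := tt w F d r with ht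
  set S := Ssup w F with hSdef
  have htaS : ta d r + 2 * S / ((d : ℝ) - 1) = t / ((d : ℝ) * (d - 1)) := by
    rw [ht, tt, ta]
    field_simp
    ring
  rcases lt_or_ge t 0 with hneg | hpos
  · -- small size
    refine ⟨![1, 0], ?_, ?_⟩
    · simp [nrm]
    · have h := hG L w F r hF ![1, 0] (by
        intro h
        have := congrFun h 0
        simp at this) 0
      have h1 : nrm w (![1, 0] : Fin 2 → L) = 1 := by simp [nrm]
      rw [Function.iterate_zero, id, h1, log_one, pow_zero, zero_div, one_mul] at h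
      have h2 : -(2 * (t - S + B2) / ((d : ℝ) - 1)) + ta d r ≤
          2 * Gr w F d ![1, 0] + ta d r := by
        have : 2 * (t - S + B2) / ((d : ℝ) - 1) = 2 * ((t - S + B2) / ((d : ℝ) - 1)) := by ring
        rw [this]
        linarith
      refine le_trans ?_ h2
      have h3 : -(2 * (t - S + B2) / ((d : ℝ) - 1)) + ta d r =
          t / ((d : ℝ) * (d - 1)) - 2 * t / ((d : ℝ) - 1) - 2 * B2 / ((d : ℝ) - 1) := by
        rw [← htaS]
        ring
      rw [h3]
      have h4 : t / ((d : ℝ) * (d - 1)) - 2 * t / ((d : ℝ) - 1) =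
          (-t) * ((2 * d - 1) / ((d : ℝ) * (d - 1))) := by
        field_simp
        ring
      rw [h4]
      have h5 : 0 ≤ (-t) * ((2 * d - 1) / ((d : ℝ) * (d - 1))) :=
        mul_nonneg (by linarith) (div_nonneg (by linarith) (by positivity))
      have h6 : 2 * B2 / ((d : ℝ) - 1) ≤ 2 * B2 := by
        rw [div_le_iff₀ hD1]
        nlinarith
      have h7 : 1 / (24 * (d : ℝ) ^ 2) * t ≤ 0 :=
        mul_nonpos_of_nonneg_of_nonpos (by positivity) hneg.le
      linarith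
  · -- the main case
    have hid := C4_ident w F hd r 8
    have hq1 := hQ L w F r hF 1 8 9 9 (by omega) (by omega) (by omega) (by omega)
    have hq2 := hQ L w F r hF 9 0 8 8 (by omega) (by omega) (by omega) (by omega)
    have hq3 := hQ L w F r hF 1 0 9 8 (by omega) (by omega) (by omega) (by omega)
    have hmax : max (tt w F d r) 0 = t := max_eq_left hpos
    rw [hmax] at hq1 hq2 hq3
    rw [← hK] at hq1 hq2 hq3
    have heps : 4 * (K : ℝ) * t / ((144 * d ^ 2 * K : ℕ) : ℝ) = t / (36 * (d : ℝ) ^ 2) := by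
      push_cast
      field_simp
      ring
    rw [heps] at hq1 hq2 hq3
    have hE : t / (12 * (d : ℝ) ^ 2) - B1 ≤ EE w F d r 8 8 := by
      have h8 : (256 : ℝ) ≤ (d : ℝ) ^ 8 := by
        calc (256 : ℝ) = 2 ^ 8 := by norm_num
          _ ≤ (d : ℝ) ^ 8 := by gcongr
      have hx : 0 ≤ t / (d : ℝ) ^ 2 := by positivity
      set X := t / (d : ℝ) ^ 2 with hX
      have e1 : t / (36 * (d : ℝ) ^ 2) = X / 36 := by rw [hX]; field_simp
      have e2 : t / (12 * (d : ℝ) ^ 2) = X / 12 := by rw [hX]; field_simp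
      have h9 : X / (d : ℝ) ^ 8 ≤ X / 256 := div_le_div_of_nonneg_left hx (by norm_num) h8
      rw [e1] at hq1 hq2 hq3
      rw [e2]
      have hid' : X + QQ (EE w F d r) 1 8 9 9 + QQ (EE w F d r) 9 0 8 8 +
        QQ (EE w F d r) 1 0 9 8 = 3 * (EE w F d r 8 8 / d + X / (d : ℝ) ^ 8 + EE w F d r 8 8) := hid
      set E := EE w F d r 8 8 with hEdef
      by_contra hcon
      push Not at hcon
      -- `E < X / 12 - B1`
      have h10 : E / d + E < (X / 12 - B1) * (1 + 1 / d) := by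
        have : E / d + E = E * (1 + 1 / d) := by ring
        rw [this]
        exact mul_lt_mul_of_pos_right hcon (by positivity)
      have h11 : (1 : ℝ) / d ≤ 1 / 2 := by
        rw [div_le_div_iff₀ hD0 (by norm_num)]
        linarith
      have h12 : 0 ≤ (1 : ℝ) / d := by positivity
      have h13 : (X / 12 - B1) * (1 + 1 / d) ≤ X / 12 * (3 / 2) - B1 := by
        have a1 : X / 12 * (1 / d) ≤ X / 12 * (1 / 2) :=
          mul_le_mul_of_nonneg_left h11 (by positivity)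
        have a2 : 0 ≤ B1 * (1 / d) := mul_nonneg hB1 h12
        nlinarith
      linarith
    obtain ⟨-, ⟨u, hu1, hu2⟩, -⟩ := hS L w (F^[8]) (kap d 8 * r) (fib_iter hF 8)
    refine ⟨u, hu1, ?_⟩
    have hu0 : u ≠ 0 := by
      rintro rfl
      simp [nrm] at hu1
    have h := hG L w F r hF u hu0 8
    set P : ℝ := (d : ℝ) ^ 8 with hP
    have hP0 : 0 < P := by positivity
    have hP1 : 1 ≤ P := one_le_pow₀ (by linarith)
    have hkk : EE w F d r 8 8 = ta d r * (1 - 1 / P) + 2 * (Ssup w (F^[8]) / P) := by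
      rw [C4_le w F d r le_rfl, Nat.sub_self, C4_sg0]
      unfold sg
      ring
    have h1 : (Ssup w (F^[8]) - 1) / P ≤ log (nrm w (F^[8] u)) / P :=
      div_le_div_of_nonneg_right hu2 hP0.le
    have h2 : 2 * ((Ssup w (F^[8]) - 1) / P) - 2 * ((t - S + B2) / (P * (d - 1))) + ta d r ≤
        2 * Gr w F d u + ta d r := by linarith
    refine le_trans ?_ h2
    have h3 : 2 * ((Ssup w (F^[8]) - 1) / P) - 2 * ((t - S + B2) / (P * (d - 1))) + ta d r =
        EE w F d r 8 8 + (t / ((d : ℝ) * (d - 1))) / P - 2 / P - 2 * t / (P * (d - 1)) -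
          2 * B2 / (P * (d - 1)) := by
      rw [hkk, ← htaS]
      field_simp
      ring
    rw [h3]
    have h4 : 0 ≤ (t / ((d : ℝ) * (d - 1))) / P := by positivity
    have h5 : 2 / P ≤ 2 := div_le_self (by norm_num) hP1
    have h6 : 2 * B2 / (P * (d - 1)) ≤ 2 * B2 := by
      apply div_le_self (by positivity)
      nlinarith
    have h7 : 2 * t / (P * (d - 1)) ≤ t / (24 * (d : ℝ) ^ 2) := by
      rw [div_le_div_iff₀ (by positivity) (by positivity)]
      have h64 : (64 : ℝ) ≤ (d : ℝ) ^ 6 := by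
        calc (64 : ℝ) = 2 ^ 6 := by norm_num
          _ ≤ (d : ℝ) ^ 6 := by gcongr
      have e : P = (d : ℝ) ^ 6 * (d : ℝ) ^ 2 := by rw [hP]; ring
      rw [e]
      have h8 : 2 * t * (24 * (d : ℝ) ^ 2) = t * (48 * (d : ℝ) ^ 2) := by ring
      rw [h8]
      apply mul_le_mul_of_nonneg_left _ hpos
      have h9 : (0 : ℝ) ≤ (d : ℝ) ^ 2 := by positivity
      nlinarith [mul_le_mul_of_nonneg_right h64 h9]
    have h8 : 1 / (24 * (d : ℝ) ^ 2) * t = t / (24 * (d : ℝ) ^ 2) := by ring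
    have h9 : t / (12 * (d : ℝ) ^ 2) = 2 * (t / (24 * (d : ℝ) ^ 2)) := by
      field_simp
      ring
    rw [h8]
    linarith

end Pool.Agent.TH450.PC
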