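import Pool.Agent.TH450.PC.B1
import Pool.Agent.TH450.PC.D1

/-!
# Change of coordinates (D2)
-/

set_option autoImplicit false

namespace Pool.Agent.TH450.PC

open Pool.Agent.H951R3.PB

open Real Filter Topology

universe u

namespace D2

variable {L : Type u} [Field L]

theorem coo_emb {a b : Fin 2 → L} (hab : wd a b ≠ 0) (x : Fin 2 → L) :
    coo a b (emb a b x) = x := by
  have h : a 0 * b 1 - a 1 * b 0 ≠ 0 := hab
  funext i
  fin_cases i
  · show wd (emb a b x) b / wd a b = x 0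
    simp only [wd, emb, Pi.add_apply, Pi.smul_apply, smul_eq_mul]
    rw [div_eq_iff h]; ring
  · show wd a (emb a b x) / wd a b = x 1
    simp only [wd, emb, Pi.add_apply, Pi.smul_apply, smul_eq_mul]
    rw [div_eq_iff h]; ring

theorem emb_coo {a b : Fin 2 → L} (hab : wd a b ≠ 0) (y : Fin 2 → L) :
    emb a b (coo a b y) = y := by
  have h : a 0 * b 1 - a 1 * b 0 ≠ 0 := hab
  funext i
  fin_cases i
  · show (wd y b / wd a b) * a 0 + (wd a y / wd a b) * b 0 = y 0
    simp only [wd]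
    rw [div_mul_eq_mul_div, div_mul_eq_mul_div, ← add_div, div_eq_iff h]; ring
  · show (wd y b / wd a b) * a 1 + (wd a y / wd a b) * b 1 = y 1
    simp only [wd]
    rw [div_mul_eq_mul_div, div_mul_eq_mul_div, ← add_div, div_eq_iff h]; ring

theorem wd_emb (a b x y : Fin 2 → L) : wd (emb a b x) (emb a b y) = wd a b * wd x y := by
  simp only [wd, emb, Pi.add_apply, Pi.smul_apply, smul_eq_mul]; ring

theorem wd_coo (a b u y : Fin 2 → L) : wd u (coo a b y) = wd (emb a b u) y / wd a b := by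
  simp only [wd, emb, coo, Pi.add_apply, Pi.smul_apply, smul_eq_mul, Matrix.cons_val_zero,
    Matrix.cons_val_one]
  ring

theorem emb_smul (a b : Fin 2 → L) (c : L) (x : Fin 2 → L) :
    emb a b (c • x) = c • emb a b x := by
  funext i
  simp only [emb, Pi.add_apply, Pi.smul_apply, smul_eq_mul]; ring

theorem coo_smul (a b : Fin 2 → L) (c : L) (x : Fin 2 → L) :
    coo a b (c • x) = c • coo a b x := by
  funext i
  fin_cases i
  · show wd (c • x) b / wd a b = c * (wd x b / wd a b)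
    rw [B1_wd_smul_left, mul_div_assoc]
  · show wd a (c • x) / wd a b = c * (wd a x / wd a b)
    rw [B1_wd_smul_right, mul_div_assoc]

theorem emb_ne {a b : Fin 2 → L} (hab : wd a b ≠ 0) {x : Fin 2 → L} (hx : x ≠ 0) :
    emb a b x ≠ 0 := by
  intro h
  apply hx
  rw [← coo_emb hab x, h]
  funext i
  fin_cases i
  · show wd 0 b / wd a b = 0
    simp [wd]
  · show wd a 0 / wd a b = 0
    simp [wd]

theorem coo_ne {a b : Fin 2 → L} (hab : wd a b ≠ 0) {x : Fin 2 → L} (hx : x ≠ 0) :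
    coo a b x ≠ 0 := by
  intro h
  apply hx
  rw [← emb_coo hab x, h]
  funext i
  simp [emb]

theorem unit_of (w : AbsoluteValue L ℝ) {x : Fin 2 → L} (hx : x ≠ 0) :
    ∃ (k : L) (y : Fin 2 → L), k ≠ 0 ∧ nrm w y = 1 ∧ x = k • y := by
  obtain ⟨k, hk⟩ : ∃ k : L, w k = nrm w x := by
    rcases le_total (w (x 0)) (w (x 1)) with h | h
    · exact ⟨x 1, by simp [nrm, h]⟩
    · exact ⟨x 0, by simp [nrm, h]⟩
  have hk0 : k ≠ 0 := by
    rintro rfl
    rw [map_zero] at hk
    exact (B1_nrm_pos w hx).ne hk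
  refine ⟨k, k⁻¹ • x, hk0, ?_, ?_⟩
  · rw [B1_nrm_smul, map_inv₀, ← hk]
    exact inv_mul_cancel₀ ((w.ne_zero_iff).2 hk0)
  · rw [smul_smul, mul_inv_cancel₀ hk0, one_smul]

theorem logmul (w : AbsoluteValue L ℝ) {a b : L} (ha : a ≠ 0) (hb : b ≠ 0) :
    log (w (a * b)) = log (w a) + log (w b) := by
  rw [map_mul, log_mul ((w.ne_zero_iff).2 ha) ((w.ne_zero_iff).2 hb)]

theorem loginv (w : AbsoluteValue L ℝ) (a : L) : log (w a⁻¹) = -log (w a) := by
  rw [map_inv₀, log_inv]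

theorem logpow (w : AbsoluteValue L ℝ) (a : L) (n : ℕ) : log (w (a ^ n)) = n * log (w a) := by
  rw [map_pow, log_pow]

theorem wd_swap0 (x y : Fin 2 → L) (h : wd x y ≠ 0) : x ≠ 0 ∧ y ≠ 0 := by
  constructor
  · rintro rfl; exact h (by simp [wd])
  · rintro rfl; exact h (by simp [wd])

end D2

open D2

/-- D2 -/
theorem fib_cj {L : Type u} [Field L] {w : AbsoluteValue L ℝ} {F : (Fin 2 → L) → Fin 2 → L}
    {d : ℕ} {r : ℝ} (h : Fib w F d r) {a b : Fin 2 → L} (hab : wd a b ≠ 0) :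
    Fib w (cj a b F) d (cr w d r a b) := by
  intro u hu
  have hu0 : u ≠ 0 := B1_ne_zero hu
  obtain ⟨k, v, hk, hv, hev⟩ := unit_of w (emb_ne hab hu0)
  obtain ⟨C, z, hz⟩ := h v hv
  choose c hc hFc using hz.img
  have hz0 : ∀ j, coo a b (z j) ≠ 0 := fun j => coo_ne hab (B1_ne_zero (hz.unit j))
  choose κ y hκ hy hcz using fun j => unit_of w (hz0 j)
  have hey : ∀ j, emb a b (y j) = (κ j)⁻¹ • z j := by
    intro j
    have h1 : y j = (κ j)⁻¹ • coo a b (z j) := by
      rw [hcz, smul_smul, inv_mul_cancel₀ (hκ j), one_smul]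
    rw [h1, emb_smul, emb_coo hab]
  have hcv : coo a b v = k⁻¹ • u := by
    have h1 : v = k⁻¹ • emb a b u := by
      rw [hev, smul_smul, inv_mul_cancel₀ hk, one_smul]
    rw [h1, coo_smul, coo_emb hab]
  have hcjy : ∀ j, cj a b F (y j) = ((κ j)⁻¹ ^ d * c j * k⁻¹) • u := by
    intro j
    rw [cj, hey, fib_homog h, hFc, coo_smul, coo_smul, hcv, smul_smul, smul_smul, mul_assoc]
  have hne : ∀ j, (κ j)⁻¹ ^ d * c j * k⁻¹ ≠ 0 := fun j =>
    mul_ne_zero (mul_ne_zero (pow_ne_zero _ (inv_ne_zero (hκ j))) (hc j)) (inv_ne_zero hk)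
  refine ⟨(wd a b)⁻¹ * k * C * ∏ j, (wd a b * κ j), y, ?_, hy, ?_, ?_, ?_⟩
  · exact mul_ne_zero (mul_ne_zero (mul_ne_zero (inv_ne_zero hab) hk) hz.C_ne)
      (Finset.prod_ne_zero_iff.2 fun j _ => mul_ne_zero hab (hκ j))
  · intro x
    have h1 : ∀ j, wd (emb a b x) (z j) = wd a b * κ j * wd x (y j) := by
      intro j
      have h2 : z j = emb a b (κ j • y j) := by rw [← hcz, emb_coo hab]
      rw [h2, wd_emb, B1_wd_smul_right]; ring
    rw [cj, wd_coo, hev, B1_wd_smul_left, hz.fac]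
    simp only [h1, Finset.prod_mul_distrib]
    ring
  · intro j
    exact ⟨_, hne j, hcjy j⟩
  · have e1 : ∀ j, log (nrm w (cj a b F (y j))) =
        -(d * log (w (κ j))) + log (w (c j)) - log (w k) := by
      intro j
      rw [hcjy, B1_nrm_smul, hu, mul_one, logmul w (mul_ne_zero (pow_ne_zero _
        (inv_ne_zero (hκ j))) (hc j)) (inv_ne_zero hk), logmul w (pow_ne_zero _
        (inv_ne_zero (hκ j))) (hc j), logpow, loginv, loginv]
      ring
    have e2 : log (w ((wd a b)⁻¹ * k * C * ∏ j, (wd a b * κ j))) =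
        -log (w (wd a b)) + log (w k) + log (w C) + (d * log (w (wd a b)) +
          ∑ j, log (w (κ j))) := by
      rw [logmul w (mul_ne_zero (mul_ne_zero (inv_ne_zero hab) hk) hz.C_ne)
        (Finset.prod_ne_zero_iff.2 fun j _ => mul_ne_zero hab (hκ j)),
        logmul w (mul_ne_zero (inv_ne_zero hab) hk) hz.C_ne,
        logmul w (inv_ne_zero hab) hk, loginv, map_prod, log_prod]
      · simp only [logmul w hab (hκ _), Finset.sum_add_distrib, Finset.sum_const,
          Finset.card_univ, Fintype.card_fin, nsmul_eq_mul]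
      · intro j _
        exact (w.ne_zero_iff).2 (mul_ne_zero hab (hκ j))
    have e3 : ∀ j, log (nrm w (F (z j))) = log (w (c j)) := by
      intro j
      rw [hFc, B1_nrm_smul, hv, mul_one]
    have hres := hz.res
    simp only [e3] at hres
    simp only [e1]
    rw [e2]
    simp only [Finset.sum_add_distrib, Finset.sum_sub_distrib, Finset.sum_neg_distrib,
      Finset.sum_const, Finset.card_univ, Fintype.card_fin, nsmul_eq_mul, ← Finset.mul_sum, cr]
    linear_combination hres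

theorem D2.iter_cj {L : Type u} [Field L] (F : (Fin 2 → L) → Fin 2 → L)
    {a b : Fin 2 → L} (hab : wd a b ≠ 0) (n : ℕ) (x : Fin 2 → L) :
    (cj a b F)^[n] x = coo a b (F^[n] (emb a b x)) := by
  induction n with
  | zero => simp [coo_emb hab]
  | succ n ih =>
    rw [Function.iterate_succ_apply', ih, cj, emb_coo hab, ← Function.iterate_succ_apply' F]

theorem D2.nrm_coo_le {L : Type u} [Field L] (w : AbsoluteValue L ℝ)
    {a b : Fin 2 → L} (hab : wd a b ≠ 0) : ∃ K : ℝ, 0 < K ∧ ∀ y : Fin 2 → L,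
      nrm w (coo a b y) ≤ K * nrm w y := by
  have hw : 0 < w (wd a b) := w.pos hab
  have ha : a ≠ 0 := (wd_swap0 a b hab).1
  have hb : b ≠ 0 := (wd_swap0 a b hab).2
  have hab0 : 0 < nrm w a + nrm w b := add_pos (B1_nrm_pos w ha) (B1_nrm_pos w hb)
  have hwd : ∀ x y : Fin 2 → L, w (wd x y) ≤ 2 * (nrm w x * nrm w y) := by
    intro x y
    have h1 : w (wd x y) ≤ w (x 0 * y 1) + w (x 1 * y 0) := by
      simp only [wd]; rw [sub_eq_add_neg]
      refine (w.add_le _ _).trans ?_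
      rw [w.map_neg]
    have h0 : ∀ z : Fin 2 → L, w (z 0) ≤ nrm w z := fun z => le_max_left _ _
    have h0' : ∀ z : Fin 2 → L, w (z 1) ≤ nrm w z := fun z => le_max_right _ _
    have h2 : w (x 0) * w (y 1) ≤ nrm w x * nrm w y :=
      mul_le_mul (h0 x) (h0' y) (w.nonneg _) ((w.nonneg _).trans (h0 x))
    have h3 : w (x 1) * w (y 0) ≤ nrm w x * nrm w y :=
      mul_le_mul (h0' x) (h0 y) (w.nonneg _) ((w.nonneg _).trans (h0 x))
    rw [map_mul, map_mul] at h1
    linarith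
  refine ⟨2 * (nrm w a + nrm w b) / w (wd a b), by positivity, fun y => ?_⟩
  have hy : 0 ≤ nrm w y := (w.nonneg _).trans (le_max_left _ _)
  have ha' := (B1_nrm_pos w ha).le
  have hb' := (B1_nrm_pos w hb).le
  rw [div_mul_eq_mul_div, le_div_iff₀ hw]
  have h1 : nrm w (coo a b y) * w (wd a b) = max (w (wd y b)) (w (wd a y)) := by
    show max (w (wd y b / wd a b)) (w (wd a y / wd a b)) * w (wd a b) = _
    rw [max_mul_of_nonneg _ _ hw.le, map_div₀, map_div₀, div_mul_cancel₀ _ hw.ne',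
      div_mul_cancel₀ _ hw.ne']
  rw [h1]
  refine max_le ((hwd y b).trans ?_) ((hwd a y).trans ?_)
  · nlinarith
  · nlinarith

theorem D2.nrm_coo_ge {L : Type u} [Field L] (w : AbsoluteValue L ℝ)
    {a b : Fin 2 → L} (hab : wd a b ≠ 0) : ∃ K : ℝ, 0 < K ∧ ∀ y : Fin 2 → L,
      nrm w y ≤ K * nrm w (coo a b y) := by
  have ha : a ≠ 0 := (wd_swap0 a b hab).1
  have hb : b ≠ 0 := (wd_swap0 a b hab).2
  refine ⟨nrm w a + nrm w b, add_pos (B1_nrm_pos w ha) (B1_nrm_pos w hb), fun y => ?_⟩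
  have h0 : ∀ z : Fin 2 → L, w (z 0) ≤ nrm w z := fun z => le_max_left _ _
  have h0' : ∀ z : Fin 2 → L, w (z 1) ≤ nrm w z := fun z => le_max_right _ _
  have key : ∀ x : Fin 2 → L, nrm w (emb a b x) ≤ (nrm w a + nrm w b) * nrm w x := by
    intro x
    have hx : 0 ≤ nrm w x := (w.nonneg _).trans (h0 x)
    have ha' := (B1_nrm_pos w ha).le
    have hb' := (B1_nrm_pos w hb).le
    have h1 : ∀ i, w (emb a b x i) ≤ w (x 0) * w (a i) + w (x 1) * w (b i) := by
      intro i
      simp only [emb, Pi.add_apply, Pi.smul_apply, smul_eq_mul]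
      refine (w.add_le _ _).trans ?_
      rw [map_mul, map_mul]
    refine max_le ((h1 0).trans ?_) ((h1 1).trans ?_)
    · have h2 : w (x 0) * w (a 0) ≤ nrm w x * nrm w a :=
        mul_le_mul (h0 x) (h0 a) (w.nonneg _) hx
      have h3 : w (x 1) * w (b 0) ≤ nrm w x * nrm w b :=
        mul_le_mul (h0' x) (h0 b) (w.nonneg _) hx
      linarith
    · have h2 : w (x 0) * w (a 1) ≤ nrm w x * nrm w a :=
        mul_le_mul (h0 x) (h0' a) (w.nonneg _) hx
      have h3 : w (x 1) * w (b 1) ≤ nrm w x * nrm w b :=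
        mul_le_mul (h0' x) (h0' b) (w.nonneg _) hx
      linarith
  have := key (coo a b y)
  rwa [emb_coo hab] at this

/-- D2 -/
theorem gr_cj {L : Type u} [Field L] [IsAlgClosed L] {w : AbsoluteValue L ℝ}
    {F : (Fin 2 → L) → Fin 2 → L} {d : ℕ} (hd : 2 ≤ d) {r : ℝ} (h : Fib w F d r)
    {a b : Fin 2 → L} (hab : wd a b ≠ 0) {x : Fin 2 → L} (hx : x ≠ 0) :
    Gr w (cj a b F) d x = Gr w F d (emb a b x) := by
  have h1 := gr_tendsto hd (fib_cj h hab) hx
  have h2 := gr_tendsto hd h (emb_ne hab hx)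
  obtain ⟨K1, hK1, hle⟩ := nrm_coo_le w hab
  obtain ⟨K2, hK2, hge⟩ := nrm_coo_ge w hab
  have hne : ∀ n, F^[n] (emb a b x) ≠ 0 := by
    intro n
    exact fib_ne_zero (fib_iter h n) (emb_ne hab hx)
  have hdn : Tendsto (fun n : ℕ => ((d : ℝ) ^ n)⁻¹) atTop (𝓝 0) := by
    have hd1 : (1 : ℝ) < d := by exact_mod_cast (by omega : 1 < d)
    exact (tendsto_pow_atTop_atTop_of_one_lt hd1).inv_tendsto_atTop
  have h3 : Tendsto (fun n : ℕ => log (nrm w ((cj a b F)^[n] x)) / (d : ℝ) ^ n -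
      log (nrm w (F^[n] (emb a b x))) / (d : ℝ) ^ n) atTop (𝓝 0) := by
    have hup : ∀ n, log (nrm w ((cj a b F)^[n] x)) / (d : ℝ) ^ n -
      log (nrm w (F^[n] (emb a b x))) / (d : ℝ) ^ n ≤ log K1 * ((d : ℝ) ^ n)⁻¹ := by
      intro n
      have hpos := B1_nrm_pos w (hne n)
      have hpos' := B1_nrm_pos w (coo_ne hab (hne n))
      rw [iter_cj F hab, ← sub_div, div_eq_mul_inv]
      have hdp : (0 : ℝ) ≤ ((d : ℝ) ^ n)⁻¹ := by positivity
      refine mul_le_mul_of_nonneg_right ?_ hdp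
      have := Real.log_le_log hpos' (hle (F^[n] (emb a b x)))
      rw [log_mul hK1.ne' hpos.ne'] at this
      linarith
    have hlo : ∀ n, -log K2 * ((d : ℝ) ^ n)⁻¹ ≤ log (nrm w ((cj a b F)^[n] x)) / (d : ℝ) ^ n -
      log (nrm w (F^[n] (emb a b x))) / (d : ℝ) ^ n := by
      intro n
      have hpos := B1_nrm_pos w (hne n)
      have hpos' := B1_nrm_pos w (coo_ne hab (hne n))
      rw [iter_cj F hab, ← sub_div, div_eq_mul_inv]
      have hdp : (0 : ℝ) ≤ ((d : ℝ) ^ n)⁻¹ := by positivity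
      refine mul_le_mul_of_nonneg_right ?_ hdp
      have := Real.log_le_log hpos (hge (F^[n] (emb a b x)))
      rw [log_mul hK2.ne' hpos'.ne'] at this
      linarith
    refine tendsto_of_tendsto_of_tendsto_of_le_of_le ?_ ?_ hlo hup
    · simpa using hdn.const_mul (-log K2)
    · simpa using hdn.const_mul (log K1)
  have h4 := h1.sub h2
  have h5 := tendsto_nhds_unique h4 h3
  linarith

/-- D2 -/
theorem gg_cj {L : Type u} [Field L] [IsAlgClosed L] {w : AbsoluteValue L ℝ}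
    {F : (Fin 2 → L) → Fin 2 → L} {d : ℕ} (hd : 2 ≤ d) {r : ℝ} (h : Fib w F d r)
    {a b : Fin 2 → L} (hab : wd a b ≠ 0) {x y : Fin 2 → L} (hxy : wd x y ≠ 0) :
    gg w (cj a b F) d (cr w d r a b) x y = gg w F d r (emb a b x) (emb a b y) := by
  obtain ⟨hx, hy⟩ := wd_swap0 x y hxy
  rw [gg, gg, gr_cj hd h hab hx, gr_cj hd h hab hy, wd_emb, logmul w hab hxy, ta, ta, cr]
  have hd0 : (d : ℝ) ≠ 0 := by positivity
  have hd1 : (d : ℝ) - 1 ≠ 0 := by
    have : (2 : ℝ) ≤ d := by exact_mod_cast hd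
    linarith
  field_simp
  ring

/-- D2 -/
theorem gg_scale {L : Type u} [Field L] [IsAlgClosed L] {w : AbsoluteValue L ℝ}
    {F : (Fin 2 → L) → Fin 2 → L} {d : ℕ} (hd : 2 ≤ d) {r : ℝ} (h : Fib w F d r)
    {c : L} (hc : c ≠ 0) {x y : Fin 2 → L} (hxy : wd x y ≠ 0) :
    Fib w (fun z => c • F z) d (r + 2 * d * log (w c)) ∧
      gg w (fun z => c • F z) d (r + 2 * d * log (w c)) x y = gg w F d r x y := by
  have hfib : Fib w (fun z => c • F z) d (r + 2 * d * log (w c)) := by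
    intro u hu
    obtain ⟨C, z, hz⟩ := h u hu
    refine ⟨c * C, z, mul_ne_zero hc hz.C_ne, hz.unit, ?_, ?_, ?_⟩
    · intro t
      rw [B1_wd_smul_right, hz.fac, mul_assoc]
    · intro j
      obtain ⟨e, he, hFe⟩ := hz.img j
      exact ⟨c * e, mul_ne_zero hc he, by rw [hFe, smul_smul]⟩
    · have e1 : ∀ j, log (nrm w (c • F (z j))) = log (w c) + log (nrm w (F (z j))) := by
        intro j
        obtain ⟨e, he, hFe⟩ := hz.img j
        rw [hFe, smul_smul, B1_nrm_smul, B1_nrm_smul, hu, mul_one, mul_one, logmul w hc he]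
      simp only [e1]
      rw [logmul w hc hz.C_ne, Finset.sum_add_distrib]
      simp only [Finset.sum_const, Finset.card_univ, Fintype.card_fin, nsmul_eq_mul]
      linear_combination hz.res
  refine ⟨hfib, ?_⟩
  have hd0 : (d : ℝ) ≠ 0 := by positivity
  have hd2 : (2 : ℝ) ≤ d := by exact_mod_cast hd
  have hd1 : (d : ℝ) - 1 ≠ 0 := by linarith
  -- iterates
  have hit : ∀ (n : ℕ) (v : Fin 2 → L), v ≠ 0 →
      log (nrm w ((fun z => c • F z)^[n] v)) =
        ((d : ℝ) ^ n - 1) / (d - 1) * log (w c) + log (nrm w (F^[n] v)) := by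
    intro n v hv
    have key : ∀ n : ℕ, ∃ e : L, e ≠ 0 ∧ (fun z => c • F z)^[n] v = e • F^[n] v ∧
        log (w e) = ((d : ℝ) ^ n - 1) / (d - 1) * log (w c) := by
      intro n
      induction n with
      | zero => exact ⟨1, one_ne_zero, by simp, by simp⟩
      | succ n ih =>
        obtain ⟨e, he, h1, h2⟩ := ih
        refine ⟨c * e ^ d, mul_ne_zero hc (pow_ne_zero _ he), ?_, ?_⟩
        · rw [Function.iterate_succ_apply', h1, Function.iterate_succ_apply']
          show c • F (e • F^[n] v) = _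
          rw [fib_homog h, smul_smul]
        · rw [logmul w hc (pow_ne_zero _ he), logpow, h2]
          field_simp
          ring
    obtain ⟨e, he, h1, h2⟩ := key n
    have hne : F^[n] v ≠ 0 := fib_ne_zero (fib_iter h n) hv
    rw [h1, B1_nrm_smul, log_mul ((w.ne_zero_iff).2 he) (B1_nrm_pos w hne).ne', h2]
  have hgr : ∀ v : Fin 2 → L, v ≠ 0 →
      Gr w (fun z => c • F z) d v = Gr w F d v + log (w c) / (d - 1) := by
    intro v hv
    have h1 := gr_tendsto hd hfib hv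
    have h2 := gr_tendsto hd h hv
    have hdn : Tendsto (fun n : ℕ => ((d : ℝ) ^ n)⁻¹) atTop (𝓝 0) := by
      have hd1 : (1 : ℝ) < d := by linarith
      exact (tendsto_pow_atTop_atTop_of_one_lt hd1).inv_tendsto_atTop
    have h3 : Tendsto (fun n : ℕ => log (nrm w (F^[n] v)) / (d : ℝ) ^ n +
        (1 - ((d : ℝ) ^ n)⁻¹) * (log (w c) / (d - 1))) atTop
        (𝓝 (Gr w F d v + (1 - 0) * (log (w c) / (d - 1)))) :=
      h2.add ((tendsto_const_nhds.sub hdn).mul_const _)
    have h4 : (fun n : ℕ => log (nrm w ((fun z => c • F z)^[n] v)) / (d : ℝ) ^ n) =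
        fun n : ℕ => log (nrm w (F^[n] v)) / (d : ℝ) ^ n +
        (1 - ((d : ℝ) ^ n)⁻¹) * (log (w c) / (d - 1)) := by
      funext n
      rw [hit n v hv]
      have : (d : ℝ) ^ n ≠ 0 := pow_ne_zero _ hd0
      field_simp
      ring
    rw [h4] at h1
    have := tendsto_nhds_unique h1 h3
    rw [this]; ring
  obtain ⟨hx, hy⟩ := wd_swap0 x y hxy
  rw [gg, gg, hgr x hx, hgr y hy, ta, ta]
  field_simp
  ring

end Pool.Agent.TH450.PC
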