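import Pool.Agent.H951R3.PB.Defs
import Pool.Agent.TH450.PC.B3
import Pool.Agent.TH450.PC.D2

set_option autoImplicit false

namespace Pool.Agent.TH450.PC

open Pool.Agent.H951R3.PB

open Real Filter Topology

universe u

theorem bddBelow_tt (d : ℕ) (hd : 2 ≤ d) : ∃ B : ℝ, 0 ≤ B ∧ ∀ (L : Type u) [Field L]
    [IsAlgClosed L] (w : AbsoluteValue L ℝ) (F : (Fin 2 → L) → Fin 2 → L) (r : ℝ),
    Fib w F d r → ∀ p : {p : (Fin 2 → L) × (Fin 2 → L) // wd p.1 p.2 ≠ 0},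
      -B ≤ tt w (cj p.1.1 p.1.2 F) d (cr w d r p.1.1 p.1.2) := by
  obtain ⟨B, hB, h⟩ := tt_ge.{u} d hd
  exact ⟨B, hB, fun L _ _ w F r hF p => h L w _ _ (fib_cj hF p.2)⟩

/-- D3 -/
theorem mm_le {L : Type u} [Field L] [IsAlgClosed L] {w : AbsoluteValue L ℝ}
    {F : (Fin 2 → L) → Fin 2 → L} {d : ℕ} (hd : 2 ≤ d) {r : ℝ} (h : Fib w F d r)
    {a b : Fin 2 → L} (hab : wd a b ≠ 0) :
    mm w F d r ≤ tt w (cj a b F) d (cr w d r a b) := by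
  obtain ⟨B, -, hB⟩ := bddBelow_tt.{u} d hd
  have hbb : BddBelow (Set.range fun p : {p : (Fin 2 → L) × (Fin 2 → L) // wd p.1 p.2 ≠ 0} =>
      tt w (cj p.1.1 p.1.2 F) d (cr w d r p.1.1 p.1.2)) := by
    refine ⟨-B, ?_⟩
    rintro _ ⟨p, rfl⟩
    exact hB L w F r h p
  exact ciInf_le hbb ⟨(a, b), hab⟩

instance nonempty_frames {L : Type u} [Field L] :
    Nonempty {p : (Fin 2 → L) × (Fin 2 → L) // wd p.1 p.2 ≠ 0} :=
  ⟨⟨(![1, 0], ![0, 1]), by simp [wd]⟩⟩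

/-- D3 -/
theorem exists_mm {L : Type u} [Field L] [IsAlgClosed L] {w : AbsoluteValue L ℝ}
    {F : (Fin 2 → L) → Fin 2 → L} {d : ℕ} (_hd : 2 ≤ d) {r : ℝ} (_h : Fib w F d r) :
    ∃ a b : Fin 2 → L, wd a b ≠ 0 ∧ tt w (cj a b F) d (cr w d r a b) ≤ mm w F d r + 1 := by
  obtain ⟨p, hp⟩ := exists_lt_of_ciInf_lt
    (f := fun p : {p : (Fin 2 → L) × (Fin 2 → L) // wd p.1 p.2 ≠ 0} =>
      tt w (cj p.1.1 p.1.2 F) d (cr w d r p.1.1 p.1.2))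
    (a := mm w F d r + 1) (by unfold mm; linarith)
  exact ⟨p.1.1, p.1.2, p.2, hp.le⟩

/-- D3 -/
theorem mm_ge (d : ℕ) (hd : 2 ≤ d) : ∃ B : ℝ, 0 ≤ B ∧ ∀ (L : Type u) [Field L]
    [IsAlgClosed L] (w : AbsoluteValue L ℝ) (F : (Fin 2 → L) → Fin 2 → L) (r : ℝ),
    Fib w F d r → -B ≤ mm w F d r := by
  obtain ⟨B, hB0, hB⟩ := bddBelow_tt.{u} d hd
  refine ⟨B, hB0, fun L _ _ w F r h => ?_⟩
  exact le_ciInf fun p => hB L w F r h p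

end Pool.Agent.TH450.PC
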