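import Pool.Agent.H951R3.PB.Defs
import Pool.Agent.TH450.PC.C4
import Pool.Agent.TH450.PC.D1
import Pool.Agent.TH450.PC.D2
import Pool.Agent.TH450.PC.D3
import Pool.Agent.TH450.PC.D4

/-! D5: points in the same cell repel. -/

set_option autoImplicit false

namespace Pool.Agent.TH450.PC

open Pool.Agent.H951R3.PB

open Real Filter Topology

universe u

namespace D5aux

section alg

variable {L : Type u} [Field L]

lemma wd_emb (a b x y : Fin 2 → L) : wd (emb a b x) (emb a b y) = wd a b * wd x y := by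
  simp only [wd, emb, Pi.add_apply, Pi.smul_apply, smul_eq_mul]
  ring

lemma coo_emb {a b : Fin 2 → L} (hab : wd a b ≠ 0) (x : Fin 2 → L) :
    coo a b (emb a b x) = x := by
  have h0 : wd (emb a b x) b = x 0 * wd a b := by
    simp only [wd, emb, Pi.add_apply, Pi.smul_apply, smul_eq_mul]; ring
  have h1 : wd a (emb a b x) = x 1 * wd a b := by
    simp only [wd, emb, Pi.add_apply, Pi.smul_apply, smul_eq_mul]; ring
  funext i
  unfold coo
  rw [h0, h1]
  fin_cases i
  · simp only [Fin.zero_eta, Matrix.cons_val_zero]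
    exact mul_div_cancel_right₀ _ hab
  · simp only [Fin.mk_one, Matrix.cons_val_one, Matrix.cons_val_fin_one]
    exact mul_div_cancel_right₀ _ hab

lemma emb_coo {a b : Fin 2 → L} (hab : wd a b ≠ 0) (y : Fin 2 → L) :
    emb a b (coo a b y) = y := by
  funext i
  unfold coo emb
  simp only [Matrix.cons_val_zero, Matrix.cons_val_one, Pi.add_apply, Pi.smul_apply, smul_eq_mul]
  rw [div_mul_eq_mul_div, div_mul_eq_mul_div, ← add_div, div_eq_iff hab]
  fin_cases i
  · simp only [wd, Fin.zero_eta]; ring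
  · simp only [wd, Fin.mk_one]; ring

lemma coo_coo {a b : Fin 2 → L} (hab : wd a b ≠ 0) {x y : Fin 2 → L} (v : Fin 2 → L) :
    coo x y (coo a b v) = coo (emb a b x) (emb a b y) v := by
  have h0 : wd v (emb a b y) = wd a b * wd (coo a b v) y := by
    conv_lhs => rw [← emb_coo hab v]
    exact wd_emb _ _ _ _
  have h1 : wd (emb a b x) v = wd a b * wd x (coo a b v) := by
    conv_lhs => rw [← emb_coo hab v]
    exact wd_emb _ _ _ _
  conv_rhs => unfold coo
  rw [h0, h1, wd_emb, mul_div_mul_left _ _ hab, mul_div_mul_left _ _ hab]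
  rfl

lemma emb_emb (a b x y v : Fin 2 → L) : emb a b (emb x y v) = emb (emb a b x) (emb a b y) v := by
  funext i
  simp only [emb, Pi.add_apply, Pi.smul_apply, smul_eq_mul]
  ring

lemma cj_cj {a b : Fin 2 → L} (hab : wd a b ≠ 0) (x y : Fin 2 → L)
    (F : (Fin 2 → L) → Fin 2 → L) :
    cj x y (cj a b F) = cj (emb a b x) (emb a b y) F := by
  funext v
  unfold cj
  rw [coo_coo hab, emb_emb]

lemma cr_cr (w : AbsoluteValue L ℝ) (d : ℕ) (r : ℝ) {a b x y : Fin 2 → L} (hab : wd a b ≠ 0)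
    (hxy : wd x y ≠ 0) :
    cr w d (cr w d r a b) x y = cr w d r (emb a b x) (emb a b y) := by
  unfold cr
  rw [wd_emb, map_mul, log_mul (w.ne_zero hab) (w.ne_zero hxy)]
  ring

/-- a multiple which is a unit vector -/
noncomputable def nz (w : AbsoluteValue L ℝ) (v : Fin 2 → L) : L :=
  open Classical in if w (v 1) ≤ w (v 0) then (v 0)⁻¹ else (v 1)⁻¹

lemma nz_spec (w : AbsoluteValue L ℝ) {v : Fin 2 → L} (hv : v ≠ 0) :
    nz w v ≠ 0 ∧ nrm w (nz w v • v) = 1 := by
  have hv' : v 0 ≠ 0 ∨ v 1 ≠ 0 := by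
    by_contra hcon
    push Not at hcon
    apply hv
    funext i
    fin_cases i
    · exact hcon.1
    · exact hcon.2
  unfold nz
  split_ifs with h
  · have h0 : v 0 ≠ 0 := by
      intro h0
      rcases hv' with h1 | h1
      · exact h1 h0
      · rw [h0, map_zero] at h
        exact h1 (w.eq_zero.1 (le_antisymm h (w.nonneg _)))
    have hw0 : 0 < w (v 0) := w.pos h0
    refine ⟨inv_ne_zero h0, ?_⟩
    unfold nrm
    simp only [Pi.smul_apply, smul_eq_mul, map_mul]
    rw [map_inv₀, inv_mul_cancel₀ hw0.ne', max_eq_left]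
    rw [inv_mul_le_iff₀ hw0, mul_one]
    exact h
  · push Not at h
    have hw1 : 0 < w (v 1) := lt_of_le_of_lt (w.nonneg _) h
    have h1 : v 1 ≠ 0 := fun h1 => by rw [h1, map_zero] at hw1; exact lt_irrefl _ hw1
    refine ⟨inv_ne_zero h1, ?_⟩
    unfold nrm
    simp only [Pi.smul_apply, smul_eq_mul, map_mul]
    rw [map_inv₀, inv_mul_cancel₀ hw1.ne', max_eq_right]
    rw [inv_mul_le_iff₀ hw1, mul_one]
    exact h.le

lemma wd_smul (a b : L) (x y : Fin 2 → L) : wd (a • x) (b • y) = a * b * wd x y := by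
  simp only [wd, Pi.smul_apply, smul_eq_mul]
  ring

lemma ne_of_wd {x y : Fin 2 → L} (h : wd x y ≠ 0) : x ≠ 0 ∧ y ≠ 0 := by
  constructor
  · rintro rfl
    apply h
    simp [wd]
  · rintro rfl
    apply h
    simp [wd]

end alg

lemma gg_smul {L : Type u} [Field L] [IsAlgClosed L] {w : AbsoluteValue L ℝ}
    {F : (Fin 2 → L) → Fin 2 → L} {d : ℕ} (hd : 2 ≤ d) {r : ℝ} (h : Fib w F d r)
    {x y : Fin 2 → L} (hxy : wd x y ≠ 0) {a b : L} (ha : a ≠ 0) (hb : b ≠ 0) :
    gg w F d r (a • x) (b • y) = gg w F d r x y := by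
  obtain ⟨hx, hy⟩ := ne_of_wd hxy
  unfold gg
  rw [gr_smul hd h hx ha, gr_smul hd h hy hb, wd_smul, map_mul, map_mul,
    log_mul (mul_ne_zero (w.ne_zero ha) (w.ne_zero hb)) (w.ne_zero hxy),
    log_mul (w.ne_zero ha) (w.ne_zero hb)]
  ring

end D5aux

open D5aux

/-- D5: points in the same cell repel -/
theorem gain (d : ℕ) (hd : 2 ≤ d) : ∃ (M : ℕ) (c B : ℝ), 0 < c ∧ 0 ≤ B ∧
    ∀ (L : Type u) [Field L] [IsAlgClosed L] (w : AbsoluteValue L ℝ)
      (F : (Fin 2 → L) → Fin 2 → L) (r : ℝ), Fib w F d r →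
    ∃ cell : (Fin 2 → L) → Fin M, ∀ x y, wd x y ≠ 0 → cell x = cell y →
      c * mm w F d r - B ≤ gg w F d r x y := by
  obtain ⟨c0, B0, hc0, hB0, hcap⟩ := capacity.{u} d hd
  obtain ⟨M, B1, hB1, hcells⟩ := cells.{u} d hd (c0 / 4) (by positivity)
  obtain ⟨B2, hB2, hmm⟩ := mm_ge.{u} d hd
  refine ⟨M, c0 / 2, B0 + c0 / 2 * (1 + B2) + 2 * B1, by positivity, by positivity, ?_⟩
  intro L _ _ w F r h
  obtain ⟨a, b, hab, ht1⟩ := exists_mm hd h
  have h' : Fib w (cj a b F) d (cr w d r a b) := fib_cj h hab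
  set F' := cj a b F with hF'
  set r' := cr w d r a b with hr'
  obtain ⟨cell', hcell'⟩ := hcells L w F' r' h'
  refine ⟨fun x => cell' (nz w (coo a b x) • coo a b x), ?_⟩
  intro x y hxy hcell
  simp only at hcell
  set x1 := coo a b x with hx1
  set y1 := coo a b y with hy1
  have hex : emb a b x1 = x := emb_coo hab x
  have hey : emb a b y1 = y := emb_coo hab y
  have hxy1 : wd x1 y1 ≠ 0 := by
    intro h0
    apply hxy
    rw [← hex, ← hey, wd_emb, h0, mul_zero]
  obtain ⟨hx0, hy0⟩ := ne_of_wd hxy1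
  obtain ⟨hkx, hux⟩ := nz_spec w hx0
  obtain ⟨hky, huy⟩ := nz_spec w hy0
  have hgg : gg w F d r x y = gg w F' d r' (nz w x1 • x1) (nz w y1 • y1) := by
    rw [gg_smul hd h' hxy1 hkx hky, hF', hr', gg_cj hd h hab hxy1, hex, hey]
  rw [hgg]
  have hXY : wd (nz w x1 • x1) (nz w y1 • y1) ≠ 0 := by
    rw [wd_smul]
    exact mul_ne_zero (mul_ne_zero hkx hky) hxy1
  set X := nz w x1 • x1 with hX
  set Y := nz w y1 • y1 with hY
  have h'' : Fib w (cj X Y F') d (cr w d r' X Y) := fib_cj h' hXY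
  obtain ⟨u, hu, hcapu⟩ := hcap L w (cj X Y F') (cr w d r' X Y) h''
  have hu0 : u ≠ 0 := by
    rintro rfl
    simp [nrm] at hu
  rw [gr_cj hd h' hXY hu0] at hcapu
  have hemb0 : emb X Y u ≠ 0 := by
    intro h0
    apply hu0
    rw [← coo_emb hXY u, h0]
    funext i
    unfold coo
    fin_cases i <;> simp [wd]
  have hw0 : w (u 0) ≤ 1 := by rw [← hu]; exact le_max_left _ _
  have hw1 : w (u 1) ≤ 1 := by rw [← hu]; exact le_max_right _ _
  have g1 := hcell' X Y hux huy hcell (u 0) (u 1) hw0 hw1 hemb0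
  have g2 := hcell' Y X huy hux hcell.symm (u 1) (u 0) hw1 hw0 (by
    rw [add_comm]; exact hemb0)
  rw [add_comm (u 1 • Y)] at g2
  have hemb : emb X Y u = u 0 • X + u 1 • Y := rfl
  rw [← hemb] at g1 g2
  have hta : ta d (cr w d r' X Y) = ta d r' - log (w (wd X Y)) := by
    unfold ta cr
    have hd0 : (0 : ℝ) < d := by exact_mod_cast (by omega : 0 < d)
    have hd1 : (0 : ℝ) < (d : ℝ) - 1 := by
      have : (2 : ℝ) ≤ d := by exact_mod_cast hd
      linarith
    field_simp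
    ring
  have htt : tt w (cj X Y F') d (cr w d r' X Y) ≥ mm w F d r := by
    rw [hF', hr', cj_cj hab, cr_cr w d r hab hXY]
    apply mm_le hd h
    rw [wd_emb]
    exact mul_ne_zero hab hXY
  have hmm' : -B2 ≤ mm w F d r := hmm L w F r h
  have hmax : max (tt w F' d r') 0 ≤ mm w F d r + 1 + B2 := by
    apply max_le
    · linarith
    · linarith
  have e1 : c0 / 4 * max (tt w F' d r') 0 ≤ c0 / 4 * (mm w F d r + 1 + B2) :=
    mul_le_mul_of_nonneg_left hmax (by positivity)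
  have e2 : c0 * mm w F d r ≤ c0 * tt w (cj X Y F') d (cr w d r' X Y) :=
    mul_le_mul_of_nonneg_left htt hc0.le
  rw [hta] at hcapu
  unfold gg
  linarith

end Pool.Agent.TH450.PC
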