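import Pool.Agent.H951R3.PB.Defs

/-!
# E2: fibre data of a pair of binary forms (helper41, project PB of helper951)
-/

set_option autoImplicit false

namespace Pool.Agent.TH450.PC

open Pool.Agent.H951R3.PB

open Polynomial

universe u

namespace E2x

/-- multiplicativity of the resultant with degree bounds -/
theorem res_mul {K : Type u} [Field K] (f₁ f₂ g : K[X]) {m₁ m₂ n : ℕ} (h₁ : f₁.natDegree ≤ m₁)
    (h₂ : f₂.natDegree ≤ m₂) (hg : g.natDegree ≤ n) :
    resultant (f₁ * f₂) g (m₁ + m₂) n = resultant f₁ g m₁ n * resultant f₂ g m₂ n := by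
  rcases Nat.eq_zero_or_pos n with hn | hn
  · subst hn
    simp [pow_add]
  rcases eq_or_ne f₁ 0 with h | h
  · subst h
    rw [zero_mul]
    simp [zero_pow hn.ne']
  rcases eq_or_ne f₂ 0 with h' | h'
  · subst h'
    rw [mul_zero]
    simp [zero_pow hn.ne']
  obtain ⟨k₁, rfl⟩ := Nat.exists_eq_add_of_le h₁
  obtain ⟨k₂, rfl⟩ := Nat.exists_eq_add_of_le h₂
  rw [resultant_add_left_deg _ _ _ _ _ le_rfl, resultant_add_left_deg _ _ _ _ _ le_rfl]
  have e : f₁.natDegree + k₁ + (f₂.natDegree + k₂) = (f₁.natDegree + f₂.natDegree) + (k₁ + k₂) := by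
    ring
  rw [e, resultant_add_left_deg _ _ _ _ _ (natDegree_mul_le), resultant_mul_left _ _ _ _ hg]
  ring

/-- linear factors -/
theorem res_lin {K : Type u} [Field K] (a b : K) (g : K[X]) {n : ℕ} (hg : g.natDegree ≤ n) :
    resultant (C a * X - C b) g 1 n = MvPolynomial.eval ![b, a] (g.homogenize n) := by
  rcases eq_or_ne a 0 with h | h
  · subst h
    have e : (C (0 : K) * X - C b) = C (-b) := by simp
    rw [e, resultant_C_left]
    have : MvPolynomial.eval ![b, 0] (g.homogenize n) = g.coeff n * b ^ n := by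
      simp only [homogenize, MvPolynomial.eval_sum]
      rw [Finset.sum_eq_single (n, 0)]
      · rw [MvPolynomial.eval_monomial, Finsupp.update_eq_add_single (by simp)]
        rw [Finsupp.prod_add_index' (by simp) (by intros; simp [pow_add])]
        simp
      · rintro ⟨i, j⟩ hij hne
        have hj : j ≠ 0 := by
          intro hj
          subst hj
          simp at hij
          exact hne (by simp [hij])
        rw [MvPolynomial.eval_monomial, Finsupp.update_eq_add_single (by simp)]
        rw [Finsupp.prod_add_index' (by simp) (by intros; simp [pow_add])]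
        simp [hj]
      · intro hh
        exact absurd (by simp) hh
    rw [this]
    rw [one_mul, pow_one]
    rw [neg_pow b n]
    have : ((-1 : K) ^ n) * (-1) ^ n = 1 := by
      rw [← mul_pow]; simp
    calc (-1 : K) ^ n * g.coeff n * ((-1) ^ n * b ^ n)
        = ((-1 : K) ^ n * (-1) ^ n) * (g.coeff n * b ^ n) := by ring
      _ = _ := by rw [this, one_mul]
  · have e : (C a * X - C b) = C a * (X - C (b / a)) := by
      rw [mul_sub, ← C_mul, mul_div_cancel₀ _ h]
    rw [e, resultant_C_mul_left, resultant_X_sub_C_left _ _ _ hg, eval_homogenize hg _ (by simpa)]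
    simp [mul_comm]

theorem res_prod {K : Type u} [Field K] {d : ℕ} (z : Fin d → Fin 2 → K) (g : K[X]) {n : ℕ}
    (hg : g.natDegree ≤ n) :
    resultant (∏ j, (C (z j 1) * X - C (z j 0))) g d n =
      ∏ j, MvPolynomial.eval (z j) (g.homogenize n) := by
  induction d with
  | zero => simp
  | succ d ih =>
    have e : ∀ A B : K[X], A.natDegree ≤ 1 → B.natDegree ≤ d →
        resultant (A * B) g (d + 1) n = resultant A g 1 n * resultant B g d n := by
      intro A B hA hB
      have := res_mul A B g hA hB hg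
      rwa [Nat.add_comm 1 d] at this
    rw [Fin.prod_univ_succ, Fin.prod_univ_succ, e, res_lin _ _ _ hg, ih]
    · have hz : (![z 0 0, z 0 1] : Fin 2 → K) = z 0 := by
        ext i
        fin_cases i <;> rfl
      rw [hz]
    · refine (natDegree_sub_le _ _).trans ?_
      simp
      exact (natDegree_C_mul_le _ _).trans natDegree_X_le
    · refine (natDegree_prod_le _ _).trans ?_
      calc _ ≤ ∑ _j : Fin d, 1 := by
            refine Finset.sum_le_sum fun j _ => ?_
            refine (natDegree_sub_le _ _).trans ?_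
            simp
            exact (natDegree_C_mul_le _ _).trans natDegree_X_le
        _ = d := by simp

/-- factorisation into linear forms with unit vectors -/
theorem exists_fac {L : Type u} [Field L] [IsAlgClosed L] (w : AbsoluteValue L ℝ) (d : ℕ)
    (h : L[X]) (hd : h.natDegree ≤ d) (h0 : h ≠ 0) :
    ∃ (c : L) (z : Fin d → Fin 2 → L), c ≠ 0 ∧ (∀ j, nrm w (z j) = 1) ∧
      h = C c * ∏ j, (C (z j 1) * X - C (z j 0)) := by
  induction d generalizing h with
  | zero =>
    obtain ⟨c, rfl⟩ := natDegree_eq_zero.mp (Nat.le_zero.mp hd)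
    refine ⟨c, fun j => j.elim0, by simpa using h0, fun j => j.elim0, by simp⟩
  | succ d ih =>
    rcases Nat.lt_or_ge d h.natDegree with hlt | hge
    · have hdeg : h.degree ≠ 0 := by
        intro hh
        have := natDegree_eq_zero_iff_degree_le_zero.mpr hh.le
        omega
      obtain ⟨a, ha⟩ := IsAlgClosed.exists_root h hdeg
      obtain ⟨h', rfl⟩ := dvd_iff_isRoot.mpr ha
      have h'0 : h' ≠ 0 := right_ne_zero_of_mul h0
      have hX : (X - C a : L[X]) ≠ 0 := X_sub_C_ne_zero a
      have hnd : h'.natDegree ≤ d := by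
        rw [natDegree_mul hX h'0, natDegree_X_sub_C] at hd
        omega
      obtain ⟨c, z, hc, hz, e⟩ := ih h' hnd h'0
      by_cases hwa : w a ≤ 1
      · refine ⟨c, Fin.cons ![a, 1] z, hc, ?_, ?_⟩
        · intro j
          refine Fin.cases ?_ (fun j => ?_) j
          · simp [nrm, hwa]
          · simpa using hz j
        · rw [Fin.prod_univ_succ]
          simp only [Fin.cons_zero, Fin.cons_succ]
          rw [e]
          simp
          ring
      · push Not at hwa
        have ha0 : a ≠ 0 := by
          intro hh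
          subst hh
          simp at hwa
          linarith
        refine ⟨a * c, Fin.cons ![1, a⁻¹] z, mul_ne_zero ha0 hc, ?_, ?_⟩
        · intro j
          refine Fin.cases ?_ (fun j => ?_) j
          · simp [nrm]
            exact inv_le_one_of_one_le₀ hwa.le
          · simpa using hz j
        · rw [Fin.prod_univ_succ]
          simp only [Fin.cons_zero, Fin.cons_succ]
          rw [e]
          have : (X - C a : L[X]) = C a * (C a⁻¹ * X - C 1) := by
            rw [mul_sub, ← mul_assoc, ← C_mul, mul_inv_cancel₀ ha0]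
            simp
          rw [this]
          simp only [C_mul, Matrix.cons_val_one, Matrix.cons_val_zero]
          ring
    · obtain ⟨c, z, hc, hz, e⟩ := ih h hge h0
      refine ⟨-c, Fin.cons ![1, 0] z, by simpa using hc, ?_, ?_⟩
      · intro j
        refine Fin.cases ?_ (fun j => ?_) j
        · simp [nrm]
        · simpa using hz j
      · rw [Fin.prod_univ_succ]
        simp only [Fin.cons_zero, Fin.cons_succ]
        rw [e]
        simp

theorem eval_fac {K : Type u} [Field K] {d : ℕ} (c : K) (z : Fin d → Fin 2 → K) (x : Fin 2 → K) :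
    MvPolynomial.eval x ((C c * ∏ j, (C (z j 1) * X - C (z j 0))).homogenize d) =
      c * ∏ j, wd x (z j) := by
  rw [homogenize_C_mul, map_mul, MvPolynomial.eval_C]
  congr 1
  have h := homogenize_finsetProd (R := K) (s := (Finset.univ : Finset (Fin d)))
    (p := fun j => (C (z j 1) * X - C (z j 0))) (n := fun _ => 1) (by
      intro j _
      refine (natDegree_sub_le _ _).trans ?_
      simp
      exact (natDegree_C_mul_le _ _).trans natDegree_X_le)
  simp only [Finset.sum_const, Finset.card_univ, Fintype.card_fin, smul_eq_mul, mul_one] at h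
  rw [h, map_prod]
  refine Finset.prod_congr rfl fun j _ => ?_
  rw [homogenize_sub, homogenize_C_mul, homogenize_X one_ne_zero, homogenize_C]
  simp [wd]
  ring

variable {L : Type u} [Field L]

theorem dh_hom {d : ℕ} {p : MvPolynomial (Fin 2) L} (hp : p.IsHomogeneous d) :
    (dh p).homogenize d = p :=
  homogenize_eq_of_isHomogeneous hp rfl

theorem dh_deg {d : ℕ} {p : MvPolynomial (Fin 2) L} (hp : p.IsHomogeneous d) :
    (dh p).natDegree ≤ d := by
  rw [dh]
  conv_lhs => rw [p.as_sum]
  rw [map_sum]
  refine natDegree_sum_le_of_forall_le _ _ fun m hm => ?_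
  have hm' : m 0 + m 1 = d := by
    have := hp (by simpa using hm)
    simpa [Finsupp.weight_apply, Finsupp.sum_fintype, Fin.sum_univ_two] using this
  rw [MvPolynomial.aeval_monomial]
  rw [Finsupp.prod_fintype _ _ (by simp)]
  simp only [Fin.prod_univ_two, Matrix.cons_val_zero, Matrix.cons_val_one, one_pow, mul_one]
  rw [← C_eq_algebraMap]
  refine (natDegree_C_mul_le _ _).trans ?_
  refine (natDegree_X_pow_le _).trans ?_
  omega

/-- the product formula for the resultant -/
theorem key {d : ℕ} {f : Fin 2 → MvPolynomial (Fin 2) L}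
    (hf : ∀ i, (f i).IsHomogeneous d) {u : Fin 2 → L} {c : L}
    {z : Fin d → Fin 2 → L}
    (h : C (u 0) * dh (f 1) - C (u 1) * dh (f 0) = C c * ∏ j, (C (z j 1) * X - C (z j 0)))
    {k : Fin d → L} (hk : ∀ j, ev f (z j) = k j • u) (hu : u ≠ 0) (w : AbsoluteValue L ℝ) :
    w (rs f d) = w c ^ d * ∏ j, w (k j) := by
  have hp := dh_deg (hf 0)
  have hq := dh_deg (hf 1)
  have hpr : (∏ j, (C (z j 1) * X - C (z j 0)) : L[X]).natDegree ≤ d := by
    refine (natDegree_prod_le _ _).trans ?_
    calc _ ≤ ∑ _j : Fin d, 1 := by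
          refine Finset.sum_le_sum fun j _ => ?_
          refine (natDegree_sub_le _ _).trans ?_
          simp
          exact (natDegree_C_mul_le _ _).trans natDegree_X_le
      _ = d := by simp
  by_cases h0 : u 0 = 0
  · have h1 : u 1 ≠ 0 := by
      intro h1
      apply hu
      ext i
      fin_cases i
      · exact h0
      · exact h1
    have e1 : resultant (C (u 0) * dh (f 1) - C (u 1) * dh (f 0)) (dh (f 1)) d d =
        (-(u 1)) ^ d * rs f d := by
      have : C (u 0) * dh (f 1) - C (u 1) * dh (f 0) =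
          C (-(u 1)) * dh (f 0) + dh (f 1) * C (u 0) := by
        rw [C_neg]; ring
      rw [this, resultant_add_mul_left _ _ _ _ _ (by simp) hq, resultant_C_mul_left]
      rfl
    have e2 : resultant (C c * ∏ j, (C (z j 1) * X - C (z j 0))) (dh (f 1)) d d =
        c ^ d * ∏ j, (k j * u 1) := by
      rw [resultant_C_mul_left, res_prod _ _ hq, dh_hom (hf 1)]
      congr 1
      refine Finset.prod_congr rfl fun j _ => ?_
      have := congrFun (hk j) 1
      simpa [ev] using this
    rw [h, e2] at e1
    have e3 := congrArg w e1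
    rw [Finset.prod_mul_distrib] at e3
    simp only [map_mul, map_pow, AbsoluteValue.map_neg, map_prod, Finset.prod_const,
      Finset.card_univ, Fintype.card_fin] at e3
    have hw1 : w (u 1) ^ d ≠ 0 := pow_ne_zero _ (by simpa using h1)
    apply mul_left_cancel₀ hw1
    rw [← e3]
    ring
  · have e1 : resultant (C (u 0) * dh (f 1) - C (u 1) * dh (f 0)) (dh (f 0)) d d =
        (u 0) ^ d * ((-1) ^ (d * d) * rs f d) := by
      have : C (u 0) * dh (f 1) - C (u 1) * dh (f 0) =
          C (u 0) * dh (f 1) + dh (f 0) * C (-(u 1)) := by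
        rw [C_neg]; ring
      rw [this, resultant_add_mul_left _ _ _ _ _ (by simp) hp, resultant_C_mul_left,
        resultant_comm]
      rfl
    have e2 : resultant (C c * ∏ j, (C (z j 1) * X - C (z j 0))) (dh (f 0)) d d =
        c ^ d * ∏ j, (k j * u 0) := by
      rw [resultant_C_mul_left, res_prod _ _ hp, dh_hom (hf 0)]
      congr 1
      refine Finset.prod_congr rfl fun j _ => ?_
      have := congrFun (hk j) 0
      simpa [ev] using this
    rw [h, e2] at e1
    have e3 := congrArg w e1
    rw [Finset.prod_mul_distrib] at e3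
    simp only [map_mul, map_pow, AbsoluteValue.map_neg, map_prod, Finset.prod_const,
      Finset.card_univ, Fintype.card_fin, map_one, one_pow, one_mul] at e3
    have hw1 : w (u 0) ^ d ≠ 0 := pow_ne_zero _ (by simpa using h0)
    apply mul_left_cancel₀ hw1
    rw [← e3]
    ring

/-- the polynomial of the fibre over `u` -/
theorem ev_wd {d : ℕ} {f : Fin 2 → MvPolynomial (Fin 2) L} (hf : ∀ i, (f i).IsHomogeneous d)
    (u x : Fin 2 → L) :
    MvPolynomial.eval x ((C (u 0) * dh (f 1) - C (u 1) * dh (f 0)).homogenize d) =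
      wd u (ev f x) := by
  rw [homogenize_sub, homogenize_C_mul, homogenize_C_mul, dh_hom (hf 0), dh_hom (hf 1)]
  simp [wd, ev]

theorem unit_ne {w : AbsoluteValue L ℝ} {u : Fin 2 → L} (hu : nrm w u = 1) : u ≠ 0 := by
  rintro rfl
  simp [nrm] at hu

theorem par {u v : Fin 2 → L} (hu : u ≠ 0) (h : wd u v = 0) : ∃ k : L, v = k • u := by
  rw [wd, sub_eq_zero] at h
  by_cases h0 : u 0 = 0
  · have h1 : u 1 ≠ 0 := by
      intro h1
      apply hu
      ext i
      fin_cases i
      · exact h0
      · exact h1
    refine ⟨v 1 / u 1, ?_⟩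
    ext i
    fin_cases i
    · rw [h0, zero_mul] at h
      have : v 0 = 0 := by
        rcases mul_eq_zero.mp h.symm with h | h
        · exact absurd h h1
        · exact h
      simp [this, h0]
    · simp [h1]
  · refine ⟨v 0 / u 0, ?_⟩
    ext i
    fin_cases i
    · simp [h0]
    · simp
      field_simp
      linear_combination h

theorem nrm_smul (w : AbsoluteValue L ℝ) (k : L) (u : Fin 2 → L) :
    nrm w (k • u) = w k * nrm w u := by
  simp [nrm, mul_max_of_nonneg _ _ (w.nonneg k)]

/-- eval of univariate polynomials -/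
theorem eval_wd {d : ℕ} {f : Fin 2 → MvPolynomial (Fin 2) L} (hf : ∀ i, (f i).IsHomogeneous d)
    (u : Fin 2 → L) (t : L) :
    (C (u 0) * dh (f 1) - C (u 1) * dh (f 0)).eval t = wd u (ev f ![t, 1]) := by
  rw [← ev_wd hf u ![t, 1], eval_homogenize]
  · simp
  · refine (natDegree_sub_le _ _).trans (max_le ?_ ?_)
    · exact (natDegree_C_mul_le _ _).trans (dh_deg (hf 1))
    · exact (natDegree_C_mul_le _ _).trans (dh_deg (hf 0))
  · simp

/-- the consequence of `key` in terms of `wd` -/
theorem key' [Infinite L] {d : ℕ} {f : Fin 2 → MvPolynomial (Fin 2) L}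
    (hf : ∀ i, (f i).IsHomogeneous d) {u : Fin 2 → L} {c : L}
    {z : Fin d → Fin 2 → L} (h : ∀ x, wd u (ev f x) = c * ∏ j, wd x (z j))
    {k : Fin d → L} (hk : ∀ j, ev f (z j) = k j • u) (hu : u ≠ 0) (w : AbsoluteValue L ℝ) :
    w (rs f d) = w c ^ d * ∏ j, w (k j) := by
  refine key hf (u := u) (c := c) (z := z) ?_ hk hu w
  apply Polynomial.funext
  intro t
  rw [eval_wd hf, h]
  simp only [eval_mul, eval_C, eval_prod, eval_sub, eval_X]
  congr 1
  refine Finset.prod_congr rfl fun j _ => ?_
  simp [wd]
  ring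

theorem log_key {w : AbsoluteValue L ℝ} {d : ℕ} {u : Fin 2 → L} {R c : L} {k : Fin d → L}
    {v : Fin d → Fin 2 → L} (hu : nrm w u = 1) (hc : c ≠ 0) (hk0 : ∀ j, k j ≠ 0)
    (hv : ∀ j, v j = k j • u) (h : w R = w c ^ d * ∏ j, w (k j)) :
    d * Real.log (w c) + ∑ j, Real.log (nrm w (v j)) = Real.log (w R) := by
  have hwc : w c ≠ 0 := by simpa using hc
  have hwk : ∀ j, w (k j) ≠ 0 := fun j => by simpa using hk0 j
  rw [h, Real.log_mul (pow_ne_zero _ hwc) (Finset.prod_ne_zero_iff.mpr fun j _ => hwk j),
    Real.log_pow, Real.log_prod (fun j _ => hwk j)]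
  congr 1
  refine Finset.sum_congr rfl fun j _ => ?_
  rw [hv j, nrm_smul, hu, mul_one]

end E2x

open E2x

/-- E2 -/
theorem fib_base {L : Type u} [Field L] [IsAlgClosed L] (w : AbsoluteValue L ℝ) {d : ℕ}
    (hd : 1 ≤ d) {f : Fin 2 → MvPolynomial (Fin 2) L} (hf : ∀ i, (f i).IsHomogeneous d)
    (h0 : rs f d ≠ 0) : Fib w (ev f) d (Real.log (w (rs f d))) := by
  intro u hu
  have hu0 : u ≠ 0 := unit_ne hu
  have hp := dh_deg (hf 0)
  have hq := dh_deg (hf 1)
  have hdeg : (C (u 0) * dh (f 1) - C (u 1) * dh (f 0)).natDegree ≤ d := by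
    refine (natDegree_sub_le _ _).trans (max_le ?_ ?_)
    · exact (natDegree_C_mul_le _ _).trans (dh_deg (hf 1))
    · exact (natDegree_C_mul_le _ _).trans (dh_deg (hf 0))
  have hne : C (u 0) * dh (f 1) - C (u 1) * dh (f 0) ≠ 0 := by
    intro hz
    have : Infinite L := IsAlgClosed.instInfinite
    have h' : ∀ x, wd u (ev f x) = 0 * ∏ _j : Fin d, wd x (0 : Fin 2 → L) := by
      intro x
      rw [← ev_wd hf u x, hz]
      simp
    have hk : ∀ j : Fin d, ev f ((fun _ => (0 : Fin 2 → L)) j) = (0 : L) • u := by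
      intro j
      ext i
      simp only [ev, zero_smul, Pi.zero_apply]
      have e1 : MvPolynomial.eval (0 : Fin 2 → L) (f i) = MvPolynomial.coeff 0 (f i) := by
        rw [MvPolynomial.eval_zero]
        rfl
      refine e1.trans ?_
      by_contra hne
      have := hf i hne
      simp at this
      omega
    have := key' hf h' hk hu0 w
    rw [map_zero, zero_pow (by omega), zero_mul] at this
    exact h0 (by simpa using this)
  obtain ⟨c, z, hc, hz, e⟩ := exists_fac w d _ hdeg hne
  have hfac : ∀ x, wd u (ev f x) = c * ∏ j, wd x (z j) := by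
    intro x
    rw [← ev_wd hf u x, e, eval_fac]
  have hk : ∀ j, ∃ k : L, ev f (z j) = k • u := by
    intro j
    refine par hu0 ?_
    rw [hfac, Finset.prod_eq_zero (Finset.mem_univ j), mul_zero]
    simp [wd]
    ring
  choose k hk using hk
  have hkey := key hf e hk hu0 w
  have hk0 : ∀ j, k j ≠ 0 := by
    intro j hj
    rw [Finset.prod_eq_zero (Finset.mem_univ j) (by simp [hj]), mul_zero] at hkey
    exact h0 (by simpa using hkey)
  exact ⟨c, z, hc, hz, hfac, fun j => ⟨k j, hk0 j, hk j⟩, log_key hu hc hk0 hk hkey⟩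

/-- E2 -/
theorem fib_unique {L : Type u} [Field L] [IsAlgClosed L] (w : AbsoluteValue L ℝ) {d : ℕ}
    (hd : 1 ≤ d) {f : Fin 2 → MvPolynomial (Fin 2) L} (hf : ∀ i, (f i).IsHomogeneous d)
    {r : ℝ} (h : Fib w (ev f) d r) : r = Real.log (w (rs f d)) := by
  have hu : nrm w (![1, 0] : Fin 2 → L) = 1 := by simp [nrm]
  obtain ⟨c, z, hF⟩ := h _ hu
  have : Infinite L := IsAlgClosed.instInfinite
  choose k hk0 hk using hF.img
  have hkey := key' hf hF.fac hk (unit_ne hu) w
  rw [← hF.res]
  exact log_key hu hF.C_ne hk0 hk hkey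

end Pool.Agent.TH450.PC
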