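import Pool.Agent.TH450.PC.D2
import Pool.Agent.TH450.PC.B2
import Pool.Agent.TH450.PC.E2

/-!
# Potentially good reduction: the Green pairing is nonnegative (F2)
-/

set_option autoImplicit false

namespace Pool.Agent.TH450.PC

open Pool.Agent.H951R3.PB

open Real Filter Topology

universe u

namespace F2

variable {L : Type u} [Field L]

theorem sum_le (w : AbsoluteValue L ℝ) (hw : IsNonarchimedean w)
    {ι : Type*} (s : Finset ι) (f : ι → L) (h : ∀ i ∈ s, w (f i) ≤ 1) :
    w (∑ i ∈ s, f i) ≤ 1 := by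
  classical
  induction s using Finset.induction_on with
  | empty => simp
  | insert i s hi ih =>
      rw [Finset.sum_insert hi]
      exact (hw _ _).trans (max_le (h i (Finset.mem_insert_self _ _))
        (ih fun j hj => h j (Finset.mem_insert_of_mem hj)))

theorem eval_le (w : AbsoluteValue L ℝ) (hw : IsNonarchimedean w)
    (p : MvPolynomial (Fin 2) L) (hp : ∀ m, w (p.coeff m) ≤ 1) (x : Fin 2 → L)
    (hx : ∀ i, w (x i) ≤ 1) : w (MvPolynomial.eval x p) ≤ 1 := by
  rw [MvPolynomial.eval_eq']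
  apply sum_le w hw
  intro m _
  rw [map_mul, map_prod]
  apply mul_le_one₀ (hp m) (Finset.prod_nonneg fun i _ => w.nonneg _)
  apply Finset.prod_le_one (fun i _ => w.nonneg _)
  intro i _
  rw [map_pow]
  exact pow_le_one₀ (w.nonneg _) (hx i)

theorem unit_ev (w : AbsoluteValue L ℝ) (hw : IsNonarchimedean w)
    {g : Fin 2 → MvPolynomial (Fin 2) L} (hg : GoodAt w g) {x : Fin 2 → L}
    (hx : nrm w x = 1) : nrm w (ev g x) = 1 := by
  have hx0 : ∀ i, w (x i) ≤ 1 := by
    intro i
    fin_cases i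
    · exact (le_max_left _ _).trans_eq hx
    · exact (le_max_right _ _).trans_eq hx
  have hx1 : ∃ i, w (x i) = 1 := by
    rcases max_choice (w (x 0)) (w (x 1)) with h | h
    · exact ⟨0, by rw [← h]; exact hx⟩
    · exact ⟨1, by rw [← h]; exact hx⟩
  apply le_antisymm
  · exact max_le (eval_le w hw _ (hg.1 0) x hx0) (eval_le w hw _ (hg.1 1) x hx0)
  · obtain ⟨i, hi⟩ := hg.2 x hx0 hx1
    rw [← hi]
    fin_cases i
    · exact le_max_left _ _
    · exact le_max_right _ _

theorem wd_le (w : AbsoluteValue L ℝ) (hw : IsNonarchimedean w) (x y : Fin 2 → L) :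
    w (wd x y) ≤ nrm w x * nrm w y := by
  have h0 : ∀ z : Fin 2 → L, w (z 0) ≤ nrm w z := fun z => le_max_left _ _
  have h0' : ∀ z : Fin 2 → L, w (z 1) ≤ nrm w z := fun z => le_max_right _ _
  have hn : ∀ z : Fin 2 → L, 0 ≤ nrm w z := fun z => (w.nonneg _).trans (h0 z)
  have h1 : wd x y = x 0 * y 1 + -(x 1 * y 0) := by simp only [wd]; ring
  rw [h1]
  refine (hw _ _).trans (max_le ?_ ?_)
  · rw [map_mul]
    exact mul_le_mul (h0 x) (h0' y) (w.nonneg _) (hn x)
  · rw [w.map_neg, map_mul]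
    exact mul_le_mul (h0' x) (h0 y) (w.nonneg _) (hn x)

end F2

/-- F2 -/
theorem potgood_gg {K : Type u} [Field K] {d : ℕ} (hd : 2 ≤ d)
    {f : Fin 2 → MvPolynomial (Fin 2) K} (hf : ∀ i, (f i).IsHomogeneous d)
    (h0 : rs (fL K f) d ≠ 0) (w : AbsoluteValue (AlgebraicClosure K) ℝ)
    (hw : IsNonarchimedean w) (h : PotGoodAt w d f) {x y : Fin 2 → AlgebraicClosure K}
    (hxy : wd x y ≠ 0) : 0 ≤ gg w (ev (fL K f)) d (log (w (rs (fL K f) d))) x y := by
  obtain ⟨g, hgh, hgood, A, c, hA, hc, hconj⟩ := h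
  have hfL : ∀ i, (fL K f i).IsHomogeneous d := fun i => (hf i).map _
  have hFib := fib_base w (by omega : 1 ≤ d) hfL h0
  set F := ev (fL K f) with hF
  set r := log (w (rs (fL K f) d)) with hr
  set a : Fin 2 → AlgebraicClosure K := fun i => A i 0 with ha
  set b : Fin 2 → AlgebraicClosure K := fun i => A i 1 with hb
  have hemb : ∀ z, emb a b z = A.mulVec z := by
    intro z
    funext i
    simp only [emb, ha, hb, Matrix.mulVec, dotProduct, Fin.sum_univ_two, Pi.add_apply,
      Pi.smul_apply, smul_eq_mul]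
    ring
  have hab : wd a b ≠ 0 := by
    have : wd a b = A.det := by
      rw [Matrix.det_fin_two]; simp only [wd, ha, hb]; ring
    rw [this]; exact hA
  have hev : ev g = fun z => c • cj a b F z := by
    funext z
    have h1 := hconj z
    rw [← hemb, ← hemb] at h1
    rw [cj, ← D2.coo_smul, ← h1, D2.coo_emb hab]
  obtain ⟨hx, hy⟩ := D2.wd_swap0 x y hxy
  have hex : emb a b (coo a b x) = x := D2.emb_coo hab x
  have hey : emb a b (coo a b y) = y := D2.emb_coo hab y
  have hxy' : wd (coo a b x) (coo a b y) ≠ 0 := by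
    intro h0
    have := D2.wd_emb a b (coo a b x) (coo a b y)
    rw [hex, hey, h0, mul_zero] at this
    exact hxy this
  have h1 := gg_cj hd hFib hab hxy'
  have h2 := gg_scale hd (fib_cj hFib hab) hc hxy'
  rw [hex, hey] at h1
  rw [← h1, ← h2.2]
  obtain ⟨hfib, -⟩ := h2
  rw [← hev] at hfib ⊢
  set ρ := cr w d r a b + 2 * d * log (w c) with hρ
  -- the Green function is the logarithm of the norm
  have hscale : ∀ v : Fin 2 → AlgebraicClosure K, v ≠ 0 →
      log (nrm w (ev g v)) = d * log (nrm w v) := by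
    intro v hv
    obtain ⟨k, u, hk, hu, rfl⟩ := D2.unit_of w hv
    rw [fib_homog hfib, B1_nrm_smul, B1_nrm_smul, F2.unit_ev w hw hgood hu, hu, mul_one,
      mul_one, map_pow, log_pow]
  have hit : ∀ (n : ℕ) (v : Fin 2 → AlgebraicClosure K), v ≠ 0 →
      log (nrm w ((ev g)^[n] v)) = (d : ℝ) ^ n * log (nrm w v) := by
    intro n v hv
    induction n with
    | zero => simp
    | succ n ih =>
      rw [Function.iterate_succ_apply', hscale _ (fib_ne_zero (fib_iter hfib n) hv), ih]
      ring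
  have hd2 : (2 : ℝ) ≤ d := by exact_mod_cast hd
  have hGr : ∀ v : Fin 2 → AlgebraicClosure K, v ≠ 0 → Gr w (ev g) d v = log (nrm w v) := by
    intro v hv
    have h3 := gr_tendsto hd hfib hv
    have h4 : (fun n : ℕ => log (nrm w ((ev g)^[n] v)) / (d : ℝ) ^ n) =
        fun _ => log (nrm w v) := by
      funext n
      rw [hit n v hv]
      have : (d : ℝ) ^ n ≠ 0 := pow_ne_zero _ (by linarith)
      field_simp
    rw [h4] at h3
    exact tendsto_nhds_unique h3 tendsto_const_nhds
  have hρ0 : ρ ≤ 0 := by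
    have hS : Ssup w (ev g) = 0 := by
      have : ∀ v : {v : Fin 2 → AlgebraicClosure K // nrm w v = 1},
          log (nrm w (ev g v.1)) = 0 := by
        intro v
        rw [F2.unit_ev w hw hgood v.2, log_one]
      have hne : Nonempty {v : Fin 2 → AlgebraicClosure K // nrm w v = 1} :=
        ⟨⟨![1, 0], by simp [nrm]⟩⟩
      rw [Ssup, iSup_congr this, ciSup_const]
    obtain ⟨C, z, hz⟩ := hfib ![1, 0] (by simp [nrm])
    have h5 := (fib_bounds_na w hw (by omega : 1 ≤ d) hfib).1 _ C z (by simp [nrm]) hz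
    rw [hS] at h5
    have h6 := hz.res
    have h7 : ∀ j, log (nrm w (ev g (z j))) = 0 := by
      intro j
      rw [F2.unit_ev w hw hgood (hz.unit j), log_one]
    simp only [h7, Finset.sum_const_zero, add_zero] at h6
    rw [← h6]
    nlinarith
  have hta : 0 ≤ ta d ρ := by
    rw [ta]
    apply div_nonneg (by linarith)
    have : (0 : ℝ) ≤ d - 1 := by linarith
    positivity
  rw [gg, hGr _ (D2.coo_ne hab hx), hGr _ (D2.coo_ne hab hy)]
  have hle := F2.wd_le w hw (coo a b x) (coo a b y)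
  have hpos : 0 < w (wd (coo a b x) (coo a b y)) := w.pos hxy'
  have hlog := Real.log_le_log hpos hle
  rw [log_mul (B1_nrm_pos w (D2.coo_ne hab hx)).ne' (B1_nrm_pos w (D2.coo_ne hab hy)).ne']
    at hlog
  linarith

end Pool.Agent.TH450.PC
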