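import Pool.Agent.H951R3.PB.Defs
import Pool.Agent.TH450.PC.B1
import Pool.Agent.TH450.PC.B2
import Pool.Agent.TH450.PC.D1
import Pool.Agent.TH450.PC.E1
import Pool.Agent.TH450.PC.E2

/-!
# Vectors over the base field
-/

set_option autoImplicit false

namespace Pool.Agent.TH450.PC

open Pool.Agent.H951R3.PB

open Real Filter Topology

universe u

theorem F4_nrm_pos {L : Type u} [Field L] (w : AbsoluteValue L ℝ) {x : Fin 2 → L} (hx : x ≠ 0) :
    0 < nrm w x := by
  by_contra h
  have h' : nrm w x ≤ 0 := not_lt.1 h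
  apply hx
  funext i
  fin_cases i
  · exact w.eq_zero.1 (le_antisymm ((le_max_left _ _).trans h') (w.nonneg _))
  · exact w.eq_zero.1 (le_antisymm ((le_max_right _ _).trans h') (w.nonneg _))

theorem F4_ext_nrm {K : Type u} [Field K] {v : AbsoluteValue K ℝ}
    {w : AbsoluteValue (AlgebraicClosure K) ℝ} (h : Ext v w) (x : Fin 2 → K) :
    nrm w (vL K x) = nrm v x := by
  simp only [nrm, vL, h _]

theorem F4_wd {K : Type u} [Field K] (x y : Fin 2 → K) :
    wd (vL K x) (vL K y) = algebraMap K (AlgebraicClosure K) (wd x y) := by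
  simp [wd, vL]

theorem F4_ev {K : Type u} [Field K] (f : Fin 2 → MvPolynomial (Fin 2) K) (x : Fin 2 → K) :
    ev (fL K f) (vL K x) = vL K (ev f x) := by
  funext i
  simp only [ev, fL]
  rw [MvPolynomial.eval_map]
  exact (MvPolynomial.eval₂_comp (algebraMap K (AlgebraicClosure K)) x (f i)).symm

theorem F4_iter {K : Type u} [Field K] (f : Fin 2 → MvPolynomial (Fin 2) K) (x : Fin 2 → K)
    (n : ℕ) : (ev (fL K f))^[n] (vL K x) = vL K ((ev f)^[n] x) := by
  induction n with
  | zero => rfl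
  | succ n ih => rw [Function.iterate_succ_apply', Function.iterate_succ_apply', ih, F4_ev]

theorem F4_vL_ne {K : Type u} [Field K] {x : Fin 2 → K} (hx : x ≠ 0) : vL K x ≠ 0 := by
  intro h
  apply hx
  funext i
  have := congrFun h i
  simpa [vL] using this

theorem F4_rs {K : Type u} [Field K] (f : Fin 2 → MvPolynomial (Fin 2) K) (d : ℕ) :
    rs (fL K f) d = algebraMap K (AlgebraicClosure K) (rs f d) :=
  rs_map (algebraMap K (AlgebraicClosure K)) f d

theorem F4_rs_ne {K : Type u} [Field K] {f : Fin 2 → MvPolynomial (Fin 2) K} {d : ℕ}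
    (h0 : rs f d ≠ 0) : rs (fL K f) d ≠ 0 := by
  rw [F4_rs]
  simpa using h0

theorem F4_fib {K : Type u} [Field K] {d : ℕ} (hd : 1 ≤ d)
    {f : Fin 2 → MvPolynomial (Fin 2) K} (hf : ∀ i, (f i).IsHomogeneous d)
    (h0 : rs f d ≠ 0) (w : AbsoluteValue (AlgebraicClosure K) ℝ) :
    Fib w (ev (fL K f)) d (log (w (rs (fL K f) d))) :=
  fib_base w hd (fun i => (hf i).map _) (F4_rs_ne h0)

theorem F4_iter_ne {K : Type u} [Field K] {d : ℕ} (hd : 1 ≤ d)
    {f : Fin 2 → MvPolynomial (Fin 2) K} (hf : ∀ i, (f i).IsHomogeneous d)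
    (h0 : rs f d ≠ 0) (w : AbsoluteValue (AlgebraicClosure K) ℝ) {x : Fin 2 → K} (hx : x ≠ 0)
    (n : ℕ) : (ev f)^[n] x ≠ 0 := by
  induction n with
  | zero => exact hx
  | succ n ih =>
    rw [Function.iterate_succ_apply']
    intro h
    have h1 := fib_ne_zero (F4_fib hd hf h0 w) (F4_vL_ne ih)
    apply h1
    rw [F4_ev, h]
    funext i
    simp [vL]

theorem ev_smul {K : Type u} [Field K] {d : ℕ} {f : Fin 2 → MvPolynomial (Fin 2) K}
    (hf : ∀ i, (f i).IsHomogeneous d) (c : K) (x : Fin 2 → K) :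
    ev f (c • x) = c ^ d • ev f x := by
  funext i
  simp only [ev, Pi.smul_apply, smul_eq_mul]
  rw [MvPolynomial.eval_eq', MvPolynomial.eval_eq', Finset.mul_sum]
  refine Finset.sum_congr rfl fun m hm => ?_
  have hdeg : ∑ j, m j = d := by
    have h1 := (hf i) (MvPolynomial.mem_support_iff.mp hm)
    rw [Finsupp.weight_apply, Finsupp.sum_fintype _ _ (by simp)] at h1
    simpa using h1
  simp only [Pi.smul_apply, smul_eq_mul, mul_pow, Finset.prod_mul_distrib]
  rw [Finset.prod_pow_eq_pow_sum, hdeg]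
  ring

theorem cramer_vec {L : Type*} [Field L] (x a b : Fin 2 → L) :
    wd a b • x = wd x b • a + wd a x • b := by
  ext i
  fin_cases i <;> simp [wd] <;> ring

/-- no common zero implies nonzero resultant -/
theorem rs_ne_of_noZero {K : Type u} [Field K] {d : ℕ} (hd : 1 ≤ d)
    {f : Fin 2 → MvPolynomial (Fin 2) K} (hf : ∀ i, (f i).IsHomogeneous d)
    (hz : ∀ x : Fin 2 → AlgebraicClosure K, (∀ i, MvPolynomial.aeval x (f i) = 0) → x = 0) :
    rs f d ≠ 0 := by
  have h1 : rs (fL K f) d ≠ 0 := by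
    refine (rs_ne_zero_iff (f := fL K f) hd (fun i => (hf i).map _)).2 ?_
    intro x hx
    refine hz x fun i => ?_
    have h2 := congrFun hx i
    simp only [ev, fL, MvPolynomial.eval_map, Pi.zero_apply] at h2
    rwa [MvPolynomial.aeval_def]
  have h2 : rs (fL K f) d = algebraMap K (AlgebraicClosure K) (rs f d) := rs_map _ f d
  rw [h2] at h1
  exact fun h0 => h1 (by rw [h0, map_zero])

end Pool.Agent.TH450.PC
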