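import Pool.Agent.H951R3.PB.Defs
import Pool.Agent.TH450.PC.D2
import Pool.Agent.TH450.PC.D3
import Pool.Agent.TH450.PC.E2
import Pool.Agent.TH450.PC.E3
import Pool.Agent.TH450.PC.E5

/-!
# Task E6: the loss inequality with the minimal size (helper847)
-/

set_option autoImplicit false

namespace Pool.Agent.TH450.PC

open Pool.Agent.H951R3.PB

open Real Filter Topology

universe u

namespace E6

theorem emb_coo {L : Type u} [Field L] {a b : Fin 2 → L} (hab : wd a b ≠ 0)
    (y : Fin 2 → L) : emb a b (coo a b y) = y := by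
  funext i
  have h0 : emb a b (coo a b y) i =
      (wd y b * a i + wd a y * b i) / wd a b := by
    simp only [emb, coo, Pi.add_apply, Pi.smul_apply, smul_eq_mul, Matrix.cons_val_zero,
      Matrix.cons_val_one]
    field_simp
  rw [h0, div_eq_iff hab]
  fin_cases i
  · simp only [wd, Fin.zero_eta]
    ring
  · simp only [wd, Fin.mk_one]
    ring

theorem wd_coo {L : Type u} [Field L] {a b : Fin 2 → L} (hab : wd a b ≠ 0)
    (x y : Fin 2 → L) : wd (coo a b x) (coo a b y) = wd x y / wd a b := by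
  have h0 : wd (coo a b x) (coo a b y) =
      (wd x b * wd a y - wd a x * wd y b) / (wd a b * wd a b) := by
    simp only [coo]
    rw [wd]
    simp only [Matrix.cons_val_zero, Matrix.cons_val_one]
    field_simp
  rw [h0, div_eq_div_iff (mul_ne_zero hab hab) hab]
  simp only [wd]
  ring

end E6

/-- E6 -/
theorem loss (d : ℕ) (hd : 2 ≤ d) : ∃ B : ℝ, 0 ≤ B ∧
    ∀ (L : Type u) [Field L] [IsAlgClosed L] (w : AbsoluteValue L ℝ)
      (f : Fin 2 → MvPolynomial (Fin 2) L), (∀ i, (f i).IsHomogeneous d) → rs f d ≠ 0 →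
    ∀ (m : ℕ) (x : Fin (d ^ m) → Fin 2 → L), (∀ i, x i ≠ 0) →
      (∀ i j, i ≠ j → wd (x i) (x j) ≠ 0) →
      -((d : ℝ) ^ m * (m * (mm w (ev f) d (log (w (rs f d))) + B))) ≤
        ∑ i, ∑ j ∈ Finset.Ioi i, gg w (ev f) d (log (w (rs f d))) (x i) (x j) := by
  obtain ⟨B0, hB0, H0⟩ := loss0.{u} d hd
  have hlog : 0 ≤ log (d : ℝ) := Real.log_natCast_nonneg d
  refine ⟨B0 + 1 + log d, by positivity, ?_⟩
  intro L _ _ w f hf h0 m x hx hxx
  have hd1 : 1 ≤ d := by omega
  have h : Fib w (ev f) d (log (w (rs f d))) := fib_base w hd1 hf h0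
  obtain ⟨a, b, hab, ht⟩ := exists_mm hd h
  obtain ⟨g, hg, hev, hrs⟩ := poly_cj hd1 hf h0 hab
  have hcj := fib_cj h hab
  rw [← hev] at hcj
  have hcr : cr w d (log (w (rs f d))) a b = log (w (rs g d)) :=
    fib_unique w hd1 hg hcj
  have key := H0 L w g hg hrs m (fun i => coo a b (x i)) (fun i hi => hx i (by
      rw [← E6.emb_coo hab (x i), hi]
      funext j
      simp [emb])) (fun i j hij => by
      rw [E6.wd_coo hab]
      exact div_ne_zero (hxx i j hij) hab)
  have hsum : ∑ i, ∑ j ∈ Finset.Ioi i,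
      gg w (ev g) d (log (w (rs g d))) (coo a b (x i)) (coo a b (x j)) =
      ∑ i, ∑ j ∈ Finset.Ioi i, gg w (ev f) d (log (w (rs f d))) (x i) (x j) := by
    refine Finset.sum_congr rfl fun i _ => Finset.sum_congr rfl fun j hj => ?_
    have hij : i ≠ j := (Finset.mem_Ioi.mp hj).ne
    rw [hev, ← hcr, gg_cj hd h hab, E6.emb_coo hab, E6.emb_coo hab]
    rw [E6.wd_coo hab]
    exact div_ne_zero (hxx i j hij) hab
  rw [hsum] at key
  refine le_trans ?_ key
  rw [hev, ← hcr]
  have hdm : (0 : ℝ) ≤ (d : ℝ) ^ m := by positivity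
  have hm : (0 : ℝ) ≤ (m : ℝ) := by positivity
  have h1 : (d : ℝ) ^ m * (m * (tt w (cj a b (ev f)) d (cr w d (log (w (rs f d))) a b) + B0)) ≤
      (d : ℝ) ^ m * (m * (mm w (ev f) d (log (w (rs f d))) + 1 + B0)) := by
    apply mul_le_mul_of_nonneg_left _ hdm
    apply mul_le_mul_of_nonneg_left _ hm
    linarith
  have h2 : (d : ℝ) ^ m * (m * (mm w (ev f) d (log (w (rs f d))) + (B0 + 1 + log d))) =
      (d : ℝ) ^ m * (m * (mm w (ev f) d (log (w (rs f d))) + 1 + B0)) +
        (d : ℝ) ^ m * (m * log d) := by ring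
  linarith

end Pool.Agent.TH450.PC
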